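import Mathlib

/-!
# The flag model of essential components (MP_b75bf2_nt, folder FL): definitions

`G n = F_2^n` with the flag `V_0 < V_1 < ... < V_n`, `V_l` the vectors supported in the first `l`
coordinates (the polynomials of degree `< l` over the field with two elements). The subgroups `V_l`
play the role of the intervals `[0, 2^l)` of the integers.
-/

namespace Pool.Agent.Lib.MPb75bf2.FL

open Finset
open scoped Pointwise

/-- The group `F_2^n`. -/
abbrev G (n : ℕ) := Fin n → ZMod 2

/-- The members of the flag: the vectors supported in the first `l` coordinates. -/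
def Vset (n l : ℕ) : Finset (G n) := univ.filter fun x => ∀ i : Fin n, l ≤ (i : ℕ) → x i = 0

/-- `B` expands uniformly on all the members of the flag: if `S` is a subset of `V_l` with at most
half of the elements of `V_l`, then the sumset of `S` and the part of `B` in `V_l` has at least
`(1 + η) |S|` elements. -/
def Expands (η : ℝ) (n : ℕ) (B : Finset (G n)) : Prop :=
  ∀ l ≤ n, ∀ S ⊆ Vset n l, 2 * S.card ≤ (Vset n l).card →
    (1 + η) * (S.card : ℝ) ≤ ((S + B ∩ Vset n l).card : ℝ)

end Pool.Agent.Lib.MPb75bf2.FL
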