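import Mathlib

/-!
# Essential components in the polynomials over the field with two elements: definitions
-/

namespace Pool.Agent.Lib.MPb75bf2.FL

open scoped Pointwise

/-- The polynomials of degree `< l` over the field with two elements (`2 ^ l` of them). They play the
role of the integers in `[0, 2 ^ l)`. -/
def PL (l : ℕ) : Set (Polynomial (ZMod 2)) := {p | p.degree < (l : WithBot ℕ)}

/-- The Schnirelmann density of a set of polynomials: the infimum of the densities in the sets `PL l`. -/
noncomputable def dens (A : Set (Polynomial (ZMod 2))) : ℝ :=
  ⨅ l : ℕ, ((A ∩ PL l).ncard : ℝ) / 2 ^ l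

/-- The Schnirelmann density of the sum of `A` and `B`: the infimum over `l` of the densities in
`PL l` of the sets of the sums `a + b`, `a ∈ A` and `b ∈ B` of degree `< l`. -/
noncomputable def densSum (A B : Set (Polynomial (ZMod 2))) : ℝ :=
  ⨅ l : ℕ, (((A ∩ PL l) + (B ∩ PL l)).ncard : ℝ) / 2 ^ l

/-- `B` is an essential component: the sum of `A` and `B` has a greater density than `A` for every
`A` which contains `0` and has a density strictly between `0` and `1`. -/
def EssentialPoly (B : Set (Polynomial (ZMod 2))) : Prop :=
  ∀ A : Set (Polynomial (ZMod 2)), 0 ∈ A → 0 < dens A → dens A < 1 → dens A < densSum A B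

end Pool.Agent.Lib.MPb75bf2.FL
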