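import Pool.Agent.Lib.MP_b75bf2_nt.FL.Spec2

section
/-!
# BIN: the binomial distribution has no large atoms
-/
namespace Pool.Agent.Lib.MPb75bf2.FL

open Finset

namespace BINM

theorem central (n : ℕ) : (2 * n + 1) * n.centralBinom ^ 2 ≤ 16 ^ n := by
  induction n with
  | zero => simp
  | succ n ih =>
    have h1 := Nat.succ_mul_centralBinom_succ n
    have h2 : (n + 1) ^ 2 * ((2 * (n + 1) + 1) * (n + 1).centralBinom ^ 2) ≤
        (n + 1) ^ 2 * 16 ^ (n + 1) := by
      calc (n + 1) ^ 2 * ((2 * (n + 1) + 1) * (n + 1).centralBinom ^ 2)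
          = (2 * (n + 1) + 1) * ((n + 1) * (n + 1).centralBinom) ^ 2 := by ring
        _ = (2 * (n + 1) + 1) * (2 * (2 * n + 1) * n.centralBinom) ^ 2 := by rw [h1]
        _ = 4 * ((2 * n + 3) * (2 * n + 1)) * ((2 * n + 1) * n.centralBinom ^ 2) := by ring
        _ ≤ 4 * ((2 * n + 3) * (2 * n + 1)) * 16 ^ n := Nat.mul_le_mul_left _ ih
        _ ≤ 4 * ((2 * n + 2) * (2 * n + 2)) * 16 ^ n := by
          refine Nat.mul_le_mul_right _ (Nat.mul_le_mul_left _ ?_)
          nlinarith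
        _ = (n + 1) ^ 2 * 16 ^ (n + 1) := by ring
    exact Nat.le_of_mul_le_mul_left h2 (by positivity)

theorem middle (r : ℕ) : (r + 1) * (r.choose (r / 2)) ^ 2 ≤ 4 ^ r := by
  rcases Nat.even_or_odd' r with ⟨n, rfl | rfl⟩
  · have h := central n
    have e : 2 * n / 2 = n := by omega
    rw [e]
    have e2 : (4 : ℕ) ^ (2 * n) = 16 ^ n := by
      rw [pow_mul]
      norm_num
    rw [e2]
    exact h
  · have h := central (n + 1)
    have e : (2 * n + 1) / 2 = n := by omega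
    rw [e]
    have e3 : (n + 1).centralBinom = 2 * (2 * n + 1).choose n := by
      rw [Nat.centralBinom, show 2 * (n + 1) = 2 * n + 1 + 1 by ring, Nat.choose_succ_succ',
        Nat.choose_symm_half]
      ring
    rw [e3] at h
    have e4 : (16 : ℕ) ^ (n + 1) = 4 * 4 ^ (2 * n + 1) := by
      rw [show (16 : ℕ) = 4 ^ 2 by norm_num, ← pow_mul, ← pow_succ']
      congr 1
    rw [e4] at h
    nlinarith

end BINM

open BINM in
theorem specBIN : SpecBIN := by
  intro δ Λ hδ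
  obtain ⟨r0, hr0⟩ := exists_nat_ge (((Λ : ℝ) + 1) ^ 2 / δ ^ 2)
  refine ⟨r0, fun r hr => ?_⟩
  have hex : ∃ m, 2 ^ r < 2 * ∑ i ∈ range (m + 1), r.choose i := by
    refine ⟨r, ?_⟩
    rw [Nat.sum_range_choose]
    have : 0 < 2 ^ r := by positivity
    omega
  classical
  refine ⟨Nat.find hex, Nat.find_spec hex, ?_⟩
  set m := Nat.find hex with hm
  -- the sum below `m`
  have h1 : 2 * ∑ i ∈ range m, r.choose i ≤ 2 ^ r := by
    rcases Nat.eq_zero_or_pos m with h0 | h0
    · rw [h0]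
      simp
    · have h2 := Nat.find_min hex (m := m - 1) (by omega)
      rw [Nat.sub_add_cancel h0] at h2
      exact not_lt.1 h2
  have h2 : ∑ i ∈ range (m + Λ + 1), r.choose i =
      ∑ i ∈ range m, r.choose i + ∑ i ∈ range (Λ + 1), r.choose (m + i) := by
    rw [add_assoc, sum_range_add]
  have h3 : ∑ i ∈ range (Λ + 1), r.choose (m + i) ≤ (Λ + 1) * r.choose (r / 2) := by
    refine (sum_le_card_nsmul _ _ _ fun i _ => Nat.choose_le_middle (m + i) r).trans ?_
    rw [card_range, smul_eq_mul]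
  -- the middle coefficient
  have h4 : ((Λ : ℝ) + 1) * (r.choose (r / 2) : ℝ) ≤ δ * 2 ^ r := by
    have h5 : ((r : ℝ) + 1) * (r.choose (r / 2) : ℝ) ^ 2 ≤ 4 ^ r := by
      exact_mod_cast middle r
    have h6 : ((Λ : ℝ) + 1) ^ 2 ≤ δ ^ 2 * ((r : ℝ) + 1) := by
      have h7 : ((Λ : ℝ) + 1) ^ 2 / δ ^ 2 ≤ (r : ℝ) + 1 := by
        have : (r0 : ℝ) ≤ r := by exact_mod_cast hr
        linarith
      rw [div_le_iff₀ (by positivity)] at h7
      linarith
    have h8 : (((Λ : ℝ) + 1) * (r.choose (r / 2) : ℝ)) ^ 2 ≤ (δ * 2 ^ r) ^ 2 := by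
      have e : (δ * (2 : ℝ) ^ r) ^ 2 = δ ^ 2 * 4 ^ r := by
        rw [mul_pow, ← pow_mul, mul_comm r 2, pow_mul]
        norm_num
      rw [e, mul_pow]
      calc ((Λ : ℝ) + 1) ^ 2 * (r.choose (r / 2) : ℝ) ^ 2
          ≤ δ ^ 2 * ((r : ℝ) + 1) * (r.choose (r / 2) : ℝ) ^ 2 :=
            mul_le_mul_of_nonneg_right h6 (by positivity)
        _ = δ ^ 2 * (((r : ℝ) + 1) * (r.choose (r / 2) : ℝ) ^ 2) := by ring
        _ ≤ δ ^ 2 * 4 ^ r := mul_le_mul_of_nonneg_left h5 (by positivity)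
    exact (abs_le_of_sq_le_sq' h8 (by positivity)).2
  rw [h2, Nat.cast_add]
  have h9 : ((∑ i ∈ range m, r.choose i : ℕ) : ℝ) ≤ 1 / 2 * 2 ^ r := by
    have : (2 : ℝ) * ((∑ i ∈ range m, r.choose i : ℕ) : ℝ) ≤ 2 ^ r := by exact_mod_cast h1
    linarith
  have h10 : ((∑ i ∈ range (Λ + 1), r.choose (m + i) : ℕ) : ℝ) ≤
      ((Λ : ℝ) + 1) * (r.choose (r / 2) : ℝ) := by exact_mod_cast h3
  calc ((∑ i ∈ range m, r.choose i : ℕ) : ℝ) + ((∑ i ∈ range (Λ + 1), r.choose (m + i) : ℕ) : ℝ)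
      ≤ 1 / 2 * 2 ^ r + δ * 2 ^ r := add_le_add h9 (h10.trans h4)
    _ = (1 / 2 + δ) * 2 ^ r := by ring

end Pool.Agent.Lib.MPb75bf2.FL
end

section
/-!
# CNT: the distribution of the number of nonzero forms
-/
namespace Pool.Agent.Lib.MPb75bf2.FL

open Finset
open scoped Pointwise

namespace CNTM

open Polynomial

abbrev P := Polynomial (ZMod 2)

theorem PL_eq (l : ℕ) : PL l = (degreeLT (ZMod 2) l : Set P) := by
  ext p
  simp only [PL, Set.mem_ofPred_eq, SetLike.mem_coe, mem_degreeLT]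

theorem PL_finite (l : ℕ) : (PL l).Finite := by
  rw [PL_eq]
  have : Finite (degreeLT (ZMod 2) l) := Finite.of_equiv _ (degreeLTEquiv (ZMod 2) l).symm.toEquiv
  exact Set.toFinite _

theorem PL_ncard (l : ℕ) : (PL l).ncard = 2 ^ l := by
  rw [PL_eq]
  have h := Nat.card_congr (degreeLTEquiv (ZMod 2) l).toEquiv
  rw [Set.ncard]
  have h2 : (degreeLT (ZMod 2) l : Set P).encard.toNat = Nat.card (degreeLT (ZMod 2) l) := rfl
  rw [h2, h]
  simp

theorem PL_mono {j l : ℕ} (h : j ≤ l) : PL j ⊆ PL l := by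
  intro p hp
  simp only [PL, Set.mem_ofPred_eq] at *
  exact lt_of_lt_of_le hp (by exact_mod_cast h)

theorem PL_add {l : ℕ} {p q : P} (hp : p ∈ PL l) (hq : q ∈ PL l) : p + q ∈ PL l := by
  rw [PL_eq] at *
  exact (degreeLT (ZMod 2) l).add_mem hp hq

theorem add_self' (y : P) : y + y = 0 := by
  exact CharTwo.add_self_eq_zero y

/-- the sums of binomial coefficients -/
theorem pascal (k m : ℕ) : ∑ i ∈ range (m + 1), (k + 1).choose i =
    ∑ i ∈ range (m + 1), k.choose i + ∑ i ∈ range m, k.choose i := by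
  rw [Finset.sum_range_succ']
  simp only [Nat.choose_succ_succ', Finset.sum_add_distrib, Nat.choose_zero_right]
  rw [Finset.sum_range_succ' (fun i => k.choose i) m]
  simp only [Nat.choose_zero_right]
  ring

/-- counting with an additional form -/
theorem flip_count (V : Finset P) (N : P → ℕ) (θ : P →+ ZMod 2) (y : P)
    (hV : ∀ x ∈ V, x + y ∈ V) (hN : ∀ x, N (x + y) = N x) (hy : θ y ≠ 0) (m : ℕ) :
    2 * (V.filter (fun x => N x + (if θ x ≠ 0 then 1 else 0) < m + 1)).card =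
      (V.filter (fun x => N x < m + 1)).card + (V.filter (fun x => N x < m)).card := by
  classical
  have hyy : ∀ x : P, x + y + y = x := by
    intro x; rw [add_assoc, add_self', add_zero]
  have hflip : ∀ x : P, θ (x + y) ≠ 0 ↔ θ x = 0 := by
    intro x
    rw [map_add]
    have h1 : ∀ a b : ZMod 2, b ≠ 0 → (a + b ≠ 0 ↔ a = 0) := by decide
    exact h1 _ _ hy
  have key : ∀ k : ℕ, (V.filter (fun x => N x < k ∧ θ x = 0)).card =
      (V.filter (fun x => N x < k ∧ θ x ≠ 0)).card := by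
    intro k
    refine Finset.card_bij' (fun x _ => x + y) (fun x _ => x + y) ?_ ?_ ?_ ?_
    · intro x hx
      simp only [Finset.mem_filter] at hx ⊢
      exact ⟨hV x hx.1, by rw [hN]; exact hx.2.1, (hflip x).2 hx.2.2⟩
    · intro x hx
      simp only [Finset.mem_filter] at hx ⊢
      refine ⟨hV x hx.1, by rw [hN]; exact hx.2.1, ?_⟩
      by_contra h
      exact hx.2.2 ((hflip x).1 h)
    · intro x _; exact hyy x
    · intro x _; exact hyy x
  have split : ∀ k : ℕ, (V.filter (fun x => N x < k)).card =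
      (V.filter (fun x => N x < k ∧ θ x = 0)).card + (V.filter (fun x => N x < k ∧ θ x ≠ 0)).card := by
    intro k
    rw [← Finset.card_filter_add_card_filter_not (s := V.filter (fun x => N x < k)) (fun x => θ x = 0),
      Finset.filter_filter, Finset.filter_filter]
  have main : (V.filter (fun x => N x + (if θ x ≠ 0 then 1 else 0) < m + 1)).card =
      (V.filter (fun x => N x < m + 1 ∧ θ x = 0)).card + (V.filter (fun x => N x < m ∧ θ x ≠ 0)).card := by
    rw [← Finset.card_filter_add_card_filter_not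
      (s := V.filter (fun x => N x + (if θ x ≠ 0 then 1 else 0) < m + 1)) (fun x => θ x = 0),
      Finset.filter_filter, Finset.filter_filter]
    congr 1
    · congr 1
      apply Finset.filter_congr
      intro x _
      constructor
      · rintro ⟨h1, h2⟩
        refine ⟨?_, h2⟩
        simpa [h2] using h1
      · rintro ⟨h1, h2⟩
        refine ⟨?_, h2⟩
        simpa [h2] using h1
    · congr 1
      apply Finset.filter_congr
      intro x _
      constructor
      · rintro ⟨h1, h2⟩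
        refine ⟨?_, h2⟩
        rw [if_pos h2] at h1
        omega
      · rintro ⟨h1, h2⟩
        refine ⟨?_, h2⟩
        rw [if_pos h2]
        omega
  rw [main, split (m + 1), split m, key m, key (m + 1)]
  ring

/-- the number of the nonzero values among the first `k` forms -/
noncomputable def Nk (θ : ℕ → (P →+ ZMod 2)) (k : ℕ) (x : P) : ℕ :=
  ((range k).filter (fun i => θ i x ≠ 0)).card

theorem Nk_succ (θ : ℕ → (P →+ ZMod 2)) (k : ℕ) (x : P) :
    Nk θ (k + 1) x = Nk θ k x + (if θ k x ≠ 0 then 1 else 0) := by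
  unfold Nk
  rw [Finset.range_add_one, Finset.filter_insert]
  split_ifs with h
  · rw [Finset.card_insert_of_notMem (by simp)]
  · simp

theorem Nk_shift (θ : ℕ → (P →+ ZMod 2)) (k : ℕ) (x y : P) (hy : ∀ i < k, θ i y = 0) :
    Nk θ k (x + y) = Nk θ k x := by
  unfold Nk
  congr 1
  apply Finset.filter_congr
  intro i hi
  rw [map_add, hy i (Finset.mem_range.1 hi), add_zero]

noncomputable def VF (l : ℕ) : Finset P := (PL_finite l).toFinset

theorem mem_VF (l : ℕ) (x : P) : x ∈ VF l ↔ x ∈ PL l := by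
  simp [VF]

theorem VF_card (l : ℕ) : (VF l).card = 2 ^ l := by
  have h := PL_ncard l
  rw [Set.ncard_eq_toFinset_card _ (PL_finite l)] at h
  exact h

/-- the main induction -/
theorem count (r l : ℕ) (s : ℕ → ℕ) (θ : ℕ → (P →+ ZMod 2)) (hs0 : s 0 ≤ l)
    (mono : ∀ i < r, s (i + 1) ≤ s i) (zero : ∀ i < r, ∀ x ∈ PL (s (i + 1)), θ i x = 0)
    (nz : ∀ i < r, ∃ x ∈ PL (s i), θ i x ≠ 0) :
    ∀ k ≤ r, ∀ m : ℕ,
      ((((VF l).filter (fun x => Nk θ k x < m)).card : ℝ) =
        2 ^ l / 2 ^ k * ((∑ i ∈ range m, k.choose i : ℕ) : ℝ)) ∧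
      ∀ j ≤ l, 2 ^ j / 2 ^ k * ((∑ i ∈ range m, k.choose i : ℕ) : ℝ) ≤
        (((VF j).filter (fun x => Nk θ k x < m)).card : ℝ) := by
  have chain : ∀ i j, i ≤ j → j ≤ r → s j ≤ s i := by
    intro i j hij
    induction hij with
    | refl => intro _; exact le_rfl
    | step h ih =>
      intro hj
      exact le_trans (mono _ (by omega)) (ih (by omega))
  intro k
  induction k with
  | zero =>
    intro _ m
    have h0 : ∀ j, (((VF j).filter (fun x => Nk θ 0 x < m)).card : ℝ) =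
        2 ^ j / 2 ^ 0 * ((∑ i ∈ range m, (0 : ℕ).choose i : ℕ) : ℝ) := by
      intro j
      rcases Nat.eq_zero_or_pos m with hm | hm
      · subst hm; simp
      · have h1 : (VF j).filter (fun x => Nk θ 0 x < m) = VF j := by
          apply Finset.filter_true_of_mem
          intro x _
          simpa [Nk] using hm
        rw [h1, VF_card]
        obtain ⟨m', rfl⟩ : ∃ m', m = m' + 1 := ⟨m - 1, by omega⟩
        rw [Finset.sum_range_succ']
        simp
    exact ⟨h0 l, fun j _ => le_of_eq (h0 j).symm⟩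
  | succ k ih =>
    intro hk m
    have ih' := ih (by omega)
    rcases Nat.eq_zero_or_pos m with hm | hm
    · subst hm; simp
    obtain ⟨m', rfl⟩ : ∃ m', m = m' + 1 := ⟨m - 1, by omega⟩
    clear hm
    -- the recursion on a set with a good vector
    have rec1 : ∀ j, (∃ y ∈ PL j, θ k y ≠ 0 ∧ ∀ i < k, θ i y = 0) →
        2 * (((VF j).filter (fun x => Nk θ (k + 1) x < m' + 1)).card : ℝ) =
        (((VF j).filter (fun x => Nk θ k x < m' + 1)).card : ℝ) +
          (((VF j).filter (fun x => Nk θ k x < m')).card : ℝ) := by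
      rintro j ⟨y, hyj, hy1, hy2⟩
      have h1 := flip_count (VF j) (Nk θ k) (θ k) y
        (fun x hx => by rw [mem_VF] at *; exact PL_add hx hyj)
        (fun x => Nk_shift θ k x y hy2) hy1 m'
      have h2 : (VF j).filter (fun x => Nk θ (k + 1) x < m' + 1) =
          (VF j).filter (fun x => Nk θ k x + (if θ k x ≠ 0 then 1 else 0) < m' + 1) := by
        apply Finset.filter_congr
        intro x _
        rw [Nk_succ]
      rw [h2]
      exact_mod_cast h1
    obtain ⟨y0, hy0, hy0'⟩ := nz k (by omega)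
    have hy0z : ∀ i < k, θ i y0 = 0 := by
      intro i hi
      exact zero i (by omega) y0 (PL_mono (chain (i + 1) k (by omega) (by omega)) hy0)
    have hskl : s k ≤ l := le_trans (chain 0 k (by omega) (by omega)) hs0
    have hp : ((∑ i ∈ range (m' + 1), (k + 1).choose i : ℕ) : ℝ) =
        ((∑ i ∈ range (m' + 1), k.choose i : ℕ) : ℝ) + ((∑ i ∈ range m', k.choose i : ℕ) : ℝ) := by
      rw [pascal]; push_cast; ring
    have h2k : (0 : ℝ) < 2 ^ k := by positivity
    refine ⟨?_, ?_⟩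
    · have h1 := rec1 l ⟨y0, PL_mono hskl hy0, hy0', hy0z⟩
      rw [(ih' (m' + 1)).1, (ih' m').1] at h1
      have h3 : (((VF l).filter (fun x => Nk θ (k + 1) x < m' + 1)).card : ℝ) =
          (2 ^ l / 2 ^ k * ((∑ i ∈ range (m' + 1), k.choose i : ℕ) : ℝ) +
            2 ^ l / 2 ^ k * ((∑ i ∈ range m', k.choose i : ℕ) : ℝ)) / 2 := by linarith
      rw [h3, hp, pow_succ]
      field_simp
    · intro j hj
      by_cases hz : ∀ x ∈ PL j, θ k x = 0
      · have h2 : (VF j).filter (fun x => Nk θ (k + 1) x < m' + 1) =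
            (VF j).filter (fun x => Nk θ k x < m' + 1) := by
          apply Finset.filter_congr
          intro x hx
          rw [Nk_succ, hz x ((mem_VF j x).1 hx)]
          simp
        rw [h2]
        refine le_trans ?_ ((ih' (m' + 1)).2 j hj)
        rw [hp, pow_succ]
        have h4 : ((∑ i ∈ range m', k.choose i : ℕ) : ℝ) ≤ ((∑ i ∈ range (m' + 1), k.choose i : ℕ) : ℝ) := by
          have h5 : ∑ i ∈ range m', k.choose i ≤ ∑ i ∈ range (m' + 1), k.choose i := by
            rw [Finset.sum_range_succ]; omega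
          exact_mod_cast h5
        have h6 : (2 : ℝ) ^ j / (2 ^ k * 2) = 2 ^ j / 2 ^ k / 2 := by field_simp
        rw [h6]
        have h7 : (0 : ℝ) ≤ 2 ^ j / 2 ^ k := by positivity
        nlinarith
      · push Not at hz
        obtain ⟨y1, hy1, hy1'⟩ := hz
        have hgood : ∃ y ∈ PL j, θ k y ≠ 0 ∧ ∀ i < k, θ i y = 0 := by
          by_cases hjs : j ≤ s k
          · refine ⟨y1, hy1, hy1', ?_⟩
            intro i hi
            exact zero i (by omega) y1
              (PL_mono (le_trans hjs (chain (i + 1) k (by omega) (by omega))) hy1)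
          · exact ⟨y0, PL_mono (by omega) hy0, hy0', hy0z⟩
        have h1 := rec1 j hgood
        have h8 := (ih' (m' + 1)).2 j hj
        have h9 := (ih' m').2 j hj
        rw [hp, pow_succ]
        have h6 : (2 : ℝ) ^ j / (2 ^ k * 2) = 2 ^ j / 2 ^ k / 2 := by field_simp
        rw [h6]
        nlinarith

/-- the extension of a finite family of forms -/
noncomputable def ext {r : ℕ} (θ : Fin r → (P →+ ZMod 2)) (i : ℕ) : P →+ ZMod 2 :=
  if h : i < r then θ ⟨i, h⟩ else 0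

theorem NN_eq {r : ℕ} (θ : Fin r → (P →+ ZMod 2)) (x : P) : NN θ x = Nk (ext θ) r x := by
  unfold NN Nk
  refine Finset.card_bij (fun i _ => (i : ℕ)) ?_ ?_ ?_
  · intro i hi
    simp only [Finset.mem_filter, Finset.mem_univ, true_and, Finset.mem_range] at hi ⊢
    refine ⟨i.2, ?_⟩
    unfold ext
    rw [dif_pos i.2]
    exact hi
  · intro i _ j _ hij
    exact Fin.ext hij
  · intro b hb
    simp only [Finset.mem_filter, Finset.mem_range] at hb
    refine ⟨⟨b, hb.1⟩, ?_, rfl⟩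
    simp only [Finset.mem_filter, Finset.mem_univ, true_and]
    have h := hb.2
    unfold ext at h
    rw [dif_pos hb.1] at h
    exact h

theorem ncard_eq {r : ℕ} (θ : Fin r → (P →+ ZMod 2)) (j m : ℕ) :
    ({x | x ∈ PL j ∧ NN θ x ≤ m}).ncard = ((VF j).filter (fun x => Nk (ext θ) r x < m + 1)).card := by
  have h : {x | x ∈ PL j ∧ NN θ x ≤ m} =
      (((VF j).filter (fun x => Nk (ext θ) r x < m + 1) : Finset P) : Set P) := by
    ext x
    simp only [Set.mem_ofPred_eq, Finset.coe_filter, mem_VF, NN_eq, Nat.lt_succ_iff]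
  rw [h, Set.ncard_coe_finset]

end CNTM

/-- CNT -/
theorem specCNT : SpecCNT := by
  intro B Λ r L l s θ hT m
  have hc := CNTM.count r l s (CNTM.ext θ) hT.s0 (fun i hi => hT.mono ⟨i, hi⟩)
    (by
      intro i hi x hx
      unfold CNTM.ext
      rw [dif_pos hi]
      exact hT.zero ⟨i, hi⟩ x hx)
    (by
      intro i hi
      obtain ⟨x, hx, hx'⟩ := hT.nz ⟨i, hi⟩
      refine ⟨x, hx, ?_⟩
      unfold CNTM.ext
      rw [dif_pos hi]
      exact hx') r le_rfl (m + 1)
  refine ⟨?_, ?_⟩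
  · rw [CNTM.ncard_eq]
    exact hc.1
  · intro j hj
    rw [CNTM.ncard_eq]
    exact hc.2 j hj

end Pool.Agent.Lib.MPb75bf2.FL
end

section
/-!
# GLU: gluing over the scales
-/
namespace Pool.Agent.Lib.MPb75bf2.FL

open Finset
open scoped Pointwise

namespace GLUM

open Polynomial

abbrev P := Polynomial (ZMod 2)

theorem PL_eq (l : ℕ) : PL l = (degreeLT (ZMod 2) l : Set P) := by
  ext p
  simp only [PL, Set.mem_ofPred_eq, SetLike.mem_coe, mem_degreeLT]

theorem PL_finite (l : ℕ) : (PL l).Finite := by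
  rw [PL_eq]
  have : Finite (degreeLT (ZMod 2) l) := Finite.of_equiv _ (degreeLTEquiv (ZMod 2) l).symm.toEquiv
  exact Set.toFinite _

theorem PL_ncard (l : ℕ) : (PL l).ncard = 2 ^ l := by
  rw [PL_eq]
  have h := Nat.card_congr (degreeLTEquiv (ZMod 2) l).toEquiv
  rw [Set.ncard]
  have h2 : (degreeLT (ZMod 2) l : Set P).encard.toNat = Nat.card (degreeLT (ZMod 2) l) := rfl
  rw [h2, h]
  simp

theorem PL_mono {j l : ℕ} (h : j ≤ l) : PL j ⊆ PL l := by
  intro p hp
  simp only [PL, Set.mem_ofPred_eq] at *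
  exact lt_of_lt_of_le hp (by exact_mod_cast h)

theorem PL_add {l : ℕ} {p q : P} (hp : p ∈ PL l) (hq : q ∈ PL l) : p + q ∈ PL l := by
  rw [PL_eq] at *
  exact (degreeLT (ZMod 2) l).add_mem hp hq

theorem PL_zero (l : ℕ) : (0 : P) ∈ PL l := by
  rw [PL_eq]
  exact (degreeLT (ZMod 2) l).zero_mem

theorem tri_chain {B : Set P} {Λ r L l : ℕ} {s : ℕ → ℕ} {θ : Fin r → (P →+ ZMod 2)}
    (h : Tri B Λ r L l s θ) : ∀ i j, i ≤ j → j ≤ r → s j ≤ s i := by
  intro i j hij
  induction hij with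
  | refl => intro _; exact le_rfl
  | step h' ih =>
    intro hj
    exact le_trans (h.mono ⟨_, by omega⟩) (ih (by omega))

theorem tri_zero {B : Set P} {Λ r L l : ℕ} {s : ℕ → ℕ} {θ : Fin r → (P →+ ZMod 2)}
    (h : Tri B Λ r L l s θ) {x : P} (hx : x ∈ PL (s r)) : NN θ x = 0 := by
  unfold NN
  rw [Finset.card_eq_zero, Finset.filter_eq_empty_iff]
  intro i _
  rw [not_not]
  exact h.zero i x (PL_mono (tri_chain h _ _ (by omega) le_rfl) hx)

theorem NN_add {r : ℕ} (θ : Fin r → (P →+ ZMod 2)) (x y : P) : NN θ (x + y) ≤ NN θ x + NN θ y := by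
  unfold NN
  refine le_trans (Finset.card_le_card ?_) (Finset.card_union_le _ _)
  intro i hi
  simp only [Finset.mem_filter, Finset.mem_univ, true_and, Finset.mem_union] at hi ⊢
  by_contra hcon
  push Not at hcon
  apply hi
  rw [map_add, hcon.1, hcon.2, add_zero]

/-- the data of the gluing -/
structure Data (B : Set P) (Λ : ℕ) where
  r : ℕ → ℕ
  m : ℕ → ℕ
  l : ℕ → ℕ
  pre : ℕ → ℕ
  s : ℕ → ℕ → ℕ
  θ : (k : ℕ) → Fin (r k) → (P →+ ZMod 2)
  pre0 : pre 0 = 0
  pre1 : ∀ k, pre (k + 1) = l k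
  tri : ∀ k, Tri B Λ (r k) (pre k + r k + 1) (l k) (s k) (θ k)
  half : ∀ k, 2 ^ (r k) < 2 * ∑ i ∈ range (m k + 1), (r k).choose i
  up : ∀ k, ((∑ i ∈ range (m k + Λ + 1), (r k).choose i : ℕ) : ℝ) ≤
    (1 / 2 + 1 / ((k : ℝ) + 1)) * 2 ^ (r k)

theorem data_exists (hBIN : SpecBIN) (B : Set P) (Λ : ℕ)
    (h : ∀ r L : ℕ, ∃ (l : ℕ) (s : ℕ → ℕ) (θ : Fin r → (P →+ ZMod 2)), Tri B Λ r L l s θ) :
    Nonempty (Data B Λ) := by
  choose lF sF θF hF using h
  have hb : ∀ k : ℕ, ∃ r m : ℕ, 2 ^ r < 2 * ∑ i ∈ range (m + 1), r.choose i ∧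
      ((∑ i ∈ range (m + Λ + 1), r.choose i : ℕ) : ℝ) ≤ (1 / 2 + 1 / ((k : ℝ) + 1)) * 2 ^ r := by
    intro k
    obtain ⟨r0, h0⟩ := hBIN (1 / ((k : ℝ) + 1)) Λ (by positivity)
    obtain ⟨m, hm⟩ := h0 r0 le_rfl
    exact ⟨r0, m, hm⟩
  choose r m hrm using hb
  let pre : ℕ → ℕ := fun k => Nat.rec 0 (fun k p => lF (r k) (p + r k + 1)) k
  exact ⟨{
    r := r
    m := m
    l := fun k => lF (r k) (pre k + r k + 1)
    pre := pre
    s := fun k => sF (r k) (pre k + r k + 1)
    θ := fun k => θF (r k) (pre k + r k + 1)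
    pre0 := rfl
    pre1 := fun k => rfl
    tri := fun k => hF (r k) (pre k + r k + 1)
    half := fun k => (hrm k).1
    up := fun k => (hrm k).2 }⟩

variable {B : Set P} {Λ : ℕ}

/-- the glued set -/
def AA (D : Data B Λ) : Set P := {x | ∀ k, x ∈ PL (D.l k) → NN (D.θ k) x ≤ D.m k}

theorem sr_le (D : Data B Λ) (k : ℕ) : D.s k (D.r k) ≤ D.l k :=
  le_trans (tri_chain (D.tri k) 0 _ (Nat.zero_le _) le_rfl) (D.tri k).s0

theorem pre_lt (D : Data B Λ) (k : ℕ) : D.pre k + D.r k + 1 ≤ D.l k :=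
  le_trans (D.tri k).sr (sr_le D k)

theorem pre_step (D : Data B Λ) (k : ℕ) : D.pre k < D.pre (k + 1) := by
  have := pre_lt D k
  rw [D.pre1]
  omega

theorem pre_mono (D : Data B Λ) : StrictMono D.pre := strictMono_nat_of_lt_succ (pre_step D)

theorem zero_pre (D : Data B Λ) (k : ℕ) {x : P} (hx : x ∈ PL (D.pre k)) : NN (D.θ k) x = 0 := by
  apply tri_zero (D.tri k)
  refine PL_mono ?_ hx
  have := (D.tri k).sr
  omega

/-- membership in the shell -/
theorem mem_shell (D : Data B Λ) (k : ℕ) {x : P} (hx : x ∈ PL (D.pre (k + 1)))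
    (hx' : x ∉ PL (D.pre k)) : x ∈ AA D ↔ NN (D.θ k) x ≤ D.m k := by
  constructor
  · intro h
    apply h k
    rw [← D.pre1]
    exact hx
  · intro h k' hk'
    rcases lt_trichotomy k' k with hlt | heq | hgt
    · exfalso
      apply hx'
      rw [← D.pre1] at hk'
      exact PL_mono ((pre_mono D).monotone (by omega)) hk'
    · subst heq; exact h
    · rw [zero_pre D k' (PL_mono ((pre_mono D).monotone (by omega)) hx)]
      exact Nat.zero_le _

theorem card_step (D : Data B Λ) (k j : ℕ) (hj : D.pre k < j) (hj' : j ≤ D.pre (k + 1)) :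
    ((AA D ∩ PL j).ncard : ℝ) + 2 ^ (D.pre k) =
      (({x | x ∈ PL j ∧ NN (D.θ k) x ≤ D.m k}).ncard : ℝ) + ((AA D ∩ PL (D.pre k)).ncard : ℝ) := by
  have hfin : ∀ (S : Set P) (i : ℕ), (S ∩ PL i).Finite := fun S i => (PL_finite i).subset Set.inter_subset_right
  set S : Set P := {x | x ∈ PL j ∧ NN (D.θ k) x ≤ D.m k} with hS
  have hsub : PL (D.pre k) ⊆ S := by
    intro x hx
    exact ⟨PL_mono hj.le hx, by rw [zero_pre D k hx]; exact Nat.zero_le _⟩
  have hSfin : S.Finite := (PL_finite j).subset (fun x hx => hx.1)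
  have h1 : AA D ∩ PL j = (S \ PL (D.pre k)) ∪ (AA D ∩ PL (D.pre k)) := by
    ext x
    simp only [Set.mem_inter_iff, Set.mem_union, Set.mem_sdiff]
    constructor
    · rintro ⟨hxA, hxj⟩
      by_cases hx : x ∈ PL (D.pre k)
      · exact Or.inr ⟨hxA, hx⟩
      · exact Or.inl ⟨⟨hxj, (mem_shell D k (PL_mono hj' hxj) hx).1 hxA⟩, hx⟩
    · rintro (⟨⟨hxj, hxN⟩, hx⟩ | ⟨hxA, hx⟩)
      · exact ⟨(mem_shell D k (PL_mono hj' hxj) hx).2 hxN, hxj⟩
      · exact ⟨hxA, PL_mono hj.le hx⟩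
  have hdisj : Disjoint (S \ PL (D.pre k)) (AA D ∩ PL (D.pre k)) := by
    rw [Set.disjoint_left]
    rintro x ⟨_, hx⟩ ⟨_, hx'⟩
    exact hx hx'
  rw [h1, Set.ncard_union_eq hdisj (hSfin.subset Set.sdiff_subset) (hfin _ _)]
  have h2 := Set.ncard_sdiff_add_ncard_of_subset hsub hSfin
  rw [PL_ncard] at h2
  have h3 : ((S \ PL (D.pre k)).ncard : ℝ) + 2 ^ (D.pre k) = (S.ncard : ℝ) := by exact_mod_cast h2
  push_cast
  linarith

theorem half_bound (hCNT : SpecCNT) (D : Data B Λ) :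
    ∀ k, ∀ j ≤ D.pre k, (2 : ℝ) ^ j / 2 ≤ ((AA D ∩ PL j).ncard : ℝ) := by
  intro k
  induction k with
  | zero =>
    intro j hj
    rw [D.pre0] at hj
    have hj0 : j = 0 := by omega
    subst hj0
    have hne : (AA D ∩ PL 0).Nonempty := by
      refine ⟨0, ?_, PL_zero 0⟩
      intro k _
      have : NN (D.θ k) 0 = 0 := by
        unfold NN
        simp
      rw [this]; exact Nat.zero_le _
    have hpos : 0 < (AA D ∩ PL 0).ncard :=
      (Set.ncard_pos ((PL_finite 0).subset Set.inter_subset_right)).2 hne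
    have : (1 : ℝ) ≤ ((AA D ∩ PL 0).ncard : ℝ) := by exact_mod_cast hpos
    norm_num
    linarith
  | succ k ih =>
    intro j hj
    rcases Nat.lt_or_ge (D.pre k) j with hlt | hge
    swap
    · exact ih j hge
    have h1 := card_step D k j hlt hj
    have h2 := ih (D.pre k) le_rfl
    have h3 : (2 : ℝ) ^ (D.pre k) ≤ 2 ^ j := pow_le_pow_right₀ (by norm_num) hlt.le
    by_cases hjs : j ≤ D.s k (D.r k)
    · have h4 : {x | x ∈ PL j ∧ NN (D.θ k) x ≤ D.m k} = PL j := by
        ext x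
        constructor
        · rintro ⟨h, _⟩; exact h
        · intro h
          exact ⟨h, by rw [tri_zero (D.tri k) (PL_mono hjs h)]; exact Nat.zero_le _⟩
      rw [h4, PL_ncard] at h1
      push_cast at h1
      linarith
    · have h5 : j ≤ D.l k := by rw [← D.pre1]; exact hj
      have h6 := (hCNT B Λ (D.r k) (D.pre k + D.r k + 1) (D.l k) (D.s k) (D.θ k) (D.tri k) (D.m k)).2 j h5
      have h7 : (2 : ℝ) ^ (D.r k) + 1 ≤ 2 * ((∑ i ∈ range (D.m k + 1), (D.r k).choose i : ℕ) : ℝ) := by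
        have := D.half k
        exact_mod_cast this
      have h8 : (0 : ℝ) < 2 ^ (D.r k) := by positivity
      have h9 : (2 : ℝ) ^ (D.pre k) * 2 ^ (D.r k) ≤ 2 ^ j := by
        rw [← pow_add]
        apply pow_le_pow_right₀ (by norm_num)
        have := (D.tri k).sr
        omega
      have h10 : (2 : ℝ) ^ (D.pre k) ≤ 2 ^ j / 2 ^ (D.r k) := by
        rw [le_div_iff₀ h8]; exact h9
      have h11 : (0 : ℝ) < 2 ^ j / 2 ^ (D.r k) := by positivity
      have h12 : (2 : ℝ) ^ j / 2 ^ (D.r k) * 2 ^ (D.r k) = 2 ^ j := by field_simp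
      nlinarith

theorem dens_ge (hCNT : SpecCNT) (D : Data B Λ) : 1 / 2 ≤ dens (AA D) := by
  unfold dens
  apply le_ciInf
  intro j
  rw [le_div_iff₀ (by positivity)]
  have hj : j ≤ D.pre j := (pre_mono D).id_le j
  have := half_bound hCNT D j j hj
  linarith

theorem densSum_le (hCNT : SpecCNT) (D : Data B Λ) (k : ℕ) :
    densSum (AA D) B ≤ 1 / 2 + 1 / ((k : ℝ) + 1) := by
  have hbdd : BddBelow (Set.range fun l : ℕ =>
      (((AA D ∩ PL l) + (B ∩ PL l)).ncard : ℝ) / 2 ^ l) := by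
    refine ⟨0, ?_⟩
    rintro _ ⟨l, rfl⟩
    positivity
  refine le_trans (ciInf_le hbdd (D.l k)) ?_
  rw [div_le_iff₀ (by positivity)]
  have hsub : (AA D ∩ PL (D.l k)) + (B ∩ PL (D.l k)) ⊆
      {x | x ∈ PL (D.l k) ∧ NN (D.θ k) x ≤ D.m k + Λ} := by
    rintro x ⟨a, ⟨haA, hal⟩, b, ⟨hbB, hbl⟩, rfl⟩
    refine ⟨PL_add hal hbl, ?_⟩
    refine le_trans (NN_add _ _ _) ?_
    exact Nat.add_le_add (haA k hal) ((D.tri k).bd b hbB hbl)
  have hfin : {x | x ∈ PL (D.l k) ∧ NN (D.θ k) x ≤ D.m k + Λ}.Finite :=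
    (PL_finite _).subset (fun x hx => hx.1)
  have h1 : (((AA D ∩ PL (D.l k)) + (B ∩ PL (D.l k))).ncard : ℝ) ≤
      (({x | x ∈ PL (D.l k) ∧ NN (D.θ k) x ≤ D.m k + Λ}).ncard : ℝ) := by
    exact_mod_cast Set.ncard_le_ncard hsub hfin
  refine le_trans h1 ?_
  rw [(hCNT B Λ (D.r k) (D.pre k + D.r k + 1) (D.l k) (D.s k) (D.θ k) (D.tri k) (D.m k + Λ)).1]
  have h2 := D.up k
  have h3 : (0 : ℝ) < 2 ^ (D.r k) := by positivity
  have h4 : (0 : ℝ) < 2 ^ (D.l k) / 2 ^ (D.r k) := by positivity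
  calc (2 : ℝ) ^ (D.l k) / 2 ^ (D.r k) * ((∑ i ∈ range (D.m k + Λ + 1), (D.r k).choose i : ℕ) : ℝ)
      ≤ 2 ^ (D.l k) / 2 ^ (D.r k) * ((1 / 2 + 1 / ((k : ℝ) + 1)) * 2 ^ (D.r k)) :=
        mul_le_mul_of_nonneg_left h2 h4.le
    _ = (1 / 2 + 1 / ((k : ℝ) + 1)) * 2 ^ (D.l k) := by
        field_simp

theorem dens_le_densSum (A : Set P) (hB : (0 : P) ∈ B) : dens A ≤ densSum A B := by
  unfold dens densSum
  apply ciInf_mono
  · refine ⟨0, ?_⟩
    rintro _ ⟨l, rfl⟩
    positivity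
  · intro l
    have hfin : ((A ∩ PL l) + (B ∩ PL l)).Finite :=
      Set.Finite.add ((PL_finite l).subset Set.inter_subset_right)
        ((PL_finite l).subset Set.inter_subset_right)
    have hsub : A ∩ PL l ⊆ (A ∩ PL l) + (B ∩ PL l) := by
      intro x hx
      exact ⟨x, hx, 0, ⟨hB, PL_zero l⟩, add_zero x⟩
    have h1 : ((A ∩ PL l).ncard : ℝ) ≤ (((A ∩ PL l) + (B ∩ PL l)).ncard : ℝ) := by
      exact_mod_cast Set.ncard_le_ncard hsub hfin
    exact div_le_div_of_nonneg_right h1 (by positivity)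

end GLUM

/-- GLU -/
theorem specGLU (hCNT : SpecCNT) (hBIN : SpecBIN) : SpecGLU := by
  intro B Λ hB0 h hess
  obtain ⟨D⟩ := GLUM.data_exists hBIN B Λ h
  have h1 := GLUM.dens_ge hCNT D
  have h2 : densSum (GLUM.AA D) B ≤ 1 / 2 := by
    apply le_of_forall_pos_le_add
    intro ε hε
    obtain ⟨k, hk⟩ := exists_nat_one_div_lt hε
    exact le_trans (GLUM.densSum_le hCNT D k) (by linarith)
  have h3 := GLUM.dens_le_densSum (B := B) (GLUM.AA D) hB0
  have h0 : (0 : Polynomial (ZMod 2)) ∈ GLUM.AA D := by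
    intro k _
    have : NN (D.θ k) 0 = 0 := by
      unfold NN
      simp
    rw [this]; exact Nat.zero_le _
  have h4 := hess (GLUM.AA D) h0 (by linarith) (by linarith)
  linarith

end Pool.Agent.Lib.MPb75bf2.FL
end
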