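import Pool.Agent.Lib.MP_b75bf2_nt.FL.Spec
import Pool.Agent.Lib.MP_b75bf2_nt.FL.Defs2

/-!
# The flag theorem for essential components of `F_2[t]` (MP_b75bf2_nt, folder FL), part 4

THEOREM FLE. Let `B` be an essential component of `F_2[t]` (`EssentialPoly B`, `0 ∈ B`). For all `M` and
`c > 0` there is an `n0` such that `|A + (B ∩ PL n)| > M |A|` for all `n ≥ n0` and all nonempty sets `A` of
polynomials of degree `< n` with `|A| ≤ 2^((1-c) n)`.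

PROOF. Otherwise there are counterexamples `A` for arbitrarily large `n`. By TRI there are a constant `Λ`
and, for all `r` and `L`, a level `l` and additive functions `θ_i : F_2[t] → F_2`, `i < r`, with levels
`l ≥ s_0 ≥ s_1 ≥ ... ≥ s_r ≥ L`, `θ_i` zero on `PL (s_(i+1))` and not zero on `PL (s_i)`, such that
`N(b) ≤ Λ` for all `b ∈ B ∩ PL l`, where `N(x) = #{i : θ_i x ≠ 0}`; so `N(x + b) ≤ N(x) + Λ`. On `PL l` the
function `N` has the binomial distribution `Bin(r, 1/2)`, on `PL j`, `j ≤ l`, the distribution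
`Bin(r', 1/2)`, `r' ≤ r` (CNT); so the set `{N ≤ m}` has the density `≥ D(m) = P(Bin(r, 1/2) ≤ m)` on all
`PL j`, `j ≤ l`, and its sum with `B ∩ PL l` has the density `≤ D(m + Λ)` on `PL l`. Choose `m` with
`D(m) > 1/2`, `D(m + Λ) ≤ 1/2 + δ` (BIN). Glue such sets for `r → ∞` (GLU): a set `A` with `dens A ≥ 1/2` and
`densSum A B ≤ 1/2`, so `B` is not essential.

FORM OF A MODULE: as in `FL/Spec.lean`; the file imports `FL.Spec2`.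
-/

namespace Pool.Agent.Lib.MPb75bf2.FL

open Finset
open scoped Pointwise

/-- **TRI** (size 250, from QEX, LEV, WIN, ENT, KLB, FRK): the linear forms.

PROOF. As in the docstring of `SpecMAIN`: `κ = c/2`, `β = (4/c) log (2M)`, `ε = (κ log 2 / 16)²`, `ρ` a natural
number `> 4 (1 + 4 e^β) / κ` and `≥ 2`, `Λ` a natural number `≥ β / ε`. `n0 ≥ 4/c` and
`≥ 2 (ρ^r + L) / κ`. QEX: `Q`. ENT, FRK, LEV for `D l = l log 2 - (e Q ⊥ - e Q (Vs n l))`, `u = log 2`: a level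
`l ≥ (κ/2) n ≥ ρ^r + L`. `s i = l - ρ^i`; for `i < r` WIN with `t = ρ^i`, `t' = ρ^(i+1)`. For
`b ∈ B ∩ Vset n l`: `θ_i b ≠ 0` implies `K(V_(l-ρ^(i+1)), b) - K(V_(l-ρ^i), b) > ε`, and the sum of these
(nonnegative) numbers is `≤ β` (KLB, telescoping). -/
def SpecTRI : Prop :=
  ∀ M c : ℝ, 1 ≤ M → 0 < c → c ≤ 1 / 2 → ∃ Λ : ℕ, ∀ r L : ℕ, ∃ n0 : ℕ, ∀ n ≥ n0,
    ∀ B : Finset (G n), 0 ∈ B → (∀ x, ∃ k, x ∈ ks B k) → ∀ A : Finset (G n), A.Nonempty →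
    (A.card : ℝ) ≤ (2 : ℝ) ^ ((1 - c) * (n : ℝ)) → ((A + B).card : ℝ) ≤ M * A.card →
    ∃ (l : ℕ) (s : ℕ → ℕ) (θ : Fin r → (G n →ₗ[ZMod 2] ZMod 2)),
      l ≤ n ∧ s 0 ≤ l ∧ L ≤ s r ∧ (∀ i : Fin r, s (i + 1) ≤ s i) ∧
      (∀ i : Fin r, ∀ x ∈ Vset n (s (i + 1)), θ i x = 0) ∧
      (∀ i : Fin r, ∃ x ∈ Vset n (s i), θ i x ≠ 0) ∧
      ∀ b ∈ B ∩ Vset n l, (univ.filter (fun i => θ i b ≠ 0)).card ≤ Λ

/-- The number of the additive functions which do not vanish at `x`. -/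
noncomputable def NN {r : ℕ} (θ : Fin r → (Polynomial (ZMod 2) →+ ZMod 2)) (x : Polynomial (ZMod 2)) : ℕ :=
  (univ.filter (fun i => θ i x ≠ 0)).card

/-- The structure of the theorem TRI for additive functions on the polynomials. -/
structure Tri (B : Set (Polynomial (ZMod 2))) (Λ r L l : ℕ) (s : ℕ → ℕ)
    (θ : Fin r → (Polynomial (ZMod 2) →+ ZMod 2)) : Prop where
  s0 : s 0 ≤ l
  sr : L ≤ s r
  mono : ∀ i : Fin r, s (i + 1) ≤ s i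
  zero : ∀ i : Fin r, ∀ x ∈ PL (s (i + 1)), θ i x = 0
  nz : ∀ i : Fin r, ∃ x ∈ PL (s i), θ i x ≠ 0
  bd : ∀ b ∈ B, b ∈ PL l → NN θ b ≤ Λ

/-- **CNT** (size 200): the distribution of `NN`.

PROOF. `PL j` is an `F_2`-vector space with `2^j` elements. Let `I` be the set of the `i` for which `θ i`
does not vanish on `PL j`, `r' = |I|`. The `θ i`, `i ∈ I`, are linearly independent on `PL j`: for
`i < i'` in `I`, `θ i'` is not zero on `PL (min j (s i'))` (it vanishes on `PL (s (i'+1))`, and if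
`s i' > j` it is not zero on `PL j`) and `θ i` is zero there, as `s i' ≤ s (i+1)`: take a nontrivial
relation `∑_(i ∈ I') θ i = 0` on `PL j`, `i'` the largest member of `I'`, and `x ∈ PL j` with `x ∈ PL (s i')`,
`θ i' x ≠ 0` (if `j ≤ s i'` any `x ∈ PL j` with `θ i' x ≠ 0`): then `θ i x = 0` for the other `i ∈ I'`, a
contradiction. So `PL j → F_2^I` is onto with fibres of `2^(j - r')` elements, and
`#{x ∈ PL j : NN θ x ≤ m} = 2^(j-r') ∑_(i ≤ m) C(r', i)`. For `j = l` all the `θ i` are not zero: (1). For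
`j ≤ l`, `2^(-r') ∑_(i ≤ m) C(r', i) ≥ 2^(-r) ∑_(i ≤ m) C(r, i)` (Pascal: `∑_(i ≤ m) C(r+1, i) =
∑_(i ≤ m) C(r, i) + ∑_(i ≤ m-1) C(r, i) ≤ 2 ∑_(i ≤ m) C(r, i)`): (2). -/
def SpecCNT : Prop :=
  ∀ (B : Set (Polynomial (ZMod 2))) (Λ r L l : ℕ) (s : ℕ → ℕ)
    (θ : Fin r → (Polynomial (ZMod 2) →+ ZMod 2)), Tri B Λ r L l s θ → ∀ m : ℕ,
    (({x | x ∈ PL l ∧ NN θ x ≤ m}).ncard : ℝ) =
      2 ^ l / 2 ^ r * ((∑ i ∈ range (m + 1), r.choose i : ℕ) : ℝ) ∧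
    ∀ j ≤ l, 2 ^ j / 2 ^ r * ((∑ i ∈ range (m + 1), r.choose i : ℕ) : ℝ) ≤
      (({x | x ∈ PL j ∧ NN θ x ≤ m}).ncard : ℝ)

/-- **BIN** (size 120): the binomial distribution.

PROOF. All `C(r, i) ≤ C(r, ⌊r/2⌋)` (`Nat.choose_le_middle`), and `C(r, ⌊r/2⌋) / 2^r → 0`: for `r = 2 n`,
`a_n = C(2n, n) / 4^n` satisfies `a_(n+1) = a_n (2n+1)/(2n+2)`, so `(2n+1) a_n² ≤ 1` by induction
(`(2n+3)(2n+1) ≤ (2n+2)²`); for `r = 2 n + 1`, `C(r, n) / 2^r = a_(n+1)`. Let `m` be the least number with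
`2^r < 2 ∑_(i ≤ m) C(r, i)`; then `∑_(i ≤ m - 1) C(r, i) ≤ 2^r / 2` (empty sum if `m = 0`), so
`∑_(i ≤ m + Λ) C(r, i) ≤ 2^r / 2 + (Λ + 1) C(r, ⌊r/2⌋)`. -/
def SpecBIN : Prop :=
  ∀ (δ : ℝ) (Λ : ℕ), 0 < δ → ∃ r0 : ℕ, ∀ r ≥ r0, ∃ m : ℕ,
    2 ^ r < 2 * ∑ i ∈ range (m + 1), r.choose i ∧
    ((∑ i ∈ range (m + Λ + 1), r.choose i : ℕ) : ℝ) ≤ (1 / 2 + δ) * 2 ^ r

/-- **GLU** (size 250, from CNT, BIN): gluing.

PROOF. For `k : ℕ` choose recursively: `δ_k = 1/(k+1)`, `r_k ≥ 1` and `m_k` from BIN for `δ_k`, `Λ`; `L_k =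
l_(k-1) + r_k + 1` (`l_(-1) = 0`), `l_k, s_k, θ_k` from the hypothesis for `r_k`, `L_k`; `N_k = NN θ_k`. So
`l_(k-1) + r_k + 1 ≤ s_k(r_k) ≤ l_k`, and `N_k = 0` on `PL (s_k(r_k)) ⊇ PL (l_(k-1))`. Let
`A = {x | ∀ k, x ∈ PL (l_k) → N_k x ≤ m_k}`. `0 ∈ A`.
(1) `|A ∩ PL j| ≥ 2^j / 2` for all `j`, by induction on `k` for `j ≤ l_k`. For `l_(k-1) < j ≤ l_k`:
`x ∈ PL j`, `x ∉ PL (l_(k-1))` is in `A` iff `N_k x ≤ m_k` (for `k' > k`, `N_k' x = 0`; for `k' < k`,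
`x ∉ PL (l_k')`). So `|A ∩ PL j| = #{x ∈ PL j : N_k x ≤ m_k} - 2^(l_(k-1)) + |A ∩ PL (l_(k-1))| ≥
#{x ∈ PL j : N_k x ≤ m_k} - 2^(l_(k-1)) / 2` (for `k = 0` without the last terms; note `0 ∈ A`). If
`j ≤ s_k(r_k)` the first number is `2^j`. Otherwise `j ≥ l_(k-1) + r_k + 1` and by CNT, BIN the first number
is `≥ 2^j / 2^r (2^r + 1)/2 = 2^j/2 + 2^(j-r)/2 ≥ 2^j/2 + 2^(l_(k-1))/2`.
(2) `(A ∩ PL l_k) + (B ∩ PL l_k) ⊆ {x ∈ PL l_k : N_k x ≤ m_k + Λ}` (`N_k (a + b) ≤ N_k a + N_k b`), so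
`densSum A B ≤ 2^(-r) ∑_(i ≤ m+Λ) C(r, i) ≤ 1/2 + δ_k` for all `k`: `densSum A B ≤ 1/2`. As `0 ∈ B`,
`A ∩ PL l ⊆ (A ∩ PL l) + (B ∩ PL l)`, so `dens A ≤ densSum A B ≤ 1/2 < 1`, and `dens A ≥ 1/2` by (1):
`dens A < densSum A B` is false. (`ciInf_le` with the lower bound `0`, `le_ciInf`.) -/
def SpecGLU : Prop :=
  ∀ (B : Set (Polynomial (ZMod 2))) (Λ : ℕ), 0 ∈ B →
    (∀ r L : ℕ, ∃ (l : ℕ) (s : ℕ → ℕ) (θ : Fin r → (Polynomial (ZMod 2) →+ ZMod 2)),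
      Tri B Λ r L l s θ) → ¬ EssentialPoly B

/-- The coefficient vector of a polynomial. -/
noncomputable def co (n : ℕ) (p : Polynomial (ZMod 2)) : G n := fun i => p.coeff i

/-- **TRF** (size 150): transfer between `PL n` and `G n`.

PROOF. `co n` is additive; `p ∈ PL l` iff `p.coeff i = 0` for all `i ≥ l`; the inverse of `co n` on `PL n` is
`x ↦ ∑ i, monomial i (x i)`. (4): `|A + B| = |co(A) + co(B)|` because `A + B ⊆ PL n`. -/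
def SpecTRF : Prop :=
  ∀ n : ℕ, (∀ p q, co n (p + q) = co n p + co n q) ∧ Set.InjOn (co n) (PL n) ∧
    (∀ l ≤ n, ∀ x ∈ Vset n l, ∃ p ∈ PL l, co n p = x) ∧
    (∀ l ≤ n, ∀ p ∈ PL l, co n p ∈ Vset n l) ∧ (∀ l ≤ n, PL l ⊆ PL n) ∧
    ∀ l : ℕ, (PL l).Finite ∧ (PL l).ncard = 2 ^ l

/-- **EGN** (size 150, from TRF): the part of an essential component in `PL n` generates.

PROOF. Suppose the subgroup `H` of `G n` generated by `co n (B ∩ PL n)` (the set of all `x` in some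
`ks B' k`) is not `G n`. There is a linear form `φ ≠ 0` which vanishes on `H`. Let `A` be the set of the `p`
with `p ∉ PL n` or `φ (co n p) = 0`. `0 ∈ A`. For `j ≤ n`: `A ∩ PL j` is a subgroup of `PL j` of index `≤ 2`; for
`j > n`: `A ∩ PL j ⊇ PL j - PL n` has at least `2^j / 2` elements. For `j = n`: exactly `2^n / 2` elements,
and `(A ∩ PL n) + (B ∩ PL n) ⊆ A ∩ PL n`. So `dens A = 1/2 = densSum A B` (`densSum ≤` the value at `n`,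
`dens A ≥ 1/2`), a contradiction. -/
def SpecEGN : Prop :=
  ∀ B : Set (Polynomial (ZMod 2)), 0 ∈ B → EssentialPoly B → ∀ (n : ℕ) (B' : Finset (G n)),
    (∀ x, x ∈ B' ↔ ∃ p ∈ B, p ∈ PL n ∧ co n p = x) → ∀ x, ∃ k, x ∈ ks B' k

/-- **FLE** (size 150, from TRI, GLU, TRF, EGN): the theorem.

PROOF. Replace `M` by `max M 1` and `c` by `min c (1/2)`. Suppose that for every `n0` there are `n ≥ n0` and `A`
with `|A + (B ∩ PL n)| ≤ M |A|`. Let `Λ` be the constant of TRI. For `r`, `L` take `n0` from TRI, `n` and `A`,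
`A' = co n (A)`, `B' = co n (B ∩ PL n)` (finite sets, `|A'| = |A|`, `|A' + B'| = |A + (B ∩ PL n)|` by TRF),
`0 ∈ B'`, `B'` generates (EGN). TRI: `l, s, θ`; the additive functions `θ_i ∘ co n` satisfy `Tri`. So
`¬ EssentialPoly B` by GLU. -/
def SpecFLE : Prop :=
  ∀ B : Set (Polynomial (ZMod 2)), 0 ∈ B → EssentialPoly B → ∀ M c : ℝ, 0 < c →
    ∃ n0 : ℕ, ∀ n ≥ n0, ∀ A : Set (Polynomial (ZMod 2)), A ⊆ PL n → A.Nonempty →
      (A.ncard : ℝ) ≤ (2 : ℝ) ^ ((1 - c) * (n : ℝ)) →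
      M * (A.ncard : ℝ) < ((A + (B ∩ PL n)).ncard : ℝ)

end Pool.Agent.Lib.MPb75bf2.FL
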