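import Pool.Agent.Lib.MP_b75bf2_nt.FL.Spec

section
/-!
# The flag theorem (MP_b75bf2_nt, folder FL): module ENT, entropies of cosets
-/
namespace Pool.Agent.Lib.MPb75bf2.FL

open Finset

namespace ENTM

variable {n : ℕ}

open Classical in
/-- The finite set of the elements of a subspace. -/
noncomputable def fs (W : Submodule (ZMod 2) (G n)) : Finset (G n) := univ.filter fun x => x ∈ W

theorem mem_fs {W : Submodule (ZMod 2) (G n)} {x : G n} : x ∈ fs W ↔ x ∈ W := by
  simp [fs]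

theorem card_fs (W : Submodule (ZMod 2) (G n)) : ((fs W).card : ℝ) = (Nat.card W : ℝ) := by
  classical
  have h : Nat.card W = (fs W).card := by
    rw [Nat.card_eq_fintype_card, Fintype.card_subtype]
    unfold fs
    congr
  rw [h]

theorem card_pos' (W : Submodule (ZMod 2) (G n)) : (0 : ℝ) < (Nat.card W : ℝ) := by
  rw [← card_fs]
  have : 0 < (fs W).card := Finset.card_pos.2 ⟨0, mem_fs.2 W.zero_mem⟩
  exact_mod_cast this

theorem cell_eq (Q : G n → ℝ) (W : Submodule (ZMod 2) (G n)) (g : G n) :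
    cell Q (cl W) g = ∑ h ∈ fs W, Q (g + h) := by
  classical
  unfold cell
  refine Finset.sum_nbij' (fun x => x - g) (fun h => g + h) ?_ ?_ ?_ ?_ ?_
  · intro x hx
    rw [Finset.mem_filter] at hx
    exact mem_fs.2 ((Submodule.Quotient.eq W).1 hx.2)
  · intro h hh
    rw [Finset.mem_filter]
    refine ⟨Finset.mem_univ _, (Submodule.Quotient.eq W).2 ?_⟩
    rw [add_sub_cancel_left]
    exact mem_fs.1 hh
  · intro x _
    simp
  · intro h _
    simp
  · intro x _
    simp

/-- Invariance of a sum over a subspace. -/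
theorem sum_shift (W : Submodule (ZMod 2) (G n)) (F : G n → ℝ) {v : G n} (hv : v ∈ W) :
    ∑ h ∈ fs W, F (h + v) = ∑ h ∈ fs W, F h := by
  refine Finset.sum_nbij' (fun x => x + v) (fun x => x - v) ?_ ?_ ?_ ?_ ?_
  · intro x hx
    exact mem_fs.2 (W.add_mem (mem_fs.1 hx) hv)
  · intro x hx
    exact mem_fs.2 (W.sub_mem (mem_fs.1 hx) hv)
  · intro x _
    simp
  · intro x _
    simp
  · intro x _
    rfl

theorem cell_shift (Q : G n → ℝ) (W : Submodule (ZMod 2) (G n)) (g : G n) {v : G n} (hv : v ∈ W) :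
    cell Q (cl W) (g + v) = cell Q (cl W) g := by
  rw [cell_eq, cell_eq, ← sum_shift W (fun h => Q (g + h)) hv]
  refine Finset.sum_congr rfl fun h _ => ?_
  congr 1
  abel

theorem cell_pos {Q : G n → ℝ} (hQ : ∀ g, 0 < Q g) (W : Submodule (ZMod 2) (G n)) (g : G n) :
    0 < cell Q (cl W) g := by
  rw [cell_eq]
  exact Finset.sum_pos (fun h _ => hQ _) ⟨0, mem_fs.2 W.zero_mem⟩

theorem cell_mono {Q : G n → ℝ} (hQ : ∀ g, 0 < Q g) {W W' : Submodule (ZMod 2) (G n)}
    (hW : W ≤ W') (g : G n) : cell Q (cl W) g ≤ cell Q (cl W') g := by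
  rw [cell_eq, cell_eq]
  exact Finset.sum_le_sum_of_subset_of_nonneg (fun x hx => mem_fs.2 (hW (mem_fs.1 hx)))
    fun h _ _ => (hQ _).le

/-- The mean over the cosets. -/
theorem sum_cell_mul (Q F : G n → ℝ) (W : Submodule (ZMod 2) (G n))
    (hF : ∀ g, ∀ v ∈ W, F (g + v) = F g) :
    ∑ g, cell Q (cl W) g * F g = (Nat.card W : ℝ) * ∑ g, Q g * F g := by
  have h1 : ∀ g, cell Q (cl W) g * F g = ∑ h ∈ fs W, Q (g + h) * F (g + h) := by
    intro g
    rw [cell_eq, Finset.sum_mul]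
    refine Finset.sum_congr rfl fun h hh => ?_
    rw [hF g h (mem_fs.1 hh)]
  have h2 : ∀ h : G n, ∑ g, Q (g + h) * F (g + h) = ∑ g, Q g * F g := by
    intro h
    exact Fintype.sum_equiv (Equiv.addRight h) _ _ (fun g => rfl)
  rw [Finset.sum_congr rfl fun g _ => h1 g, Finset.sum_comm,
    Finset.sum_congr rfl fun h _ => h2 h, Finset.sum_const, nsmul_eq_mul, card_fs]

theorem card_eq (W : Submodule (ZMod 2) (G n)) :
    (Nat.card W : ℝ) = (2 : ℝ) ^ (Module.finrank (ZMod 2) W) := by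
  have h : Nat.card W = Nat.card (ZMod 2) ^ Module.finrank (ZMod 2) W :=
    Module.natCard_eq_pow_finrank
  rw [h, Nat.card_zmod]
  push_cast
  rfl

theorem log_card (W : Submodule (ZMod 2) (G n)) :
    Real.log (Nat.card W : ℝ) = (Module.finrank (ZMod 2) W : ℝ) * Real.log 2 := by
  rw [card_eq, Real.log_pow]

/-- Gibbs: the entropy of a coset within a coarser coset. -/
theorem ent_le {Q : G n → ℝ} (hQ : Law Q) {W W' : Submodule (ZMod 2) (G n)} (hW : W ≤ W') :
    e Q W ≤ e Q W' + (Real.log (Nat.card W' : ℝ) - Real.log (Nat.card W : ℝ)) := by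
  have hc := card_pos' W
  have hc' := card_pos' W'
  set F : G n → ℝ := fun g => cell Q (cl W') g / cell Q (cl W) g with hF
  have hinv : ∀ g, ∀ v ∈ W, F (g + v) = F g := by
    intro g v hv
    show cell Q (cl W') (g + v) / cell Q (cl W) (g + v) = _
    rw [cell_shift Q W g hv, cell_shift Q W' g (hW hv)]
  have h1 : ∑ g, Q g * F g = (Nat.card W' : ℝ) / (Nat.card W : ℝ) := by
    have h2 := sum_cell_mul Q F W hinv
    have h3 : ∑ g, cell Q (cl W) g * F g = ∑ g, cell Q (cl W') g * 1 := by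
      refine Finset.sum_congr rfl fun g _ => ?_
      have := (cell_pos hQ.pos W g).ne'
      rw [hF]
      field_simp
    have h4 := sum_cell_mul Q (fun _ => 1) W' (fun _ _ _ => rfl)
    rw [h3, h4] at h2
    simp only [mul_one, hQ.sum] at h2
    rw [h2]
    field_simp
  have hpt : ∀ g, Real.log (cell Q (cl W') g) - Real.log (cell Q (cl W) g) ≤
      F g * ((Nat.card W : ℝ) / (Nat.card W' : ℝ)) - 1 +
        (Real.log (Nat.card W' : ℝ) - Real.log (Nat.card W : ℝ)) := by
    intro g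
    have hp := cell_pos hQ.pos W g
    have hp' := cell_pos hQ.pos W' g
    have h5 := Real.log_le_sub_one_of_pos
      (show 0 < F g * ((Nat.card W : ℝ) / (Nat.card W' : ℝ)) from
        mul_pos (div_pos hp' hp) (div_pos hc hc'))
    rw [Real.log_mul (div_pos hp' hp).ne' (div_pos hc hc').ne', Real.log_div hc.ne' hc'.ne'] at h5
    have h6 : Real.log (F g) = Real.log (cell Q (cl W') g) - Real.log (cell Q (cl W) g) :=
      Real.log_div hp'.ne' hp.ne'
    rw [h6] at h5
    linarith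
  have hsum : ∑ g, Q g * (Real.log (cell Q (cl W') g) - Real.log (cell Q (cl W) g)) ≤
      ∑ g, Q g * (F g * ((Nat.card W : ℝ) / (Nat.card W' : ℝ)) - 1 +
        (Real.log (Nat.card W' : ℝ) - Real.log (Nat.card W : ℝ))) :=
    Finset.sum_le_sum fun g _ => mul_le_mul_of_nonneg_left (hpt g) (hQ.pos g).le
  have hr : ∑ g, Q g * (F g * ((Nat.card W : ℝ) / (Nat.card W' : ℝ)) - 1 +
        (Real.log (Nat.card W' : ℝ) - Real.log (Nat.card W : ℝ))) =
      Real.log (Nat.card W' : ℝ) - Real.log (Nat.card W : ℝ) := by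
    have h7 : ∀ g, Q g * (F g * ((Nat.card W : ℝ) / (Nat.card W' : ℝ)) - 1 +
        (Real.log (Nat.card W' : ℝ) - Real.log (Nat.card W : ℝ))) =
        ((Nat.card W : ℝ) / (Nat.card W' : ℝ)) * (Q g * F g) +
        (Real.log (Nat.card W' : ℝ) - Real.log (Nat.card W : ℝ) - 1) * Q g := by
      intro g
      ring
    rw [Finset.sum_congr rfl fun g _ => h7 g, Finset.sum_add_distrib, ← Finset.mul_sum,
      ← Finset.mul_sum, h1, hQ.sum]
    field_simp
    ring
  have hl : ∑ g, Q g * (Real.log (cell Q (cl W') g) - Real.log (cell Q (cl W) g)) =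
      e Q W - e Q W' := by
    unfold e ent
    rw [Finset.sum_congr rfl fun g _ => mul_sub (Q g) _ _, Finset.sum_sub_distrib]
    ring
  rw [hr, hl] at hsum
  linarith

end ENTM

open ENTM in
theorem specENT : SpecENT := by
  intro n Q hQ
  refine ⟨fun W W' hW => ?_, fun W W' hW => ?_, ?_, ?_⟩
  · unfold e ent
    refine neg_le_neg (Finset.sum_le_sum fun g _ => mul_le_mul_of_nonneg_left ?_ (hQ.pos g).le)
    exact Real.log_le_log (cell_pos hQ.pos W g) (cell_mono hQ.pos hW g)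
  · have h := ent_le hQ hW
    rw [log_card, log_card] at h
    rw [sub_mul]
    exact h
  · unfold e ent
    have h : ∀ g, cell Q (cl (⊤ : Submodule (ZMod 2) (G n))) g = 1 := by
      intro g
      rw [cell_eq, ← hQ.sum]
      have hf : fs (⊤ : Submodule (ZMod 2) (G n)) = univ := by
        ext x
        simp [mem_fs]
      rw [hf]
      exact Fintype.sum_equiv (Equiv.addLeft g) _ _ (fun x => rfl)
    simp [h]
  · unfold e ent
    have h : ∀ g, cell Q (cl (⊥ : Submodule (ZMod 2) (G n))) g = Q g := by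
      intro g
      rw [cell_eq]
      have hf : fs (⊥ : Submodule (ZMod 2) (G n)) = {0} := by
        ext x
        simp [mem_fs]
      rw [hf]
      simp
    simp [h]

end Pool.Agent.Lib.MPb75bf2.FL
end

section
/-!
# FRK: the flag (dimensions and cardinalities)
-/
namespace Pool.Agent.Lib.MPb75bf2.FL

open Finset
open scoped Pointwise

namespace FRKM

/-- The coordinates `< l`. -/
noncomputable def eqv (n l : ℕ) (h : l ≤ n) : Vs n l ≃ₗ[ZMod 2] (Fin l → ZMod 2) where
  toFun x := fun i => x.1 (Fin.castLE h i)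
  map_add' x y := by
    funext i
    rfl
  map_smul' c x := by
    funext i
    rfl
  invFun y := ⟨fun i => if hi : (i : ℕ) < l then y ⟨i, hi⟩ else 0, by
    rw [← mem_Vset_iff]
    simp only [Vset, mem_filter, mem_univ, true_and]
    intro i hi
    rw [dif_neg (by omega)]⟩
  left_inv x := by
    apply Subtype.ext
    funext i
    have hx := (mem_Vset_iff l x.1).2 x.2
    simp only [Vset, mem_filter, mem_univ, true_and] at hx
    by_cases hi : (i : ℕ) < l
    · simp only [dif_pos hi]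
      rfl
    · simp only [dif_neg hi]
      exact (hx i (by omega)).symm
  right_inv y := by
    funext i
    simp

theorem finrank_Vs (n l : ℕ) (h : l ≤ n) : Module.finrank (ZMod 2) (Vs n l) = l := by
  rw [(eqv n l h).finrank_eq, Module.finrank_fin_fun]

theorem card_Vset (n l : ℕ) (h : l ≤ n) : (Vset n l).card = 2 ^ l := by
  classical
  have : Fintype (Vs n l) := Fintype.ofEquiv _ (eqv n l h).toEquiv.symm
  have h1 : (Vset n l).card = Fintype.card (Vs n l) := by
    rw [← Fintype.card_coe]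
    exact Fintype.card_congr (Equiv.subtypeEquivRight (mem_Vset_iff l))
  rw [h1, Fintype.card_congr (eqv n l h).toEquiv]
  simp

end FRKM

theorem specFRK : SpecFRK := by
  intro n
  refine ⟨fun l hl => ⟨FRKM.finrank_Vs n l hl, FRKM.card_Vset n l hl⟩, ?_, ?_, ?_⟩
  · intro l l' h x hx
    rw [← mem_Vset_iff] at hx ⊢
    simp only [Vset, mem_filter, mem_univ, true_and] at hx ⊢
    intro i hi
    exact hx i (le_trans h hi)
  · rw [eq_top_iff]
    intro x _
    rw [← mem_Vset_iff]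
    simp only [Vset, mem_filter, mem_univ, true_and]
    intro i hi
    exact absurd i.2 (by omega)
  · rw [eq_bot_iff]
    intro x hx
    rw [← mem_Vset_iff] at hx
    simp only [Vset, mem_filter, mem_univ, true_and] at hx
    rw [Submodule.mem_bot]
    funext i
    exact hx i (Nat.zero_le _)

end Pool.Agent.Lib.MPb75bf2.FL
end

section
/-!
# Module KLB (MP_b75bf2_nt, folder FL): relative entropies
-/
set_option autoImplicit false

namespace Pool.Agent.Lib.MPb75bf2.FL

open Finset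
open scoped Pointwise

namespace KLBM

variable {n : ℕ}

theorem cl_eq {W : Submodule (ZMod 2) (G n)} {x y : G n} : cl W x = cl W y ↔ x - y ∈ W :=
  Submodule.Quotient.eq W

theorem cell_congr (Q : G n → ℝ) {W : Submodule (ZMod 2) (G n)} {x y : G n}
    (h : cl W x = cl W y) : cell Q (cl W) x = cell Q (cl W) y := by
  unfold cell
  rw [h]

open Classical in
theorem cell_pos {Q : G n → ℝ} (hQ : Law Q) (W : Submodule (ZMod 2) (G n)) (x : G n) :
    0 < cell Q (cl W) x := by
  unfold cell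
  refine Finset.sum_pos (fun g _ => hQ.pos g) ⟨x, ?_⟩
  rw [Finset.mem_filter]
  exact ⟨Finset.mem_univ _, rfl⟩

theorem self_add (b : G n) : b + b = 0 := by
  funext i
  show b i + b i = 0
  exact CharTwo.add_self_eq_zero (b i)

open Classical in
theorem cell_shift (Q : G n → ℝ) (W : Submodule (ZMod 2) (G n)) (b x : G n) :
    cell (fun g => Q (g + b)) (cl W) x = cell Q (cl W) (x + b) := by
  unfold cell
  refine Finset.sum_nbij' (fun g => g + b) (fun g => g + b) ?_ ?_ ?_ ?_ ?_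
  · intro g hg
    rw [Finset.mem_filter] at hg ⊢
    refine ⟨Finset.mem_univ _, ?_⟩
    rw [cl_eq] at hg ⊢
    rw [show g + b - (x + b) = g - x by abel]
    exact hg.2
  · intro g hg
    rw [Finset.mem_filter] at hg ⊢
    refine ⟨Finset.mem_univ _, ?_⟩
    rw [cl_eq] at hg ⊢
    rw [show g + b - x = g - (x + b) + (b + b) by abel, self_add, add_zero]
    exact hg.2
  · intro g _
    rw [add_assoc, self_add, add_zero]
  · intro g _
    rw [add_assoc, self_add, add_zero]
  · intro g _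
    rfl

open Classical in
/-- the number of elements of `W` -/
noncomputable def cnt (W : Submodule (ZMod 2) (G n)) : ℝ :=
  ((univ.filter fun g : G n => cl W g = cl W 0).card : ℝ)

open Classical in
theorem card_coset (W : Submodule (ZMod 2) (G n)) (x : G n) :
    (((univ.filter fun g : G n => cl W x = cl W g).card : ℕ) : ℝ) = cnt W := by
  unfold cnt
  congr 1
  refine Finset.card_nbij' (fun g => g - x) (fun g => g + x) ?_ ?_ ?_ ?_
  · intro g hg
    rw [Finset.mem_coe, Finset.mem_filter] at hg ⊢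
    refine ⟨Finset.mem_univ _, ?_⟩
    have h := hg.2.symm
    rw [cl_eq] at h ⊢
    rwa [sub_zero]
  · intro g hg
    rw [Finset.mem_coe, Finset.mem_filter] at hg ⊢
    refine ⟨Finset.mem_univ _, ?_⟩
    have h := hg.2
    symm
    rw [cl_eq] at h ⊢
    rw [sub_zero] at h
    rwa [add_sub_cancel_right]
  · intro g _
    exact sub_add_cancel g x
  · intro g _
    exact add_sub_cancel_right g x

open Classical in
theorem cnt_pos (W : Submodule (ZMod 2) (G n)) : 0 < cnt W := by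
  unfold cnt
  rw [Nat.cast_pos, Finset.card_pos]
  refine ⟨0, ?_⟩
  rw [Finset.mem_filter]
  exact ⟨Finset.mem_univ _, rfl⟩

open Classical in
/-- the averages over the cosets of `W` -/
theorem avg (Q F : G n → ℝ) (W : Submodule (ZMod 2) (G n))
    (hF : ∀ x y, cl W x = cl W y → F x = F y) :
    ∑ g, cell Q (cl W) g * F g = cnt W * ∑ g, Q g * F g := by
  have h1 : ∀ g, cell Q (cl W) g * F g = ∑ g', if cl W g' = cl W g then Q g' * F g' else 0 := by
    intro g
    unfold cell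
    rw [Finset.sum_filter, Finset.sum_mul]
    refine Finset.sum_congr rfl fun g' _ => ?_
    split_ifs with h
    · rw [hF g' g h]
    · rw [zero_mul]
  rw [Finset.sum_congr rfl fun g _ => h1 g, Finset.sum_comm, Finset.mul_sum]
  refine Finset.sum_congr rfl fun g' _ => ?_
  rw [← Finset.sum_filter, Finset.sum_const, nsmul_eq_mul, card_coset]

theorem gibbs {Q : G n → ℝ} (hQ : Law Q) (b : G n) {W L : Submodule (ZMod 2) (G n)}
    (hWL : W ≤ L) : K Q L b ≤ K Q W b := by
  have hcl : ∀ x y : G n, cl W x = cl W y → cl L x = cl L y := by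
    intro x y h
    rw [cl_eq] at h ⊢
    exact hWL h
  have hb : ∀ (V : Submodule (ZMod 2) (G n)) (x y : G n), cl V x = cl V y →
      cl V (x + b) = cl V (y + b) := by
    intro V x y h
    rw [cl_eq] at h ⊢
    rwa [add_sub_add_right_eq_sub]
  have hb2 : ∀ x : G n, x + b + b = x := fun x => by rw [add_assoc, self_add, add_zero]
  -- the sum of the quotients
  have h1 : cnt W * ∑ g, Q g * (cell Q (cl W) (g + b) * cell Q (cl L) g /
      (cell Q (cl W) g * cell Q (cl L) (g + b))) =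
      ∑ g, cell Q (cl W) (g + b) * cell Q (cl L) g / cell Q (cl L) (g + b) := by
    rw [← avg Q _ W]
    · refine Finset.sum_congr rfl fun g _ => ?_
      have a1 := (cell_pos hQ W g).ne'
      have a2 := (cell_pos hQ L (g + b)).ne'
      field_simp
    · intro x y h
      rw [cell_congr Q h, cell_congr Q (hcl x y h), cell_congr Q (hb W x y h),
        cell_congr Q (hcl _ _ (hb W x y h))]
  have h2 : ∑ g, cell Q (cl W) (g + b) * cell Q (cl L) g / cell Q (cl L) (g + b) =
      ∑ g, cell Q (cl W) g * (cell Q (cl L) (g + b) / cell Q (cl L) g) := by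
    refine Fintype.sum_equiv (Equiv.addRight b) _ _ fun g => ?_
    show _ = cell Q (cl W) (g + b) * (cell Q (cl L) (g + b + b) / cell Q (cl L) (g + b))
    rw [hb2, mul_div_assoc]
  have h3 : ∑ g, cell Q (cl W) g * (cell Q (cl L) (g + b) / cell Q (cl L) g) =
      cnt W * ∑ g, Q g * (cell Q (cl L) (g + b) / cell Q (cl L) g) := by
    refine avg Q _ W fun x y h => ?_
    rw [cell_congr Q (hcl x y h), cell_congr Q (hcl _ _ (hb W x y h))]
  have h4 : cnt L * ∑ g, Q g * (cell Q (cl L) (g + b) / cell Q (cl L) g) = cnt L := by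
    rw [← avg Q _ L]
    · have h5 : ∀ g, cell Q (cl L) g * (cell Q (cl L) (g + b) / cell Q (cl L) g) =
          cell Q (cl L) (g + b) := fun g => by
        have a1 := (cell_pos hQ L g).ne'
        field_simp
      rw [Finset.sum_congr rfl fun g _ => h5 g]
      have h6 : ∑ g, cell Q (cl L) (g + b) = ∑ g, cell Q (cl L) g * 1 := by
        refine Fintype.sum_equiv (Equiv.addRight b) _ _ fun g => ?_
        show _ = cell Q (cl L) (g + b) * 1
        rw [mul_one]
      rw [h6, avg Q (fun _ => 1) L fun _ _ _ => rfl]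
      simp only [mul_one]
      rw [hQ.sum, mul_one]
    · intro x y h
      rw [cell_congr Q h, cell_congr Q (hb L x y h)]
  have h5 : ∑ g, Q g * (cell Q (cl L) (g + b) / cell Q (cl L) g) = 1 := by
    have := (cnt_pos L).ne'
    exact mul_left_cancel₀ this (by rw [h4, mul_one])
  have h6 : ∑ g, Q g * (cell Q (cl W) (g + b) * cell Q (cl L) g /
      (cell Q (cl W) g * cell Q (cl L) (g + b))) = 1 := by
    have := (cnt_pos W).ne'
    exact mul_left_cancel₀ this (by rw [h1, h2, h3, h5])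
  have h7 : 0 ≤ ∑ g, Q g * (1 - cell Q (cl W) (g + b) * cell Q (cl L) g /
      (cell Q (cl W) g * cell Q (cl L) (g + b))) := by
    simp only [mul_sub, mul_one]
    rw [Finset.sum_sub_distrib, hQ.sum, h6, sub_self]
  have h8 : ∑ g, Q g * (1 - cell Q (cl W) (g + b) * cell Q (cl L) g /
      (cell Q (cl W) g * cell Q (cl L) (g + b))) ≤ K Q W b - K Q L b := by
    unfold K
    rw [← Finset.sum_sub_distrib]
    refine Finset.sum_le_sum fun g _ => ?_
    rw [← mul_sub]
    refine mul_le_mul_of_nonneg_left ?_ (hQ.pos g).le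
    have p1 := cell_pos hQ W g
    have p2 := cell_pos hQ W (g + b)
    have p3 := cell_pos hQ L g
    have p4 := cell_pos hQ L (g + b)
    have hl := Real.log_le_sub_one_of_pos (div_pos (mul_pos p2 p3) (mul_pos p1 p4))
    rw [Real.log_div (mul_pos p2 p3).ne' (mul_pos p1 p4).ne', Real.log_mul p2.ne' p3.ne',
      Real.log_mul p1.ne' p4.ne'] at hl
    linarith
  linarith

end KLBM

/-- **KLB**: relative entropies. -/
theorem specKLB : SpecKLB := by
  intro n Q b β hQ hb
  have h3 : ∀ W, 0 ≤ K Q W b := by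
    intro W
    have h1 := KLBM.gibbs hQ b (W := W) (L := ⊤) le_top
    have h2 : K Q ⊤ b = 0 := by
      unfold K
      refine Finset.sum_eq_zero fun g _ => ?_
      have h : cl (⊤ : Submodule (ZMod 2) (G n)) g = cl ⊤ (g + b) := by
        rw [KLBM.cl_eq]
        exact Submodule.mem_top
      rw [KLBM.cell_congr Q h, sub_self, mul_zero]
    rwa [h2] at h1
  refine ⟨fun W => ?_, fun W L h => KLBM.gibbs hQ b h, h3⟩
  have key : ∀ g, Real.log (cell Q (cl W) g) - Real.log (cell Q (cl W) (g + b)) ≤ β := by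
    intro g
    have p1 := KLBM.cell_pos hQ W g
    have p2 := KLBM.cell_pos hQ W (g + b)
    have h1 : cell Q (cl W) g ≤ Real.exp β * cell Q (cl W) (g + b) := by
      rw [← KLBM.cell_shift]
      unfold cell
      rw [Finset.mul_sum]
      refine Finset.sum_le_sum fun g' _ => ?_
      have h := hb (g' + b)
      rwa [add_assoc, KLBM.self_add, add_zero] at h
    have h2 := Real.log_le_log p1 h1
    rw [Real.log_mul (Real.exp_pos β).ne' p2.ne', Real.log_exp] at h2
    linarith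
  calc K Q W b ≤ ∑ g, Q g * β := by
        unfold K
        exact Finset.sum_le_sum fun g _ => mul_le_mul_of_nonneg_left (key g) (hQ.pos g).le
    _ = β := by rw [← Finset.sum_mul, hQ.sum, one_mul]

end Pool.Agent.Lib.MPb75bf2.FL
end

section
/-!
# Module LEV (MP_b75bf2_nt, folder FL): the level
-/
namespace Pool.Agent.Lib.MPb75bf2.FL

theorem specLEV : SpecLEV := by
  intro n D κ u hu hκ h0 hstep hn
  obtain ⟨l, hl, hmax⟩ := Finset.exists_max_image (Finset.range (n + 1))
    (fun l : ℕ => D l - κ / 2 * (l : ℝ) * u) ⟨0, by simp⟩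
  rw [Finset.mem_range] at hl
  have hln : l ≤ n := by omega
  have hDl : ∀ k ≤ n, D k ≤ (k : ℝ) * u := by
    intro k
    induction k with
    | zero => intro _; rw [h0]; simp
    | succ k ih =>
      intro hk
      have h1 := ih (by omega)
      have h2 := hstep k (by omega)
      push_cast
      nlinarith
  refine ⟨l, hln, ?_, ?_⟩
  · have h1 := hmax n (by simp)
    have h2 := hDl l hln
    have hl0 : (0 : ℝ) ≤ (l : ℝ) := Nat.cast_nonneg l
    have h3 : 0 ≤ κ / 2 * (l : ℝ) * u := by positivity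
    have h4 : κ / 2 * (n : ℝ) * u ≤ (l : ℝ) * u := by
      nlinarith
    exact le_of_mul_le_mul_right h4 hu
  · intro t ht
    have h1 := hmax (l - t) (by rw [Finset.mem_range]; omega)
    rw [Nat.cast_sub ht] at h1
    nlinarith

end Pool.Agent.Lib.MPb75bf2.FL
end

section
/-!
# The flag theorem: module QEX, the law `Q`
-/
namespace Pool.Agent.Lib.MPb75bf2.FL

open Finset
open scoped Pointwise

namespace QEXM

theorem ks_eq {n : ℕ} (B : Finset (G n)) (k : ℕ) : ks B k = k • B := by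
  induction k with
  | zero => rw [zero_nsmul]; rfl
  | succ k ih => rw [ks, ih, succ_nsmul]

/-- Pluennecke - Ruzsa. -/
theorem card_ks_le {n : ℕ} (A B : Finset (G n)) (M : ℝ) (hA : A.Nonempty)
    (hAB : ((A + B).card : ℝ) ≤ M * A.card) (k : ℕ) :
    ((ks B k).card : ℝ) ≤ M ^ k * A.card := by
  have h := Finset.pluennecke_ruzsa_inequality_nsmul_add hA B k
  rw [← ks_eq] at h
  have hpos : (0 : ℝ) < A.card := by exact_mod_cast hA.card_pos
  have h1 : ((ks B k).card : ℝ) ≤ (((A + B).card : ℝ) / A.card) ^ k * A.card := by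
    have h2 := (NNRat.cast_le (K := ℝ)).2 h
    push_cast at h2
    exact h2
  refine h1.trans ?_
  have h2 : ((A + B).card : ℝ) / A.card ≤ M := by
    rw [div_le_iff₀ hpos]
    exact hAB
  gcongr

/-- Gibbs' inequality. -/
theorem gibbs {α : Type} [Fintype α] (Q R : α → ℝ) (hQ : ∀ x, 0 < Q x) (hQ1 : ∑ x, Q x = 1)
    (hR : ∀ x, 0 < R x) (hR1 : ∑ x, R x ≤ 1) :
    -∑ x, Q x * Real.log (Q x) ≤ -∑ x, Q x * Real.log (R x) := by
  have h : ∑ x, (Q x * Real.log (R x) - Q x * Real.log (Q x)) ≤ ∑ x, (R x - Q x) := by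
    refine Finset.sum_le_sum fun x _ => ?_
    have h1 := Real.log_le_sub_one_of_pos (div_pos (hR x) (hQ x))
    rw [Real.log_div (hR x).ne' (hQ x).ne'] at h1
    have h2 := mul_le_mul_of_nonneg_left h1 (hQ x).le
    have h3 : Q x * (R x / Q x - 1) = R x - Q x := by
      have := (hQ x).ne'
      field_simp
    rw [h3] at h2
    linarith
  rw [Finset.sum_sub_distrib, Finset.sum_sub_distrib, hQ1] at h
  linarith

end QEXM

open QEXM

open Classical in
theorem specQEX : SpecQEX := by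
  intro c M n A B hc hc2 hM hn h0 hgen hA hAc hAB
  have hApos : (0 : ℝ) < A.card := by exact_mod_cast hA.card_pos
  have hl2 : 0 < Real.log 2 := Real.log_pos one_lt_two
  -- the word length
  let N : G n → ℕ := fun x => Nat.find (hgen x)
  have hNs : ∀ x, x ∈ ks B (N x) := fun x => Nat.find_spec (hgen x)
  have hN0 : N 0 = 0 := by
    have : N 0 ≤ 0 := Nat.find_min' (hgen 0) (by simp [ks])
    omega
  have hNb : ∀ b ∈ B, ∀ x, N (x + b) ≤ N x + 1 := by
    intro b hb x
    exact Nat.find_min' (hgen (x + b)) (Finset.add_mem_add (hNs x) hb)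
  have hbb : ∀ b : G n, b + b = 0 := by
    intro b
    funext i
    exact CharTwo.add_self_eq_zero (b i)
  have hNb' : ∀ b ∈ B, ∀ x, N x ≤ N (x + b) + 1 := by
    intro b hb x
    have := hNb b hb (x + b)
    rwa [add_assoc, hbb, add_zero] at this
  -- the constants
  set β' : ℝ := Real.log (2 * M) with hβ'
  have h2M : (0 : ℝ) < 2 * M := by linarith
  have hβ'pos : 0 < β' := Real.log_pos (by linarith)
  set β : ℝ := 4 / c * β' with hβ
  have hβpos : 0 < β := by positivity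
  -- the weights
  set Z : ℝ := ∑ x : G n, Real.exp (-(β * N x)) with hZ
  set Z' : ℝ := ∑ x : G n, Real.exp (-(β' * N x)) with hZ'
  have hZ1 : 1 ≤ Z := by
    have h1 : Real.exp (-(β * N (0 : G n))) ≤ Z :=
      Finset.single_le_sum (f := fun x : G n => Real.exp (-(β * N x)))
        (fun x _ => (Real.exp_pos _).le) (Finset.mem_univ 0)
    rw [hN0] at h1
    simpa using h1
  have hZpos : 0 < Z := lt_of_lt_of_le one_pos hZ1
  have hZ'pos : 0 < Z' := by
    rw [hZ']
    exact Finset.sum_pos (fun x _ => Real.exp_pos _) Finset.univ_nonempty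
  have hZ'le : Z' ≤ 2 * A.card := by
    have h1 : ∀ x : G n, Real.exp (-(β' * N x)) = (fun k : ℕ => ((2 * M)⁻¹) ^ k) (N x) := by
      intro x
      change _ = ((2 * M)⁻¹) ^ (N x)
      rw [inv_pow, Real.exp_neg, mul_comm β', Real.exp_nat_mul, hβ', Real.exp_log h2M]
    rw [hZ', Finset.sum_congr rfl fun x _ => h1 x,
      Finset.sum_comp (fun k : ℕ => ((2 * M)⁻¹) ^ k) N]
    have h2 : ∀ k ∈ univ.image N,
        (univ.filter fun x => N x = k).card • ((2 * M)⁻¹) ^ k ≤ A.card * (1 / 2 : ℝ) ^ k := by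
      intro k _
      have h3 : (univ.filter fun x => N x = k) ⊆ ks B k := by
        intro x hx
        rw [Finset.mem_filter] at hx
        rw [← hx.2]
        exact hNs x
      have h4 : ((univ.filter fun x => N x = k).card : ℝ) ≤ M ^ k * A.card :=
        (by exact_mod_cast Finset.card_le_card h3 :
          ((univ.filter fun x => N x = k).card : ℝ) ≤ (ks B k).card).trans
          (card_ks_le A B M hA hAB k)
      rw [nsmul_eq_mul]
      calc ((univ.filter fun x => N x = k).card : ℝ) * ((2 * M)⁻¹) ^ k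
          ≤ M ^ k * A.card * ((2 * M)⁻¹) ^ k := by gcongr
        _ = A.card * (1 / 2 : ℝ) ^ k := by
          have hM0 : M ≠ 0 := by linarith
          rw [mul_comm (M ^ k), mul_assoc, ← mul_pow]
          congr 2
          field_simp
    refine (Finset.sum_le_sum h2).trans ?_
    rw [← Finset.mul_sum]
    have h5 : ∑ k ∈ univ.image N, (1 / 2 : ℝ) ^ k ≤ 2 := by
      exact (summable_geometric_two.sum_le_tsum _ (fun _ _ => by positivity)).trans
        tsum_geometric_two.le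
    calc (A.card : ℝ) * ∑ k ∈ univ.image N, (1 / 2 : ℝ) ^ k ≤ A.card * 2 := by gcongr
      _ = 2 * A.card := by ring
  -- the law
  let Q : G n → ℝ := fun x => Real.exp (-(β * N x)) / Z
  have hQpos : ∀ x, 0 < Q x := fun x => div_pos (Real.exp_pos _) hZpos
  have hQ1 : ∑ x, Q x = 1 := by
    change ∑ x, Real.exp (-(β * N x)) / Z = 1
    rw [← Finset.sum_div, ← hZ, div_self hZpos.ne']
  have hlogQ : ∀ x, Real.log (Q x) = -(β * N x) - Real.log Z := by
    intro x
    change Real.log (Real.exp (-(β * N x)) / Z) = _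
    rw [Real.log_div (Real.exp_pos _).ne' hZpos.ne', Real.log_exp]
  set E : ℝ := ∑ x, Q x * N x with hE
  set h : ℝ := -∑ x, Q x * Real.log (Q x) with hh
  have hh1 : h = β * E + Real.log Z := by
    rw [hh, Finset.sum_congr rfl fun x _ => by rw [hlogQ x]]
    have h1 : ∀ x : G n, Q x * (-(β * N x) - Real.log Z) =
        -(β * (Q x * N x)) - Real.log Z * Q x := fun x => by ring
    rw [Finset.sum_congr rfl fun x _ => h1 x, Finset.sum_sub_distrib, Finset.sum_neg_distrib,
      ← Finset.mul_sum, ← Finset.mul_sum, hQ1, ← hE]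
    ring
  have hlogZ : 0 ≤ Real.log Z := Real.log_nonneg hZ1
  have hhE : β * E ≤ h := by rw [hh1]; linarith
  -- Gibbs with the uniform law
  have hcard : Fintype.card (G n) = 2 ^ n := by simp
  have hh2 : h ≤ n * Real.log 2 := by
    have h1 := gibbs Q (fun _ => ((2 : ℝ) ^ n)⁻¹) hQpos hQ1 (fun _ => by positivity) (by
      rw [Finset.sum_const, Finset.card_univ, hcard, nsmul_eq_mul]
      push_cast
      rw [mul_inv_cancel₀ (by positivity)])
    rw [← hh, ← Finset.sum_mul, hQ1, one_mul, Real.log_inv, neg_neg, Real.log_pow] at h1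
    exact h1
  -- Gibbs with the law of `β'`
  have hh3 : h ≤ β' * E + Real.log Z' := by
    have h1 := gibbs Q (fun x => Real.exp (-(β' * N x)) / Z') hQpos hQ1
      (fun x => div_pos (Real.exp_pos _) hZ'pos) (by
        rw [← Finset.sum_div, ← hZ', div_self hZ'pos.ne'])
    have h2 : ∀ x : G n, Q x * Real.log (Real.exp (-(β' * N x)) / Z') =
        -(β' * (Q x * N x)) - Real.log Z' * Q x := by
      intro x
      rw [Real.log_div (Real.exp_pos _).ne' hZ'pos.ne', Real.log_exp]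
      ring
    rw [← hh, Finset.sum_congr rfl fun x _ => h2 x, Finset.sum_sub_distrib,
      Finset.sum_neg_distrib, ← Finset.mul_sum, ← Finset.mul_sum, hQ1, ← hE] at h1
    linarith
  have hlogZ' : Real.log Z' ≤ Real.log 2 + (1 - c) * n * Real.log 2 := by
    have h1 : Z' ≤ 2 * (2 : ℝ) ^ ((1 - c) * (n : ℝ)) := hZ'le.trans (by gcongr)
    have h2 := Real.log_le_log hZ'pos h1
    rw [Real.log_mul two_ne_zero (by positivity), Real.log_rpow two_pos] at h2
    exact h2
  refine ⟨Q, ⟨hQpos, hQ1⟩, ?_, ?_⟩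
  · intro b hb g
    change Real.exp (-(β * N (g + b))) / Z ≤ Real.exp β * (Real.exp (-(β * N g)) / Z)
    rw [← mul_div_assoc, ← Real.exp_add]
    gcongr
    have h1 : (N g : ℝ) ≤ N (g + b) + 1 := by exact_mod_cast hNb' b hb g
    nlinarith
  · rw [← hh]
    have h1 : β' * E ≤ c / 4 * (n * Real.log 2) := by
      have h2 : β' = c / 4 * β := by
        rw [hβ]
        field_simp
      rw [h2, mul_assoc]
      exact mul_le_mul_of_nonneg_left (hhE.trans hh2) (by positivity)
    have h3 : 1 ≤ c / 4 * n := by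
      rw [div_le_iff₀ hc] at hn
      linarith
    have h4 : Real.log 2 ≤ c / 4 * n * Real.log 2 := by
      nlinarith
    calc h ≤ β' * E + Real.log Z' := hh3
      _ ≤ c / 4 * (n * Real.log 2) + (Real.log 2 + (1 - c) * n * Real.log 2) := by
        linarith
      _ ≤ (1 - c / 2) * n * Real.log 2 := by
        nlinarith

end Pool.Agent.Lib.MPb75bf2.FL
end

section
/-!
# The flag theorem (MP_b75bf2_nt, folder FL): module SMO, the averaged law
-/
namespace Pool.Agent.Lib.MPb75bf2.FL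

open Finset

namespace SMOM

variable {n : ℕ}

open Classical in
/-- The finite set of the elements of a subspace. -/
noncomputable def fs (W : Submodule (ZMod 2) (G n)) : Finset (G n) := univ.filter fun x => x ∈ W

theorem mem_fs {W : Submodule (ZMod 2) (G n)} {x : G n} : x ∈ fs W ↔ x ∈ W := by
  simp [fs]

theorem card_fs (W : Submodule (ZMod 2) (G n)) : ((fs W).card : ℝ) = (Nat.card W : ℝ) := by
  classical
  have h : Nat.card W = (fs W).card := by
    rw [Nat.card_eq_fintype_card, Fintype.card_subtype]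
    unfold fs
    congr
  rw [h]

theorem card_pos' (W : Submodule (ZMod 2) (G n)) : (0 : ℝ) < (Nat.card W : ℝ) := by
  rw [← card_fs]
  have : 0 < (fs W).card := Finset.card_pos.2 ⟨0, mem_fs.2 W.zero_mem⟩
  exact_mod_cast this

theorem cell_eq (Q : G n → ℝ) (W : Submodule (ZMod 2) (G n)) (g : G n) :
    cell Q (cl W) g = ∑ h ∈ fs W, Q (g + h) := by
  classical
  unfold cell
  refine Finset.sum_nbij' (fun x => x - g) (fun h => g + h) ?_ ?_ ?_ ?_ ?_
  · intro x hx
    rw [Finset.mem_filter] at hx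
    exact mem_fs.2 ((Submodule.Quotient.eq W).1 hx.2)
  · intro h hh
    rw [Finset.mem_filter]
    refine ⟨Finset.mem_univ _, (Submodule.Quotient.eq W).2 ?_⟩
    rw [add_sub_cancel_left]
    exact mem_fs.1 hh
  · intro x _
    simp
  · intro h _
    simp
  · intro x _
    simp

/-- Invariance of a sum over a subspace. -/
theorem sum_shift (W : Submodule (ZMod 2) (G n)) (F : G n → ℝ) {v : G n} (hv : v ∈ W) :
    ∑ h ∈ fs W, F (h + v) = ∑ h ∈ fs W, F h := by
  refine Finset.sum_nbij' (fun x => x + v) (fun x => x - v) ?_ ?_ ?_ ?_ ?_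
  · intro x hx
    exact mem_fs.2 (W.add_mem (mem_fs.1 hx) hv)
  · intro x hx
    exact mem_fs.2 (W.sub_mem (mem_fs.1 hx) hv)
  · intro x _
    simp
  · intro x _
    simp
  · intro x _
    rfl

theorem cell_shift (Q : G n → ℝ) (W : Submodule (ZMod 2) (G n)) (g : G n) {v : G n} (hv : v ∈ W) :
    cell Q (cl W) (g + v) = cell Q (cl W) g := by
  rw [cell_eq, cell_eq, ← sum_shift W (fun h => Q (g + h)) hv]
  refine Finset.sum_congr rfl fun h _ => ?_
  congr 1
  abel

theorem cell_pos {Q : G n → ℝ} (hQ : ∀ g, 0 < Q g) (W : Submodule (ZMod 2) (G n)) (g : G n) :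
    0 < cell Q (cl W) g := by
  rw [cell_eq]
  exact Finset.sum_pos (fun h _ => hQ _) ⟨0, mem_fs.2 W.zero_mem⟩

/-- The mean over the cosets. -/
theorem sum_cell_mul (Q F : G n → ℝ) (W : Submodule (ZMod 2) (G n))
    (hF : ∀ g, ∀ v ∈ W, F (g + v) = F g) :
    ∑ g, cell Q (cl W) g * F g = (Nat.card W : ℝ) * ∑ g, Q g * F g := by
  have h1 : ∀ g, cell Q (cl W) g * F g = ∑ h ∈ fs W, Q (g + h) * F (g + h) := by
    intro g
    rw [cell_eq, Finset.sum_mul]
    refine Finset.sum_congr rfl fun h hh => ?_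
    rw [hF g h (mem_fs.1 hh)]
  have h2 : ∀ h : G n, ∑ g, Q (g + h) * F (g + h) = ∑ g, Q g * F g := by
    intro h
    exact Fintype.sum_equiv (Equiv.addRight h) _ _ (fun g => rfl)
  rw [Finset.sum_congr rfl fun g _ => h1 g, Finset.sum_comm,
    Finset.sum_congr rfl fun h _ => h2 h, Finset.sum_const, nsmul_eq_mul, card_fs]

theorem sum_sm_mul (Q F : G n → ℝ) (W : Submodule (ZMod 2) (G n))
    (hF : ∀ g, ∀ v ∈ W, F (g + v) = F g) :
    ∑ g, sm Q W g * F g = ∑ g, Q g * F g := by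
  have hc := card_pos' W
  have h := sum_cell_mul Q F W hF
  have h2 : ∑ g, sm Q W g * F g = (∑ g, cell Q (cl W) g * F g) / (Nat.card W : ℝ) := by
    rw [Finset.sum_div]
    refine Finset.sum_congr rfl fun g _ => ?_
    unfold sm
    ring
  rw [h2, h]
  field_simp

theorem cell_sm (Q : G n → ℝ) {W₀ W : Submodule (ZMod 2) (G n)} (hW : W₀ ≤ W) (g : G n) :
    cell (sm Q W₀) (cl W) g = cell Q (cl W) g := by
  have hc := card_pos' W₀
  have h1 : cell (sm Q W₀) (cl W) g =
      (∑ h ∈ fs W, ∑ v ∈ fs W₀, Q (g + h + v)) / (Nat.card W₀ : ℝ) := by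
    rw [cell_eq, Finset.sum_div]
    refine Finset.sum_congr rfl fun h _ => ?_
    unfold sm
    rw [cell_eq]
  have h2 : ∑ h ∈ fs W, ∑ v ∈ fs W₀, Q (g + h + v) =
      (Nat.card W₀ : ℝ) * cell Q (cl W) g := by
    rw [Finset.sum_comm]
    have h3 : ∀ v ∈ fs W₀, ∑ h ∈ fs W, Q (g + h + v) = cell Q (cl W) g := by
      intro v hv
      rw [cell_eq, ← sum_shift W (fun h => Q (g + h)) (hW (mem_fs.1 hv))]
      refine Finset.sum_congr rfl fun h _ => ?_
      congr 1
      abel
    rw [Finset.sum_congr rfl h3, Finset.sum_const, nsmul_eq_mul, card_fs]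
  rw [h1, h2]
  field_simp

theorem sm_pos {Q : G n → ℝ} (hQ : ∀ g, 0 < Q g) (W : Submodule (ZMod 2) (G n)) (g : G n) :
    0 < sm Q W g := div_pos (cell_pos hQ W g) (card_pos' W)

end SMOM

open SMOM in
theorem specSMO : SpecSMO := by
  intro n Q W₀ hQ
  refine ⟨⟨fun g => sm_pos hQ.pos W₀ g, ?_⟩, fun W hW g => cell_sm Q hW g, ?_, ?_, ?_⟩
  · have h := sum_sm_mul Q (fun _ => 1) W₀ (fun _ _ _ => rfl)
    simpa [hQ.sum] using h
  · intro W hW
    have h := sum_sm_mul Q (fun g => Real.log (cell Q (cl W) g)) W₀ (fun g v hv => by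
      show Real.log (cell Q (cl W) (g + v)) = _
      rw [cell_shift Q W g (hW hv)])
    unfold e ent
    rw [← h]
    congr 1
    refine Finset.sum_congr rfl fun g _ => ?_
    rw [cell_sm Q hW g]
  · intro b β hb g
    unfold sm
    rw [cell_eq, cell_eq, ← mul_div_assoc, Finset.mul_sum]
    refine div_le_div_of_nonneg_right (Finset.sum_le_sum fun h _ => ?_) (card_pos' W₀).le
    have h1 := hb (g + h)
    have h2 : g + b + h = g + h + b := by abel
    rw [h2]
    exact h1
  · intro L b hL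
    have h := sum_sm_mul Q (fun g => Real.log (cell Q (cl W₀) g) -
        Real.log (cell Q (cl W₀) (g + b)) -
        (Real.log (cell Q (cl L) g) - Real.log (cell Q (cl L) (g + b)))) W₀ (fun g v hv => by
      show Real.log (cell Q (cl W₀) (g + v)) - Real.log (cell Q (cl W₀) (g + v + b)) -
        (Real.log (cell Q (cl L) (g + v)) - Real.log (cell Q (cl L) (g + v + b))) = _
      have h2 : g + v + b = g + b + v := by abel
      rw [h2, cell_shift Q W₀ g hv, cell_shift Q W₀ (g + b) hv, cell_shift Q L g (hL hv),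
        cell_shift Q L (g + b) (hL hv)])
    have hl : ∀ g, Real.log (sm Q W₀ g) =
        Real.log (cell Q (cl W₀) g) - Real.log (Nat.card W₀ : ℝ) := by
      intro g
      unfold sm
      rw [Real.log_div (cell_pos hQ.pos W₀ g).ne' (card_pos' W₀).ne']
    unfold K
    rw [← Finset.sum_sub_distrib]
    refine Eq.trans (Finset.sum_congr rfl fun g _ => ?_) (h.trans
      (Finset.sum_congr rfl fun g _ => ?_))
    · rw [hl, hl, cell_sm Q hL, cell_sm Q hL]
      ring
    · ring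

end Pool.Agent.Lib.MPb75bf2.FL
end

section
/-!
# STA: a bit which is nearly uniform given `S`
-/
namespace Pool.Agent.Lib.MPb75bf2.FL

open Finset

namespace STAM

variable {Ω σ : Type} [Fintype Ω]

theorem sgb_sq (b : Bool) : sgb b * sgb b = 1 := by
  cases b <;> norm_num [sgb]

theorem cell_pos (Q : Ω → ℝ) (S : Ω → σ) (hQ : ∀ ω, 0 < Q ω) (ω : Ω) : 0 < cell Q S ω := by
  unfold cell
  refine sum_pos (fun ω' _ => hQ ω') ⟨ω, ?_⟩
  simp

theorem cell_congr (Q : Ω → ℝ) (S : Ω → σ) {ω ω' : Ω} (h : S ω = S ω') :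
    cell Q S ω = cell Q S ω' := by
  unfold cell
  rw [h]

theorem cm_congr (Q : Ω → ℝ) (S : Ω → σ) (f : Ω → Bool) {ω ω' : Ω} (h : S ω = S ω') :
    cm Q f S ω = cm Q f S ω' := by
  unfold cm
  rw [h, cell_congr Q S h]

open Classical in
theorem cell_mul_cm (Q : Ω → ℝ) (S : Ω → σ) (f : Ω → Bool) (hQ : ∀ ω, 0 < Q ω) (ω : Ω) :
    cell Q S ω * cm Q f S ω = ∑ ω' ∈ univ.filter (fun ω' => S ω' = S ω), Q ω' * sgb (f ω') := by
  unfold cm
  rw [mul_div_cancel₀]
  exact (cell_pos Q S hQ ω).ne'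

/-- the mass of the cell of `(S, f)` -/
theorem cell_pair (Q : Ω → ℝ) (S : Ω → σ) (f : Ω → Bool) (hQ : ∀ ω, 0 < Q ω) (ω : Ω) :
    cell Q (fun ω => (S ω, f ω)) ω = cell Q S ω * ((1 + sgb (f ω) * cm Q f S ω) / 2) := by
  classical
  have h1 : cell Q S ω * ((1 + sgb (f ω) * cm Q f S ω) / 2) =
      (cell Q S ω + sgb (f ω) * (cell Q S ω * cm Q f S ω)) / 2 := by ring
  rw [h1, cell_mul_cm Q S f hQ]
  unfold cell
  rw [mul_sum, ← sum_add_distrib, sum_div, sum_filter, sum_filter]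
  refine sum_congr rfl fun ω' _ => ?_
  by_cases hS : S ω' = S ω
  · simp only [Prod.mk.injEq, hS, true_and, if_true]
    cases f ω' <;> cases f ω <;> simp [sgb]
  · simp [hS]

/-- averaging over the cells -/
theorem avg (Q : Ω → ℝ) (S : Ω → σ) (f : Ω → Bool) (hQ : ∀ ω, 0 < Q ω) (g : Ω → ℝ)
    (hg : ∀ ω ω', S ω = S ω' → g ω = g ω') :
    ∑ ω, Q ω * (sgb (f ω) * g ω) = ∑ ω, Q ω * (cm Q f S ω * g ω) := by
  classical
  have h1 : ∀ ω, Q ω * (cm Q f S ω * g ω) = ∑ ω', if S ω' = S ω then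
      Q ω' * sgb (f ω') * (Q ω * (g ω / cell Q S ω)) else 0 := by
    intro ω
    rw [← sum_filter, ← sum_mul, ← cell_mul_cm Q S f hQ]
    have := (cell_pos Q S hQ ω).ne'
    field_simp
  rw [sum_congr rfl fun ω _ => h1 ω, sum_comm]
  refine sum_congr rfl fun ω' _ => ?_
  have h2 : ∀ ω, (if S ω' = S ω then Q ω' * sgb (f ω') * (Q ω * (g ω / cell Q S ω)) else 0) =
      if S ω = S ω' then Q ω * (Q ω' * sgb (f ω') * (g ω' / cell Q S ω')) else 0 := by
    intro ω
    by_cases h : S ω = S ω'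
    · rw [if_pos h, if_pos h.symm, hg ω ω' h, cell_congr Q S h]
      ring
    · rw [if_neg h, if_neg fun h' => h h'.symm]
  rw [sum_congr rfl fun ω _ => h2 ω, ← sum_filter, ← sum_mul]
  have h3 : ∑ i ∈ univ.filter (fun ω => S ω = S ω'), Q i = cell Q S ω' := rfl
  rw [h3]
  have := (cell_pos Q S hQ ω').ne'
  field_simp

end STAM

open STAM in
theorem specSTA : SpecSTA := by
  intro Ω σ _ Q S f hQ h1
  have hp : ∀ ω, 0 < 1 + sgb (f ω) * cm Q f S ω := by
    intro ω
    have h2 := cell_pos Q (fun ω => (S ω, f ω)) hQ ω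
    rw [cell_pair Q S f hQ] at h2
    have h3 := (mul_pos_iff_of_pos_left (cell_pos Q S hQ ω)).1 h2
    linarith
  have h2 : ent Q (fun ω => (S ω, f ω)) - ent Q S =
      Real.log 2 - ∑ ω, Q ω * Real.log (1 + sgb (f ω) * cm Q f S ω) := by
    have h3 : Real.log 2 = ∑ ω, Q ω * Real.log 2 := by rw [← sum_mul, h1, one_mul]
    unfold ent
    rw [h3, ← sum_sub_distrib, ← sum_neg_distrib, ← sum_neg_distrib, ← sum_sub_distrib]
    refine sum_congr rfl fun ω _ => ?_
    rw [cell_pair Q S f hQ, Real.log_mul (cell_pos Q S hQ ω).ne' (div_pos (hp ω) two_pos).ne',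
      Real.log_div (hp ω).ne' two_ne_zero]
    ring
  rw [h2, sub_sub_cancel]
  have h4 : ∑ ω, Q ω * Real.log (1 + sgb (f ω) * cm Q f S ω) ≤
      ∑ ω, Q ω * (sgb (f ω) * cm Q f S ω) := by
    refine sum_le_sum fun ω _ => mul_le_mul_of_nonneg_left ?_ (hQ ω).le
    have := Real.log_le_sub_one_of_pos (hp ω)
    linarith
  refine h4.trans (le_of_eq ?_)
  rw [avg Q S f hQ (fun ω => cm Q f S ω) fun ω ω' h => cm_congr Q S f h]
  refine sum_congr rfl fun ω _ => ?_
  rw [sq]

end Pool.Agent.Lib.MPb75bf2.FL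
end

section
/-!
# FL: the information on a bit bounds the variance of its conditional mean (STB)
-/
namespace Pool.Agent.Lib.MPb75bf2.FL

open Finset
open scoped Pointwise

namespace STBM

variable {Ω σ τ : Type} [Fintype Ω]

theorem sgb_sq (b : Bool) : sgb b * sgb b = 1 := by cases b <;> simp [sgb]

theorem abs_sgb (b : Bool) : |sgb b| = 1 := by cases b <;> simp [sgb]

theorem cell_pos (Q : Ω → ℝ) (hQ : ∀ ω, 0 < Q ω) (C : Ω → τ) (ω : Ω) : 0 < cell Q C ω := by
  classical
  unfold cell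
  exact Finset.sum_pos (fun i _ => hQ i) ⟨ω, by simp⟩

theorem cell_congr (Q : Ω → ℝ) (C : Ω → τ) {ω ω' : Ω} (h : C ω = C ω') :
    cell Q C ω = cell Q C ω' := by
  unfold cell
  rw [h]

theorem cm_congr (Q : Ω → ℝ) (f : Ω → Bool) (C : Ω → τ) {ω ω' : Ω} (h : C ω = C ω') :
    cm Q f C ω = cm Q f C ω' := by
  unfold cm
  rw [h, cell_congr Q C h]

theorem cell_ext (Q : Ω → ℝ) (C : Ω → τ) (D : Ω → σ) (h : ∀ ω ω', C ω = C ω' ↔ D ω = D ω')
    (ω : Ω) : cell Q C ω = cell Q D ω := by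
  unfold cell
  refine Finset.sum_congr ?_ fun _ _ => rfl
  ext ω'
  simp [h]

/-- The tower property. -/
theorem tower (Q : Ω → ℝ) (hQ : ∀ ω, 0 < Q ω) (f : Ω → Bool) (C : Ω → τ) (h : Ω → ℝ)
    (hh : ∀ ω ω', C ω = C ω' → h ω = h ω') :
    ∑ ω, Q ω * (h ω * cm Q f C ω) = ∑ ω, Q ω * (h ω * sgb (f ω)) := by
  classical
  have h1 : ∀ ω, Q ω * (h ω * cm Q f C ω) =
      ∑ ω', if C ω' = C ω then (Q ω * (h ω / cell Q C ω)) * (Q ω' * sgb (f ω')) else 0 := by
    intro ω
    rw [← Finset.sum_filter, ← Finset.mul_sum]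
    unfold cm
    have : (∑ ω' ∈ univ.filter (fun ω' => C ω' = C ω), Q ω' * sgb (f ω')) =
      ∑ ω' with C ω' = C ω, Q ω' * sgb (f ω') := rfl
    have e1 : (@Finset.filter Ω (fun ω' => C ω' = C ω) (fun a => Classical.propDecidable _) univ) =
        univ.filter (fun ω' => C ω' = C ω) := by
      ext; simp
    rw [e1]
    ring
  rw [Finset.sum_congr rfl fun ω _ => h1 ω, Finset.sum_comm]
  refine Finset.sum_congr rfl fun ω' _ => ?_
  have h2 : ∀ ω, (if C ω' = C ω then (Q ω * (h ω / cell Q C ω)) * (Q ω' * sgb (f ω')) else 0) =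
      (if C ω = C ω' then Q ω else 0) * ((h ω' / cell Q C ω') * (Q ω' * sgb (f ω'))) := by
    intro ω
    by_cases hc : C ω' = C ω
    · rw [if_pos hc, if_pos hc.symm, hh _ _ hc, cell_congr Q C hc]
      ring
    · rw [if_neg hc, if_neg (fun hd => hc hd.symm)]
      ring
  rw [Finset.sum_congr rfl fun ω _ => h2 ω, ← Finset.sum_mul, ← Finset.sum_filter]
  have e2 : (∑ ω ∈ univ.filter (fun ω => C ω = C ω'), Q ω) = cell Q C ω' := by
    unfold cell
    refine Finset.sum_congr ?_ fun _ _ => rfl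
    ext; simp
  rw [e2]
  have hc := (cell_pos Q hQ C ω').ne'
  field_simp

theorem abs_cm_le (Q : Ω → ℝ) (hQ : ∀ ω, 0 < Q ω) (f : Ω → Bool) (C : Ω → τ) (ω : Ω) :
    |cm Q f C ω| ≤ 1 := by
  classical
  unfold cm
  rw [abs_div, abs_of_pos (cell_pos Q hQ C ω), div_le_one (cell_pos Q hQ C ω)]
  refine (Finset.abs_sum_le_sum_abs _ _).trans ?_
  unfold cell
  refine Finset.sum_le_sum fun i _ => ?_
  rw [abs_mul, abs_sgb, mul_one, abs_of_pos (hQ i)]

/-- The masses of the two halves of a cell. -/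
theorem cell_half (Q : Ω → ℝ) (hQ : ∀ ω, 0 < Q ω) (f : Ω → Bool) (C : Ω → τ) (ω : Ω) :
    cell Q (fun ω => (C ω, f ω)) ω = cell Q C ω * ((1 + sgb (f ω) * cm Q f C ω) / 2) := by
  classical
  have hc := (cell_pos Q hQ C ω).ne'
  have h1 : cell Q C ω * ((1 + sgb (f ω) * cm Q f C ω) / 2) =
      (cell Q C ω + sgb (f ω) *
        (∑ ω' ∈ (@Finset.filter Ω (fun ω' => C ω' = C ω) (fun a => Classical.propDecidable _) univ),
          Q ω' * sgb (f ω'))) / 2 := by
    unfold cm
    field_simp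
  rw [h1]
  unfold cell
  rw [Finset.mul_sum, ← Finset.sum_add_distrib, Finset.sum_div]
  rw [Finset.sum_filter, Finset.sum_filter]
  refine Finset.sum_congr rfl fun ω' _ => ?_
  by_cases h2 : C ω' = C ω
  · rw [if_pos h2]
    by_cases h3 : f ω' = f ω
    · rw [if_pos (Prod.ext h2 h3), h3]
      have := sgb_sq (f ω)
      linear_combination (- Q ω' / 2) * this
    · rw [if_neg (by simp [h3])]
      have h4 : sgb (f ω) * sgb (f ω') = -1 := by
        revert h3
        cases f ω <;> cases f ω' <;> simp [sgb]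
      linear_combination (- Q ω' / 2) * h4
  · rw [if_neg h2, if_neg (by simp [h2])]

/-- The pointwise inequality. -/
theorem key (U V : ℝ) (hU : |U| ≤ 1) (hV : |V| ≤ 1) :
    (U - V) ^ 2 / 8 ≤ (1 + U) / 2 * (2 * (1 - Real.sqrt (((1 + V) / 2) / ((1 + U) / 2)))) +
      (1 - U) / 2 * (2 * (1 - Real.sqrt (((1 - V) / 2) / ((1 - U) / 2)))) := by
  obtain ⟨hU1, hU2⟩ := abs_le.mp hU
  obtain ⟨hV1, hV2⟩ := abs_le.mp hV
  have hgen : ∀ a a' : ℝ, 0 ≤ a → a ≤ 1 → 0 ≤ a' → a' ≤ 1 →
      a * (2 * (1 - Real.sqrt (a' / a))) = 2 * a - 2 * (Real.sqrt a * Real.sqrt a') := by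
    intro a a' h0 h1 h0' h1'
    rcases eq_or_lt_of_le h0 with h | h
    · rw [← h]; simp
    · rw [Real.sqrt_div h0']
      have hs : Real.sqrt a ≠ 0 := (Real.sqrt_pos.mpr h).ne'
      have h2 : a = Real.sqrt a * Real.sqrt a := (Real.mul_self_sqrt h0).symm
      have h3 : a * (Real.sqrt a' / Real.sqrt a) = Real.sqrt a * Real.sqrt a' := by
        nth_rewrite 1 [h2]
        field_simp
      linear_combination (-2) * h3
  have hsq : ∀ a a' : ℝ, 0 ≤ a → a ≤ 1 → 0 ≤ a' → a' ≤ 1 →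
      (a - a') ^ 2 / 4 ≤ a + a' - 2 * (Real.sqrt a * Real.sqrt a') := by
    intro a a' h0 h1 h0' h1'
    have e1 := Real.sq_sqrt h0
    have e2 := Real.sq_sqrt h0'
    have n1 := Real.sqrt_nonneg a
    have n2 := Real.sqrt_nonneg a'
    have l1 : Real.sqrt a ≤ 1 := Real.sqrt_le_one.mpr h1
    have l2 : Real.sqrt a' ≤ 1 := Real.sqrt_le_one.mpr h1'
    set x := Real.sqrt a
    set y := Real.sqrt a'
    have h3 : a + a' - 2 * (x * y) = (x - y) ^ 2 := by rw [← e1, ← e2]; ring
    have h4 : (a - a') ^ 2 = (x - y) ^ 2 * (x + y) ^ 2 := by rw [← e1, ← e2]; ring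
    rw [h3, h4]
    have h5 : (x + y) ^ 2 ≤ 4 := by nlinarith
    nlinarith [sq_nonneg (x - y)]
  have ha0 : 0 ≤ (1 + U) / 2 := by linarith
  have ha1 : (1 + U) / 2 ≤ 1 := by linarith
  have hb0 : 0 ≤ (1 + V) / 2 := by linarith
  have hb1 : (1 + V) / 2 ≤ 1 := by linarith
  have hc0 : 0 ≤ (1 - U) / 2 := by linarith
  have hc1 : (1 - U) / 2 ≤ 1 := by linarith
  have hd0 : 0 ≤ (1 - V) / 2 := by linarith
  have hd1 : (1 - V) / 2 ≤ 1 := by linarith
  rw [hgen _ _ ha0 ha1 hb0 hb1, hgen _ _ hc0 hc1 hd0 hd1]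
  have h1 := hsq _ _ ha0 ha1 hb0 hb1
  have h2 := hsq _ _ hc0 hc1 hd0 hd1
  nlinarith

theorem log_ge (x y : ℝ) (hx : 0 < x) (hy : 0 < y) :
    2 * (1 - Real.sqrt (y / x)) ≤ Real.log x - Real.log y := by
  have h1 := Real.log_le_sub_one_of_pos (Real.sqrt_pos.mpr (div_pos hy hx))
  rw [Real.log_sqrt (div_pos hy hx).le, Real.log_div hy.ne' hx.ne'] at h1
  linarith

end STBM

open STBM in
theorem specSTB : SpecSTB := by
  intro Ω σ τ _ Q S X f hQ h1
  classical
  set C : Ω → σ × τ := fun ω => (S ω, X ω) with hC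
  set U : Ω → ℝ := fun ω => cm Q f C ω with hU
  set V : Ω → ℝ := fun ω => cm Q f S ω with hV
  have hUc : ∀ ω ω', C ω = C ω' → U ω = U ω' := fun ω ω' h => cm_congr Q f C h
  have hVc : ∀ ω ω', C ω = C ω' → V ω = V ω' := fun ω ω' h =>
    cm_congr Q f S (by simpa [hC] using (Prod.ext_iff.mp h).1)
  set φ : ℝ → Ω → ℝ := fun χ ω =>
    2 * (1 - Real.sqrt (((1 + χ * V ω) / 2) / ((1 + χ * U ω) / 2))) with hφ
  have hφc : ∀ χ ω ω', C ω = C ω' → φ χ ω = φ χ ω' := by
    intro χ ω ω' h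
    simp only [hφ, hUc _ _ h, hVc _ _ h]
  -- the cells
  have c1 : ∀ ω, cell Q (fun ω => (S ω, f ω)) ω =
      cell Q S ω * ((1 + sgb (f ω) * V ω) / 2) := fun ω => cell_half Q hQ f S ω
  have c2 : ∀ ω, cell Q (fun ω => (S ω, X ω, f ω)) ω =
      cell Q C ω * ((1 + sgb (f ω) * U ω) / 2) := by
    intro ω
    rw [← cell_half Q hQ f C ω]
    refine cell_ext Q _ _ (fun a b => ?_) ω
    simp [hC, and_assoc]
  have p1 : ∀ ω, 0 < (1 + sgb (f ω) * V ω) / 2 := by
    intro ω
    have h := cell_pos Q hQ (fun ω => (S ω, f ω)) ω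
    rw [c1] at h
    exact (pos_iff_pos_of_mul_pos h).mp (cell_pos Q hQ S ω)
  have p2 : ∀ ω, 0 < (1 + sgb (f ω) * U ω) / 2 := by
    intro ω
    have h := cell_pos Q hQ (fun ω => (S ω, X ω, f ω)) ω
    rw [c2] at h
    exact (pos_iff_pos_of_mul_pos h).mp (cell_pos Q hQ C ω)
  -- the information
  have hI : (ent Q (fun ω => (S ω, f ω)) - ent Q S) -
        (ent Q (fun ω => (S ω, X ω, f ω)) - ent Q C) =
      ∑ ω, Q ω * (Real.log ((1 + sgb (f ω) * U ω) / 2) - Real.log ((1 + sgb (f ω) * V ω) / 2)) := by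
    unfold ent
    rw [sub_neg_eq_add, sub_neg_eq_add, neg_add_eq_sub, neg_add_eq_sub, ← Finset.sum_sub_distrib,
      ← Finset.sum_sub_distrib, ← Finset.sum_sub_distrib]
    refine Finset.sum_congr rfl fun ω _ => ?_
    rw [c1, c2, Real.log_mul (cell_pos Q hQ S ω).ne' (p1 ω).ne',
      Real.log_mul (cell_pos Q hQ C ω).ne' (p2 ω).ne']
    ring
  have hI2 : ∑ ω, Q ω * φ (sgb (f ω)) ω ≤
      ∑ ω, Q ω * (Real.log ((1 + sgb (f ω) * U ω) / 2) - Real.log ((1 + sgb (f ω) * V ω) / 2)) :=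
    Finset.sum_le_sum fun ω _ =>
      mul_le_mul_of_nonneg_left (log_ge _ _ (p2 ω) (p1 ω)) (hQ ω).le
  -- the mean over the two halves
  have hlin : ∀ ω, φ (sgb (f ω)) ω = (φ 1 ω + φ (-1) ω) / 2 +
      ((φ 1 ω - φ (-1) ω) / 2) * sgb (f ω) := by
    intro ω
    cases f ω
    · simp only [sgb]
      simp
      ring
    · simp only [sgb]
      simp
      ring
  have hI3 : ∑ ω, Q ω * φ (sgb (f ω)) ω =
      ∑ ω, Q ω * ((φ 1 ω + φ (-1) ω) / 2 + ((φ 1 ω - φ (-1) ω) / 2) * U ω) := by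
    have ht := tower Q hQ f C (fun ω => (φ 1 ω - φ (-1) ω) / 2) (fun ω ω' h => by
      show (φ 1 ω - φ (-1) ω) / 2 = (φ 1 ω' - φ (-1) ω') / 2
      rw [hφc 1 _ _ h, hφc (-1) _ _ h])
    have e1 : ∑ ω, Q ω * φ (sgb (f ω)) ω = ∑ ω, Q ω * ((φ 1 ω + φ (-1) ω) / 2) +
        ∑ ω, Q ω * (((φ 1 ω - φ (-1) ω) / 2) * sgb (f ω)) := by
      rw [← Finset.sum_add_distrib]
      refine Finset.sum_congr rfl fun ω _ => ?_
      rw [hlin ω]; ring
    rw [e1, ← ht, ← Finset.sum_add_distrib]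
    refine Finset.sum_congr rfl fun ω _ => ?_
    simp only [hU]
    ring
  have hI4 : ∑ ω, Q ω * ((U ω - V ω) ^ 2 / 8) ≤
      ∑ ω, Q ω * ((φ 1 ω + φ (-1) ω) / 2 + ((φ 1 ω - φ (-1) ω) / 2) * U ω) := by
    refine Finset.sum_le_sum fun ω _ => mul_le_mul_of_nonneg_left ?_ (hQ ω).le
    refine (key (U ω) (V ω) (abs_cm_le Q hQ f C ω) (abs_cm_le Q hQ f S ω)).trans (le_of_eq ?_)
    simp only [hφ, one_mul, neg_mul, ← sub_eq_add_neg]
    ring
  have hfin : ∑ ω, Q ω * (U ω - V ω) ^ 2 = 8 * ∑ ω, Q ω * ((U ω - V ω) ^ 2 / 8) := by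
    rw [Finset.mul_sum]
    refine Finset.sum_congr rfl fun ω _ => ?_
    ring
  have hgoal : ∑ ω, Q ω * (U ω - V ω) ^ 2 ≤ 8 * ((ent Q (fun ω => (S ω, f ω)) - ent Q S) -
        (ent Q (fun ω => (S ω, X ω, f ω)) - ent Q C)) := by
    rw [hfin, hI]
    have := (hI4.trans hI3.symm.le).trans hI2
    linarith
  exact hgoal

end Pool.Agent.Lib.MPb75bf2.FL
end

section
/-!
# FL: a flipped bit is nearly uniform, or it depends on the coarse part (STC)
-/
namespace Pool.Agent.Lib.MPb75bf2.FL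

open Finset
open scoped Pointwise

open STBM in
theorem specSTC : SpecSTC := by
  intro Ω σ τ _ Q S X f T β hQ h1 hT hS hβ
  set C : Ω → σ × τ := fun ω => (S ω, X ω) with hC
  set U : Ω → ℝ := fun ω => cm Q f C ω with hU
  set V : Ω → ℝ := fun ω => cm Q f S ω with hV
  have hVc : ∀ ω ω', C ω = C ω' → V ω = V ω' := fun ω ω' h =>
    cm_congr Q f S (by simpa [hC] using (Prod.ext_iff.mp h).1)
  have hVS : ∀ ω ω', S ω = S ω' → V ω = V ω' := fun ω ω' h => cm_congr Q f S h
  -- the tower property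
  have ht1 : ∑ ω, Q ω * (V ω * U ω) = ∑ ω, Q ω * (V ω * sgb (f ω)) := tower Q hQ f C V hVc
  have ht2 : ∑ ω, Q ω * (V ω * V ω) = ∑ ω, Q ω * (V ω * sgb (f ω)) := tower Q hQ f S V hVS
  have ht : ∑ ω, Q ω * (V ω * U ω) = ∑ ω, Q ω * (V ω * V ω) := ht1.trans ht2.symm
  -- the pointwise inequality
  have hp : ∀ ω, V ω * V ω + V ω * U ω ≤
      (V ω * V ω + (U (T ω) - V ω) ^ 2) / 2 + |U ω + U (T ω)| := by
    intro ω
    have hab : V ω * (U ω + U (T ω)) ≤ |U ω + U (T ω)| := by
      refine (le_abs_self _).trans ?_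
      rw [abs_mul]
      exact mul_le_of_le_one_left (abs_nonneg _) (abs_cm_le Q hQ f S ω)
    nlinarith [sq_nonneg (V ω - (V ω - U (T ω)))]
  have hs : ∑ ω, Q ω * (V ω * V ω + V ω * U ω) ≤
      ∑ ω, Q ω * ((V ω * V ω + (U (T ω) - V ω) ^ 2) / 2 + |U ω + U (T ω)|) :=
    Finset.sum_le_sum fun ω _ => mul_le_mul_of_nonneg_left (hp ω) (hQ ω).le
  -- the substitution
  have hsub : ∑ ω, Q ω * (U (T ω) - V ω) ^ 2 ≤ Real.exp β * ∑ ω, Q ω * (U ω - V ω) ^ 2 := by
    have e1 : ∑ ω, Q (T ω) * (U (T ω) - V (T ω)) ^ 2 = ∑ ω, Q ω * (U ω - V ω) ^ 2 :=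
      Equiv.sum_comp (⟨T, T, hT, hT⟩ : Ω ≃ Ω) (fun ω => Q ω * (U ω - V ω) ^ 2)
    rw [← e1, Finset.mul_sum]
    refine Finset.sum_le_sum fun ω _ => ?_
    rw [← mul_assoc, hVS (T ω) ω (hS ω)]
    refine mul_le_mul_of_nonneg_right ?_ (sq_nonneg _)
    have := hβ (T ω)
    rwa [hT] at this
  have hL : ∑ ω, Q ω * (V ω * V ω + V ω * U ω) = 2 * ∑ ω, Q ω * (V ω * V ω) := by
    have : ∑ ω, Q ω * (V ω * V ω + V ω * U ω) =
        ∑ ω, Q ω * (V ω * V ω) + ∑ ω, Q ω * (V ω * U ω) := by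
      rw [← Finset.sum_add_distrib]
      exact Finset.sum_congr rfl fun ω _ => by ring
    rw [this, ht]
    ring
  have hR : ∑ ω, Q ω * ((V ω * V ω + (U (T ω) - V ω) ^ 2) / 2 + |U ω + U (T ω)|) =
      (∑ ω, Q ω * (V ω * V ω)) / 2 + (∑ ω, Q ω * (U (T ω) - V ω) ^ 2) / 2 +
        ∑ ω, Q ω * |U ω + U (T ω)| := by
    rw [Finset.sum_div, Finset.sum_div, ← Finset.sum_add_distrib, ← Finset.sum_add_distrib]
    exact Finset.sum_congr rfl fun ω _ => by ring
  rw [hL, hR] at hs
  have hA : ∑ ω, Q ω * (V ω) ^ 2 = ∑ ω, Q ω * (V ω * V ω) :=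
    Finset.sum_congr rfl fun ω _ => by ring
  have n1 : 0 ≤ ∑ ω, Q ω * (U ω - V ω) ^ 2 :=
    Finset.sum_nonneg fun ω _ => mul_nonneg (hQ ω).le (sq_nonneg _)
  have n2 : 0 ≤ ∑ ω, Q ω * |U ω + U (T ω)| :=
    Finset.sum_nonneg fun ω _ => mul_nonneg (hQ ω).le (abs_nonneg _)
  have n3 : 0 ≤ Real.exp β * ∑ ω, Q ω * (U ω - V ω) ^ 2 := mul_nonneg (Real.exp_pos β).le n1
  have hgoal : ∑ ω, Q ω * (V ω) ^ 2 ≤
      Real.exp β / 2 * ∑ ω, Q ω * (U ω - V ω) ^ 2 + ∑ ω, Q ω * |U ω + U (T ω)| := by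
    rw [hA]
    linarith
  exact hgoal

end Pool.Agent.Lib.MPb75bf2.FL
end

section
/-! STD: the sum of the conditional means at `ω` and `T ω` is at most twice the distance `tau`. -/
namespace Pool.Agent.Lib.MPb75bf2.FL

open Finset

namespace STDM

open Classical in
theorem cell_pos {Ω κ : Type} [Fintype Ω] (Q : Ω → ℝ) (C : Ω → κ) (hQ : ∀ ω, 0 < Q ω) (ω : Ω) :
    0 < cell Q C ω := by
  unfold cell
  exact Finset.sum_pos (fun i _ => hQ i) ⟨ω, by simp⟩

theorem cell_congr {Ω κ : Type} [Fintype Ω] (Q : Ω → ℝ) (C : Ω → κ) {ω ω' : Ω} (h : C ω = C ω') :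
    cell Q C ω = cell Q C ω' := by
  unfold cell; rw [h]

open Classical in
theorem avg {Ω κ : Type} [Fintype Ω] (Q : Ω → ℝ) (C : Ω → κ) (hQ : ∀ ω, 0 < Q ω) (F : Ω → ℝ) :
    ∑ ω, F ω = ∑ ω, Q ω / cell Q C ω * ∑ ω' ∈ univ.filter (fun ω' => C ω' = C ω), F ω' := by
  simp_rw [Finset.sum_filter, Finset.mul_sum]
  rw [Finset.sum_comm]
  refine Finset.sum_congr rfl (fun ω' _ => ?_)
  have h1 : ∀ ω, (Q ω / cell Q C ω * if C ω' = C ω then F ω' else 0) =
      (if C ω = C ω' then Q ω else 0) * (F ω' / cell Q C ω') := by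
    intro ω
    by_cases h : C ω' = C ω
    · rw [if_pos h, if_pos h.symm, cell_congr Q C h]; ring
    · rw [if_neg h, if_neg (fun h' => h h'.symm)]; ring
  simp_rw [h1]
  rw [← Finset.sum_mul, ← Finset.sum_filter]
  have h2 : (∑ a ∈ univ.filter (fun a => C a = C ω'), Q a) = cell Q C ω' := rfl
  rw [h2]
  have := (cell_pos Q C hQ ω').ne'
  field_simp

open Classical in
theorem sum_T {Ω κ : Type} [Fintype Ω] (T : Ω → Ω) (hT : ∀ ω, T (T ω) = ω) (C : Ω → κ)
    (hC : ∀ ω ω', C ω = C ω' → C (T ω) = C (T ω')) (F : Ω → ℝ) (ω : Ω) :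
    ∑ ω' ∈ univ.filter (fun ω' => C ω' = C (T ω)), F ω' =
      ∑ ω' ∈ univ.filter (fun ω' => C ω' = C ω), F (T ω') := by
  refine Finset.sum_nbij' T T ?_ ?_ ?_ ?_ ?_
  · intro a ha
    simp only [mem_filter, mem_univ, true_and] at ha ⊢
    have := hC _ _ ha
    rwa [hT] at this
  · intro a ha
    simp only [mem_filter, mem_univ, true_and] at ha ⊢
    exact hC _ _ ha
  · intro a _; exact hT a
  · intro a _; exact hT a
  · intro a _; rw [hT]

theorem sgb_not (b : Bool) : sgb (!b) = -sgb b := by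
  cases b <;> simp [sgb]

theorem abs_sgb (b : Bool) : |sgb b| = 1 := by
  cases b <;> simp [sgb]

open Classical in
theorem main {Ω κ : Type} [Fintype Ω] (Q : Ω → ℝ) (C : Ω → κ) {τ : Type} (X : Ω → τ) (f : Ω → Bool)
    (T : Ω → Ω) (hQ : ∀ ω, 0 < Q ω) (hT : ∀ ω, T (T ω) = ω)
    (hC : ∀ ω ω', C ω = C ω' → C (T ω) = C (T ω')) (hCX : ∀ ω ω', C ω = C ω' → X ω = X ω')
    (hf : ∀ ω, f (T ω) = !(f ω)) :
    ∑ ω, Q ω * |cm Q f C ω + cm Q f C (T ω)| ≤ 2 * tau Q T X := by
  have hcp := cell_pos Q C hQ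
  have hPp := cell_pos Q X hQ
  have hcT : ∀ ω, cell Q C (T ω) = ∑ ω' ∈ univ.filter (fun ω' => C ω' = C ω), Q (T ω') :=
    fun ω => sum_T T hT C hC Q ω
  -- the sum of the two conditional means
  have h1 : ∀ ω, |cm Q f C ω + cm Q f C (T ω)| ≤
      ∑ ω' ∈ univ.filter (fun ω' => C ω' = C ω),
        |Q ω' / cell Q C ω' - Q (T ω') / cell Q C (T ω')| := by
    intro ω
    have e1 : cm Q f C ω = ∑ ω' ∈ univ.filter (fun ω' => C ω' = C ω),
        (Q ω' / cell Q C ω') * sgb (f ω') := by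
      unfold cm
      rw [Finset.sum_div]
      refine Finset.sum_congr rfl (fun ω' h' => ?_)
      simp only [mem_filter, mem_univ, true_and] at h'
      rw [cell_congr Q C h']; ring
    have e2 : cm Q f C (T ω) = -∑ ω' ∈ univ.filter (fun ω' => C ω' = C ω),
        (Q (T ω') / cell Q C (T ω')) * sgb (f ω') := by
      unfold cm
      rw [sum_T T hT C hC (fun a => Q a * sgb (f a)) ω, Finset.sum_div, ← Finset.sum_neg_distrib]
      refine Finset.sum_congr rfl (fun ω' h' => ?_)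
      simp only [mem_filter, mem_univ, true_and] at h'
      rw [cell_congr Q C (hC _ _ h'), hf, sgb_not]; ring
    have e3 : cm Q f C ω + cm Q f C (T ω) = ∑ ω' ∈ univ.filter (fun ω' => C ω' = C ω),
        (Q ω' / cell Q C ω' - Q (T ω') / cell Q C (T ω')) * sgb (f ω') := by
      rw [e1, e2, ← sub_eq_add_neg, ← Finset.sum_sub_distrib]
      refine Finset.sum_congr rfl (fun ω' _ => ?_)
      ring
    rw [e3]
    refine (Finset.abs_sum_le_sum_abs _ _).trans (le_of_eq ?_)
    refine Finset.sum_congr rfl (fun ω' _ => ?_)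
    rw [abs_mul, abs_sgb, mul_one]
  have h2 : ∑ ω, Q ω * |cm Q f C ω + cm Q f C (T ω)| ≤
      ∑ ω, |Q ω - Q (T ω) * (cell Q C ω / cell Q C (T ω))| := by
    rw [avg Q C hQ (fun ω => |Q ω - Q (T ω) * (cell Q C ω / cell Q C (T ω))|)]
    refine Finset.sum_le_sum (fun ω _ => ?_)
    rw [div_mul_eq_mul_div, mul_div_assoc]
    refine mul_le_mul_of_nonneg_left ((h1 ω).trans (le_of_eq ?_)) (hQ ω).le
    rw [Finset.sum_div]
    refine Finset.sum_congr rfl (fun ω' h' => ?_)
    simp only [mem_filter, mem_univ, true_and] at h'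
    rw [← cell_congr Q C h']
    have hc := hcp ω'
    have e : Q ω' / cell Q C ω' - Q (T ω') / cell Q C (T ω') =
        (Q ω' - Q (T ω') * (cell Q C ω' / cell Q C (T ω'))) / cell Q C ω' := by
      have := (hcp (T ω')).ne'
      field_simp
    rw [e, abs_div, abs_of_pos hc]
  have h3 : ∑ ω, Q (T ω) * |cell Q X ω / cell Q X (T ω) - cell Q C ω / cell Q C (T ω)| ≤
      tau Q T X := by
    unfold tau
    rw [avg Q C hQ (fun ω => Q (T ω) * |cell Q X ω / cell Q X (T ω) - cell Q C ω / cell Q C (T ω)|),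
      avg Q C hQ (fun ω => |Q ω - Q (T ω) * (cell Q X ω / cell Q X (T ω))|)]
    refine Finset.sum_le_sum (fun ω _ => ?_)
    refine mul_le_mul_of_nonneg_left ?_ (div_nonneg (hQ ω).le (hcp ω).le)
    have e1 : ∑ ω' ∈ univ.filter (fun ω' => C ω' = C ω),
        Q (T ω') * |cell Q X ω' / cell Q X (T ω') - cell Q C ω' / cell Q C (T ω')| =
        cell Q C (T ω) * |cell Q X ω / cell Q X (T ω) - cell Q C ω / cell Q C (T ω)| := by
      rw [hcT, Finset.sum_mul]
      refine Finset.sum_congr rfl (fun ω' h' => ?_)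
      simp only [mem_filter, mem_univ, true_and] at h'
      rw [cell_congr Q C h', cell_congr Q C (hC _ _ h'), cell_congr Q X (hCX _ _ h'),
        cell_congr Q X (hCX _ _ (hC _ _ h'))]
      rw [hcT]
    have e2 : cell Q C (T ω) * |cell Q X ω / cell Q X (T ω) - cell Q C ω / cell Q C (T ω)| =
        |∑ ω' ∈ univ.filter (fun ω' => C ω' = C ω),
          (Q ω' - Q (T ω') * (cell Q X ω' / cell Q X (T ω')))| := by
      have hcTp := hcp (T ω)
      rw [← abs_of_pos hcTp, ← abs_mul, abs_of_pos hcTp, ← abs_neg]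
      congr 1
      rw [Finset.sum_sub_distrib]
      have e3 : ∑ ω' ∈ univ.filter (fun ω' => C ω' = C ω),
          Q (T ω') * (cell Q X ω' / cell Q X (T ω')) =
          cell Q C (T ω) * (cell Q X ω / cell Q X (T ω)) := by
        rw [hcT, Finset.sum_mul]
        refine Finset.sum_congr rfl (fun ω' h' => ?_)
        simp only [mem_filter, mem_univ, true_and] at h'
        rw [cell_congr Q X (hCX _ _ h'), cell_congr Q X (hCX _ _ (hC _ _ h'))]
      have e4 : ∑ ω' ∈ univ.filter (fun ω' => C ω' = C ω), Q ω' = cell Q C ω := rfl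
      rw [e3, e4]
      have := hcTp.ne'
      field_simp
      ring
    rw [e1, e2]
    exact Finset.abs_sum_le_sum_abs _ _
  have h4 : ∑ ω, |Q ω - Q (T ω) * (cell Q C ω / cell Q C (T ω))| ≤
      tau Q T X + ∑ ω, Q (T ω) * |cell Q X ω / cell Q X (T ω) - cell Q C ω / cell Q C (T ω)| := by
    unfold tau
    rw [← Finset.sum_add_distrib]
    refine Finset.sum_le_sum (fun ω _ => ?_)
    have e : Q ω - Q (T ω) * (cell Q C ω / cell Q C (T ω)) =
        (Q ω - Q (T ω) * (cell Q X ω / cell Q X (T ω))) +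
          Q (T ω) * (cell Q X ω / cell Q X (T ω) - cell Q C ω / cell Q C (T ω)) := by ring
    rw [e]
    refine (abs_add_le _ _).trans ?_
    rw [abs_mul (Q (T ω)), abs_of_pos (hQ (T ω))]
  linarith

end STDM

theorem specSTD : SpecSTD := by
  intro Ω σ τ _ Q S X f T hQ hT hS hf hX
  refine STDM.main Q (fun ω => (S ω, X ω)) X f T hQ hT ?_ ?_ hf
  · intro ω ω' h
    simp only [Prod.mk.injEq] at h ⊢
    refine ⟨?_, hX _ _ h.2⟩
    rw [hS, hS, h.1]
  · intro ω ω' h
    simp only [Prod.mk.injEq] at h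
    exact h.2

end Pool.Agent.Lib.MPb75bf2.FL
end

section
/-!
# Module SUB of the flag theorem (MP_b75bf2_nt, folder FL)
-/
namespace Pool.Agent.Lib.MPb75bf2.FL

open Finset
open scoped Pointwise

namespace SUBM

theorem ent_congr {Ω τ τ' : Type} [Fintype Ω] (Q : Ω → ℝ) (C : Ω → τ) (D : Ω → τ')
    (h : ∀ ω ω', C ω' = C ω ↔ D ω' = D ω) : ent Q C = ent Q D := by
  classical
  unfold ent cell
  congr 1
  refine Finset.sum_congr rfl fun ω _ => ?_
  congr 2
  refine Finset.sum_congr ?_ fun _ _ => rfl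
  exact Finset.filter_congr fun ω' _ => h ω ω'

variable {n : ℕ}

theorem add_self (b : G n) : b + b = 0 := by
  funext i
  exact CharTwo.add_self_eq_zero (b i)

theorem invol (b g : G n) : g + b + b = g := by
  rw [add_assoc, add_self, add_zero]

theorem cl_eq (W : Submodule (ZMod 2) (G n)) (g g' : G n) : cl W g = cl W g' ↔ g - g' ∈ W := by
  unfold cl
  exact Submodule.Quotient.eq W

theorem flip (z : ZMod 2) : decide (z + 1 = 1) = !(decide (z = 1)) := by
  revert z
  decide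

theorem dec_eq (z w : ZMod 2) : decide (z = 1) = decide (w = 1) ↔ z = w := by
  revert z w
  decide

theorem eq_one (z : ZMod 2) (h : z ≠ 0) : z = 1 := by
  revert z
  decide

theorem sup_mem (W : Submodule (ZMod 2) (G n)) (b : G n) (φ : G n →ₗ[ZMod 2] ZMod 2)
    (hW : W ≤ LinearMap.ker φ) (hb : φ b = 1) (x : G n) :
    (x ∈ W ⊔ Submodule.span (ZMod 2) {b} ∧ φ x = 0) ↔ x ∈ W := by
  constructor
  · rintro ⟨hx, h0⟩
    obtain ⟨w, hw, y, hy, rfl⟩ := Submodule.mem_sup.mp hx
    obtain ⟨c, rfl⟩ := Submodule.mem_span_singleton.mp hy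
    have h1 : φ w = 0 := LinearMap.mem_ker.mp (hW hw)
    rw [map_add, map_smul, h1, hb, zero_add, smul_eq_mul, mul_one] at h0
    rw [h0, zero_smul, add_zero]
    exact hw
  · intro hx
    exact ⟨Submodule.mem_sup_left hx, LinearMap.mem_ker.mp (hW hx)⟩

end SUBM

open SUBM in
theorem specSUB (hSTA : SpecSTA) (hSTB : SpecSTB) (hSTC : SpecSTC) (hSTD : SpecSTD)
    (hTAU : SpecTAU) (hSMO : SpecSMO) : SpecSUB := by
  intro n Q W₀ W L b β hQ hW hL hb hβ
  obtain ⟨hlaw, -, he, hsb, hK⟩ := hSMO n Q W₀ hQ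
  obtain ⟨φ, hφb, hφW⟩ := Submodule.exists_le_ker_of_notMem hb
  have hφ1 : φ b = 1 := eq_one _ hφb
  set W' : Submodule (ZMod 2) (G n) := W ⊔ Submodule.span (ZMod 2) {b} with hW'
  have hWW' : W ≤ W' := le_sup_left
  have hbW' : b ∈ W' := Submodule.mem_sup_right (Submodule.mem_span_singleton_self b)
  have h0W' : W₀ ≤ W' := hW.trans hWW'
  set P : G n → ℝ := sm Q W₀ with hP
  set f : G n → Bool := fun g => decide (φ g = 1) with hf
  set T : G n → G n := fun g => g + b with hT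
  have hTT : ∀ ω, T (T ω) = ω := fun ω => invol b ω
  have hST : ∀ ω, cl W' (T ω) = cl W' ω := by
    intro ω
    rw [cl_eq]
    simpa [hT] using hbW'
  have hfT : ∀ ω, f (T ω) = !(f ω) := by
    intro ω
    simp only [hf, hT, map_add, hφ1]
    exact flip _
  have hXT : ∀ ω ω', cl L ω = cl L ω' → cl L (T ω) = cl L (T ω') := by
    intro ω ω' h
    rw [cl_eq] at h ⊢
    simpa [hT] using h
  have hPT : ∀ ω, P (T ω) ≤ Real.exp β * P ω := hsb b β hβ
  have kSTA := hSTA (G n) (G n ⧸ W') P (cl W') f hlaw.pos hlaw.sum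
  have kSTB := hSTB (G n) (G n ⧸ W') (G n ⧸ L) P (cl W') (cl L) f hlaw.pos hlaw.sum
  have kSTC := hSTC (G n) (G n ⧸ W') (G n ⧸ L) P (cl W') (cl L) f T β hlaw.pos hlaw.sum hTT hST hPT
  have kSTD := hSTD (G n) (G n ⧸ W') (G n ⧸ L) P (cl W') (cl L) f T hlaw.pos hTT hST hfT hXT
  have kTAU := hTAU (G n) (G n ⧸ L) P (cl L) T hlaw.pos hlaw.sum hTT hXT
  have rel : ∀ ω ω', (cl W' ω' = cl W' ω ∧ f ω' = f ω) ↔ cl W ω' = cl W ω := by
    intro ω ω'
    rw [cl_eq, cl_eq]
    have h1 : f ω' = f ω ↔ φ (ω' - ω) = 0 := by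
      simp only [hf]
      rw [dec_eq, map_sub, sub_eq_zero]
    rw [h1]
    exact sup_mem W b φ hφW hφ1 (ω' - ω)
  have e1 : ent P (fun ω => (cl W' ω, f ω)) = e Q W := by
    rw [← he W hW]
    refine ent_congr P _ _ fun ω ω' => ?_
    rw [Prod.mk.injEq]
    exact rel ω ω'
  have e2 : ent P (cl W') = e Q W' := he W' h0W'
  have e3 : ent P (fun ω => (cl W' ω, cl L ω, f ω)) = e Q (W ⊓ L) := by
    rw [← he (W ⊓ L) (le_inf hW hL)]
    refine ent_congr P _ _ fun ω ω' => ?_
    rw [Prod.mk.injEq, Prod.mk.injEq, cl_eq (W ⊓ L), Submodule.mem_inf, ← cl_eq W, ← cl_eq L,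
      ← rel ω ω']
    tauto
  have e4 : ent P (fun ω => (cl W' ω, cl L ω)) = e Q (W' ⊓ L) := by
    rw [← he (W' ⊓ L) (le_inf h0W' hL)]
    refine ent_congr P _ _ fun ω ω' => ?_
    rw [Prod.mk.injEq, cl_eq (W' ⊓ L), Submodule.mem_inf, ← cl_eq W', ← cl_eq L]
  have e5 := hK L b hL
  rw [e1, e2] at kSTA
  rw [e1, e2, e3, e4] at kSTB
  rw [e5] at kTAU
  have hexp : 0 < Real.exp β := Real.exp_pos β
  have k1 := mul_le_mul_of_nonneg_left kSTB (by positivity : (0 : ℝ) ≤ Real.exp β / 2)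
  linarith

end Pool.Agent.Lib.MPb75bf2.FL
end

section
/-!
# Module TAU: a Pinsker inequality
-/
namespace Pool.Agent.Lib.MPb75bf2.FL

open Finset

namespace TAUM

/-- Pinsker's inequality (with the constant `2`) for two positive laws. -/
theorem pinsker {Ω : Type} [Fintype Ω] (Q b : Ω → ℝ) (hQ : ∀ ω, 0 < Q ω) (hb : ∀ ω, 0 < b ω)
    (hQs : ∑ ω, Q ω = 1) (hbs : ∑ ω, b ω = 1) :
    ∑ ω, |Q ω - b ω| ≤ 2 * Real.sqrt (∑ ω, Q ω * (Real.log (Q ω) - Real.log (b ω))) := by
  set D : ℝ := ∑ ω, Q ω * (Real.log (Q ω) - Real.log (b ω)) with hD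
  set H : ℝ := ∑ ω, (Real.sqrt (Q ω) - Real.sqrt (b ω)) ^ 2 with hH
  have hsq : ∀ ω, Real.sqrt (Q ω) ^ 2 = Q ω := fun ω => Real.sq_sqrt (hQ ω).le
  have hsb : ∀ ω, Real.sqrt (b ω) ^ 2 = b ω := fun ω => Real.sq_sqrt (hb ω).le
  have hHD : H ≤ D := by
    have h1 : ∀ ω, 2 * Q ω - 2 * (Real.sqrt (Q ω) * Real.sqrt (b ω)) ≤
        Q ω * (Real.log (Q ω) - Real.log (b ω)) := by
      intro ω
      have hsq0 : 0 < Real.sqrt (Q ω) := Real.sqrt_pos.mpr (hQ ω)
      have hsb0 : 0 < Real.sqrt (b ω) := Real.sqrt_pos.mpr (hb ω)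
      have h2 : Real.log (Real.sqrt (b ω) / Real.sqrt (Q ω)) ≤
          Real.sqrt (b ω) / Real.sqrt (Q ω) - 1 :=
        Real.log_le_sub_one_of_pos (div_pos hsb0 hsq0)
      have h3 : Real.log (Real.sqrt (b ω) / Real.sqrt (Q ω)) =
          (Real.log (b ω) - Real.log (Q ω)) / 2 := by
        rw [Real.log_div hsb0.ne' hsq0.ne', Real.log_sqrt (hb ω).le, Real.log_sqrt (hQ ω).le]
        ring
      rw [h3] at h2
      have h4 : Q ω * ((Real.log (b ω) - Real.log (Q ω)) / 2) ≤
          Q ω * (Real.sqrt (b ω) / Real.sqrt (Q ω) - 1) :=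
        mul_le_mul_of_nonneg_left h2 (hQ ω).le
      have h5 : Q ω * (Real.sqrt (b ω) / Real.sqrt (Q ω)) =
          Real.sqrt (Q ω) * Real.sqrt (b ω) := by
        rw [mul_div_assoc', div_eq_iff hsq0.ne']
        calc Q ω * Real.sqrt (b ω) = Real.sqrt (Q ω) ^ 2 * Real.sqrt (b ω) := by rw [hsq]
          _ = Real.sqrt (Q ω) * Real.sqrt (b ω) * Real.sqrt (Q ω) := by ring
      nlinarith
    have h6 : H = ∑ ω, (2 * Q ω - 2 * (Real.sqrt (Q ω) * Real.sqrt (b ω))) := by
      have h7 : ∀ ω, (Real.sqrt (Q ω) - Real.sqrt (b ω)) ^ 2 =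
          (2 * Q ω - 2 * (Real.sqrt (Q ω) * Real.sqrt (b ω))) + (b ω - Q ω) := by
        intro ω
        have e1 := hsq ω
        have e2 := hsb ω
        nlinarith
      have h8 : ∑ ω, (b ω - Q ω) = 0 := by
        rw [Finset.sum_sub_distrib, hQs, hbs, sub_self]
      rw [hH, Finset.sum_congr rfl (fun ω _ => h7 ω), Finset.sum_add_distrib, h8, add_zero]
    rw [h6, hD]
    exact Finset.sum_le_sum fun ω _ => h1 ω
  have hH0 : 0 ≤ H := Finset.sum_nonneg fun ω _ => sq_nonneg _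
  have hCS : (∑ ω, |Q ω - b ω|) ^ 2 ≤ H * 4 := by
    have h1 : ∀ ω, |Q ω - b ω| =
        |Real.sqrt (Q ω) - Real.sqrt (b ω)| * (Real.sqrt (Q ω) + Real.sqrt (b ω)) := by
      intro ω
      have hp : 0 ≤ Real.sqrt (Q ω) + Real.sqrt (b ω) :=
        add_nonneg (Real.sqrt_nonneg _) (Real.sqrt_nonneg _)
      have e : Q ω - b ω = (Real.sqrt (Q ω) - Real.sqrt (b ω)) *
          (Real.sqrt (Q ω) + Real.sqrt (b ω)) := by
        have e1 := hsq ω
        have e2 := hsb ω
        nlinarith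
      rw [e, abs_mul, abs_of_nonneg hp]
    rw [Finset.sum_congr rfl (fun ω _ => h1 ω)]
    have h2 := Finset.sum_mul_sq_le_sq_mul_sq Finset.univ
      (fun ω => |Real.sqrt (Q ω) - Real.sqrt (b ω)|)
      (fun ω => Real.sqrt (Q ω) + Real.sqrt (b ω))
    refine h2.trans ?_
    have h3 : ∑ ω, |Real.sqrt (Q ω) - Real.sqrt (b ω)| ^ 2 = H :=
      Finset.sum_congr rfl fun ω _ => sq_abs _
    have h4 : ∑ ω, (Real.sqrt (Q ω) + Real.sqrt (b ω)) ^ 2 ≤ 4 := by
      have h5 : ∀ ω, (Real.sqrt (Q ω) + Real.sqrt (b ω)) ^ 2 ≤ 2 * Q ω + 2 * b ω := by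
        intro ω
        have e1 := hsq ω
        have e2 := hsb ω
        nlinarith [sq_nonneg (Real.sqrt (Q ω) - Real.sqrt (b ω))]
      refine (Finset.sum_le_sum fun ω _ => h5 ω).trans ?_
      rw [Finset.sum_add_distrib, ← Finset.mul_sum, ← Finset.mul_sum, hQs, hbs]
      norm_num
    rw [h3]
    exact mul_le_mul_of_nonneg_left h4 hH0
  have hfin : (∑ ω, |Q ω - b ω|) ^ 2 ≤ (2 * Real.sqrt D) ^ 2 := by
    rw [mul_pow, Real.sq_sqrt (hH0.trans hHD)]
    nlinarith
  exact abs_le_of_sq_le_sq' hfin (by positivity) |>.2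

end TAUM

open TAUM in
theorem specTAU : SpecTAU := by
  classical
  intro Ω τ _ Q X T hQ hQs hT hX
  have hX' : ∀ ω ω', X (T ω) = X (T ω') ↔ X ω = X ω' := by
    intro ω ω'
    refine ⟨fun h => ?_, hX ω ω'⟩
    have h1 := hX _ _ h
    rwa [hT, hT] at h1
  have hcell : ∀ ω, 0 < cell Q X ω := by
    intro ω
    unfold cell
    refine Finset.sum_pos (fun ω' _ => hQ ω') ⟨ω, by simp⟩
  have hTinv : Function.Involutive T := hT
  set b : Ω → ℝ := fun ω => Q (T ω) * (cell Q X ω / cell Q X (T ω)) with hb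
  have hbpos : ∀ ω, 0 < b ω := fun ω => mul_pos (hQ _) (div_pos (hcell _) (hcell _))
  have hcellT : ∀ ω, cell Q X (T ω) = ∑ ω' ∈ univ.filter (fun ω' => X ω' = X ω), Q (T ω') := by
    intro ω
    unfold cell
    refine Finset.sum_nbij' T T ?_ ?_ ?_ ?_ ?_
    · intro a ha
      simp only [mem_filter, mem_univ, true_and] at ha ⊢
      rw [← hX', hT]
      exact ha
    · intro a ha
      simp only [mem_filter, mem_univ, true_and] at ha ⊢
      exact hX _ _ ha
    · intro a _
      exact hT a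
    · intro a _
      exact hT a
    · intro a _
      rw [hT]
  have hbs : ∑ ω, b ω = 1 := by
    have h1 : ∑ ω, b ω = ∑ ω, b (T ω) :=
      (Equiv.sum_comp (hTinv.toPerm T) b).symm
    rw [h1]
    have h2 : ∀ ω, b (T ω) = ∑ ω', if X ω' = X ω then Q (T ω') * (Q ω / cell Q X ω) else 0 := by
      intro ω
      rw [← Finset.sum_filter, ← Finset.sum_mul, ← hcellT]
      simp only [hb]
      rw [hT]
      ring
    rw [Finset.sum_congr rfl (fun ω _ => h2 ω), Finset.sum_comm]
    have h3 : ∀ ω', (∑ ω, if X ω' = X ω then Q (T ω') * (Q ω / cell Q X ω) else 0) =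
        Q (T ω') := by
      intro ω'
      have h4 : ∀ ω, (if X ω' = X ω then Q (T ω') * (Q ω / cell Q X ω) else 0) =
          if X ω = X ω' then Q (T ω') * (Q ω / cell Q X ω') else 0 := by
        intro ω
        by_cases h : X ω = X ω'
        · have : cell Q X ω = cell Q X ω' := by unfold cell; rw [h]
          rw [if_pos h, if_pos h.symm, this]
        · rw [if_neg h, if_neg (fun h' => h h'.symm)]
      rw [Finset.sum_congr rfl (fun ω _ => h4 ω), ← Finset.sum_filter, ← Finset.mul_sum,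
        ← Finset.sum_div]
      have h5 : ∑ ω ∈ univ.filter (fun ω => X ω = X ω'), Q ω = cell Q X ω' := rfl
      rw [h5, div_self (hcell ω').ne', mul_one]
    rw [Finset.sum_congr rfl (fun ω' _ => h3 ω')]
    rw [← hQs]
    exact Equiv.sum_comp (hTinv.toPerm T) Q
  have hP := pinsker Q b hQ hbpos hQs hbs
  have h6 : ∑ ω, Q ω * (Real.log (Q ω) - Real.log (b ω)) =
      ∑ ω, Q ω * (Real.log (Q ω) - Real.log (Q (T ω)) -
        (Real.log (cell Q X ω) - Real.log (cell Q X (T ω)))) := by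
    refine Finset.sum_congr rfl fun ω _ => ?_
    simp only [hb]
    rw [Real.log_mul (hQ _).ne' (div_pos (hcell _) (hcell _)).ne',
      Real.log_div (hcell _).ne' (hcell _).ne']
    ring
  rw [h6] at hP
  exact hP

end Pool.Agent.Lib.MPb75bf2.FL
end

section
/-!
MP_b75bf2_nt, FL, module WIN: the linear form of one window.
-/
set_option autoImplicit false

namespace Pool.Agent.Lib.MPb75bf2.FL

open Finset
open scoped Pointwise

namespace WINM

theorem form {n : ℕ} (H : Submodule (ZMod 2) (G n)) (x : G n) (hx : x ∉ H) :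
    ∃ θ : G n →ₗ[ZMod 2] ZMod 2, θ x ≠ 0 ∧ ∀ y ∈ H, θ y = 0 := by
  obtain ⟨f, hf, hH⟩ := Submodule.exists_le_ker_of_notMem hx
  exact ⟨f, hf, fun y hy => LinearMap.mem_ker.1 (hH hy)⟩

end WINM

open WINM in
/-- WIN -/
theorem specWIN (hENT : SpecENT) (_hKLB : SpecKLB) (hDEF : SpecDEF) (hFRK : SpecFRK) :
    SpecWIN := by
  classical
  intro n l t t' B Q β ε κ hQ hB hln htt hl hε hdef hsz
  obtain ⟨F1, F2, -, -⟩ := hFRK n
  obtain ⟨E1, -, -, -⟩ := hENT n Q hQ
  set U : Finset (G n) := (B ∩ Vset n l).filter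
    (fun b => K Q (Vs n (l - t')) b - K Q (Vs n (l - t)) b ≤ ε) with hU
  have hUV : ∀ b ∈ U, b ∈ Vs n l := by
    intro b hb
    rw [hU, Finset.mem_filter, Finset.mem_inter] at hb
    exact (mem_Vset_iff l b).1 hb.1.2
  have hH : Vs n (l - t') ⊔ Submodule.span (ZMod 2) (U : Set (G n)) ≤ Vs n l := by
    refine sup_le (F2 _ _ (Nat.sub_le _ _)) ?_
    rw [Submodule.span_le]
    exact fun b hb => hUV b hb
  by_cases hL : Vs n (l - t) ≤ Vs n (l - t') ⊔ Submodule.span (ZMod 2) (U : Set (G n))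
  · exfalso
    have h1 := hDEF n Q (Vs n (l - t')) (Vs n (l - t)) U β ε hQ (F2 _ _ (by omega))
      (fun b hb g => hB b (by
        rw [hU, Finset.mem_filter, Finset.mem_inter] at hb
        exact hb.1.1) g)
      (fun b hb => by
        rw [hU, Finset.mem_filter] at hb
        exact hb.2) hL
    have d1 := (F1 (l - t) (by omega)).1
    have d2 := (F1 (l - t') (by omega)).1
    have d3 : Module.finrank (ZMod 2)
        ↥(Vs n (l - t') ⊔ Submodule.span (ZMod 2) (U : Set (G n))) ≤ l := by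
      have := Submodule.finrank_mono hH
      rwa [(F1 l hln).1] at this
    have d3' : (Module.finrank (ZMod 2)
        ↥(Vs n (l - t') ⊔ Submodule.span (ZMod 2) (U : Set (G n))) : ℝ) ≤ l := by
      exact_mod_cast d3
    rw [d1, d2] at h1
    have c1 : ((l - t : ℕ) : ℝ) = l - t := by
      rw [Nat.cast_sub (by omega)]
    have c2 : ((l - t' : ℕ) : ℝ) = l - t' := by
      rw [Nat.cast_sub (by omega)]
    rw [c1, c2] at h1
    set h : ℝ := (Module.finrank (ZMod 2)
        ↥(Vs n (l - t') ⊔ Submodule.span (ZMod 2) (U : Set (G n))) : ℝ) with hh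
    have l2 : 0 < Real.log 2 := Real.log_pos (by norm_num)
    have e1 := E1 (Vs n (l - t)) (Vs n l) (F2 _ _ (Nat.sub_le _ _))
    have b1 : 4 * Real.exp β * ((h - (l - t)) * Real.log 2) ≤
        4 * Real.exp β * (t * Real.log 2) := by
      apply mul_le_mul_of_nonneg_left _ (by positivity)
      apply mul_le_mul_of_nonneg_right _ l2.le
      linarith
    have b2 : (h - (l - t')) * (4 * Real.sqrt ε) ≤ t' * (4 * Real.sqrt ε) := by
      apply mul_le_mul_of_nonneg_right _ (by positivity)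
      linarith
    have b3 : ((l : ℝ) - t - (l - t')) * Real.log 2 =
        t' * Real.log 2 - t * Real.log 2 := by ring
    rw [b3] at h1
    linarith
  · obtain ⟨x, hx, hxH⟩ := Set.not_subset.1 hL
    obtain ⟨θ, hθ, hθH⟩ := form _ x hxH
    refine ⟨θ, ?_, ⟨x, (mem_Vset_iff _ x).2 hx, hθ⟩, ?_⟩
    · intro y hy
      exact hθH y (Submodule.mem_sup_left ((mem_Vset_iff _ y).1 hy))
    · intro b hb hbK
      apply hθH
      apply Submodule.mem_sup_right
      apply Submodule.subset_span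
      rw [hU, Finset.coe_filter]
      exact ⟨hb, hbK⟩

end Pool.Agent.Lib.MPb75bf2.FL
end
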