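import Pool.Agent.Lib.MP_b75bf2_nt.FL.Spec
import Pool.Agent.Lib.MP_b75bf2_nt.FL.Spec2
import Pool.Agent.Lib.MP_b75bf2_nt.FL.WIN
import Pool.Agent.Lib.MP_b75bf2_nt.FL.GLU

section
/-!
# FL: module DEF (the deficit of a window which is generated by cheap elements)
-/
namespace Pool.Agent.Lib.MPb75bf2.FL

open Finset

namespace DEFM

/-- The inductive claim. -/
theorem claim (hSUB : SpecSUB) {n : ℕ} {Q : G n → ℝ} {W₀ L : Submodule (ZMod 2) (G n)} {β ε : ℝ}
    (hQ : Law Q) (hW : W₀ ≤ L) (U : Finset (G n))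
    (hU : ∀ b ∈ U, ∀ g, Q (g + b) ≤ Real.exp β * Q g) (hK : ∀ b ∈ U, K Q W₀ b - K Q L b ≤ ε) :
    ((Module.finrank (ZMod 2) ↥(W₀ ⊔ Submodule.span (ZMod 2) (U : Set (G n))) : ℝ) -
        Module.finrank (ZMod 2) W₀) * Real.log 2 -
        (e Q W₀ - e Q (W₀ ⊔ Submodule.span (ZMod 2) (U : Set (G n)))) ≤
      4 * Real.exp β * (e Q ((W₀ ⊔ Submodule.span (ZMod 2) (U : Set (G n))) ⊓ L) -
        e Q (W₀ ⊔ Submodule.span (ZMod 2) (U : Set (G n)))) +
      ((Module.finrank (ZMod 2) ↥(W₀ ⊔ Submodule.span (ZMod 2) (U : Set (G n))) : ℝ) -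
        Module.finrank (ZMod 2) W₀) * (4 * Real.sqrt ε) := by
  classical
  induction U using Finset.induction_on with
  | empty =>
    have h1 : W₀ ⊔ Submodule.span (ZMod 2) ((∅ : Finset (G n)) : Set (G n)) = W₀ := by
      rw [Finset.coe_empty, Submodule.span_empty, sup_bot_eq]
    rw [h1, inf_eq_left.2 hW]
    simp
  | insert b U hb ih =>
    have ih' := ih (fun b' hb' => hU b' (Finset.mem_insert_of_mem hb'))
      (fun b' hb' => hK b' (Finset.mem_insert_of_mem hb'))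
    set W := W₀ ⊔ Submodule.span (ZMod 2) (U : Set (G n)) with hWdef
    have h1 : W₀ ⊔ Submodule.span (ZMod 2) ((insert b U : Finset (G n)) : Set (G n)) =
        W ⊔ Submodule.span (ZMod 2) {b} := by
      rw [Finset.coe_insert, Submodule.span_insert, hWdef, sup_assoc,
        sup_comm (Submodule.span (ZMod 2) {b})]
    rw [h1]
    by_cases hbW : b ∈ W
    · have h2 : W ⊔ Submodule.span (ZMod 2) {b} = W := by
        rw [sup_eq_left, Submodule.span_singleton_le_iff_mem]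
        exact hbW
      rw [h2]
      exact ih'
    · have h3 := hSUB n Q W₀ W L b β hQ le_sup_left hW hbW (hU b (Finset.mem_insert_self _ _))
      have h4 : Module.finrank (ZMod 2) ↥(W ⊔ Submodule.span (ZMod 2) {b}) =
          Module.finrank (ZMod 2) W + 1 := Submodule.finrank_sup_span_singleton hbW
      have h5 : Real.sqrt (K Q W₀ b - K Q L b) ≤ Real.sqrt ε :=
        Real.sqrt_le_sqrt (hK b (Finset.mem_insert_self _ _))
      rw [h4]
      push_cast
      nlinarith [h3, ih', h5]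

end DEFM

theorem specDEF (hSUB : SpecSUB) (hENT : SpecENT) : SpecDEF := by
  intro n Q W₀ L U β ε hQ hW hU hK hL
  have h1 := DEFM.claim hSUB hQ hW U hU hK
  set H := W₀ ⊔ Submodule.span (ZMod 2) (U : Set (G n)) with hH
  rw [inf_eq_right.2 hL] at h1
  have h2 := (hENT n Q hQ).2.1 L H hL
  have h3 : 4 * Real.exp β * (e Q L - e Q H) ≤
      4 * Real.exp β * (((Module.finrank (ZMod 2) H : ℝ) - Module.finrank (ZMod 2) L) *
        Real.log 2) := by
    refine mul_le_mul_of_nonneg_left ?_ (by positivity)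
    linarith
  nlinarith [h1, h2, h3]

end Pool.Agent.Lib.MPb75bf2.FL
end

section
/-!
# Module GEN (MP_b75bf2_nt, folder FL): `B` generates
-/
namespace Pool.Agent.Lib.MPb75bf2.FL

open Finset
open scoped Pointwise

namespace GENM

variable {n : ℕ}

theorem neg_eq_self (x : G n) : -x = x := by
  funext i
  have h : ∀ z : ZMod 2, -z = z := by decide
  exact h (x i)

theorem ks_add (B : Finset (G n)) (j : ℕ) {x : G n} (hx : x ∈ ks B j) :
    ∀ (k : ℕ) {y : G n}, y ∈ ks B k → x + y ∈ ks B (j + k) := by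
  intro k
  induction k with
  | zero =>
    intro y hy
    rw [ks, mem_singleton] at hy
    subst hy
    simpa using hx
  | succ k ih =>
    intro y hy
    rw [ks, mem_add] at hy
    obtain ⟨z, hz, b, hb, rfl⟩ := hy
    have h : x + z + b ∈ ks B (j + k) + B := add_mem_add (ih hz) hb
    rw [add_assoc] at h
    exact h

theorem Vset_self : Vset n n = univ := by
  ext x
  simp only [Vset, mem_filter, mem_univ, true_and, iff_true]
  intro i hi
  exact absurd i.2 (by omega)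

end GENM

open GENM in
theorem specGEN : SpecGEN := by
  classical
  intro η n B hη h0 hE
  set S : Finset (G n) := univ.filter fun x => ∃ k, x ∈ ks B k with hS
  have h0S : (0 : G n) ∈ S := by
    rw [hS, mem_filter]
    exact ⟨mem_univ _, 0, by rw [ks]; exact mem_singleton_self _⟩
  have hadd : ∀ x ∈ S, ∀ y ∈ S, x + y ∈ S := by
    intro x hx y hy
    rw [hS, mem_filter] at hx hy ⊢
    obtain ⟨_, j, hj⟩ := hx
    obtain ⟨_, k, hk⟩ := hy
    exact ⟨mem_univ _, j + k, ks_add B j hj k hk⟩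
  have hB : ∀ b ∈ B, b ∈ S := by
    intro b hb
    rw [hS, mem_filter]
    refine ⟨mem_univ _, 1, ?_⟩
    have h : (0 : G n) + b ∈ ks B 0 + B := by
      refine add_mem_add ?_ hb
      rw [ks]; exact mem_singleton_self _
    rwa [zero_add] at h
  have hbig : ¬ 2 * S.card ≤ (Vset n n).card := by
    intro h
    have h1 := hE n le_rfl S (by rw [Vset_self]; exact subset_univ _) h
    have h2 : S + B ∩ Vset n n ⊆ S := by
      intro x hx
      rw [mem_add] at hx
      obtain ⟨s, hs, b, hb, rfl⟩ := hx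
      exact hadd s hs b (hB b (mem_inter.1 hb).1)
    have h3 : ((S + B ∩ Vset n n).card : ℝ) ≤ (S.card : ℝ) := by
      exact_mod_cast card_le_card h2
    have h4 : (0 : ℝ) < (S.card : ℝ) := by
      exact_mod_cast card_pos.2 ⟨0, h0S⟩
    nlinarith
  intro x
  by_contra hx
  have hxS : x ∉ S := by
    rw [hS, mem_filter]
    exact fun h => hx h.2
  apply hbig
  have hdisj : Disjoint S (S.image fun s => x + s) := by
    rw [disjoint_left]
    intro y hy hy2
    rw [mem_image] at hy2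
    obtain ⟨s, hs, rfl⟩ := hy2
    apply hxS
    have h := hadd _ hy s hs
    have h2 : x + s + s = x := by
      have h3 : s + s = 0 := by
        have h4 := neg_add_cancel s
        rwa [neg_eq_self] at h4
      rw [add_assoc, h3, add_zero]
    rwa [h2] at h
  have hc : (S.image fun s => x + s).card = S.card :=
    card_image_of_injective _ (add_right_injective x)
  have h5 : (S ∪ S.image fun s => x + s).card ≤ (Vset n n).card := by
    rw [Vset_self]
    exact card_le_card (subset_univ _)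
  rw [card_union_of_disjoint hdisj, hc] at h5
  omega

end Pool.Agent.Lib.MPb75bf2.FL
end

section
/-!
# Module EGN (MP_b75bf2_nt, folder FL): the part of an essential component in `PL n` generates
-/
namespace Pool.Agent.Lib.MPb75bf2.FL

open Finset
open scoped Pointwise

namespace EGNM

theorem z2 (a : ZMod 2) : a = 0 ∨ a = 1 := by
  revert a; decide

theorem z2add {a b : ZMod 2} (ha : a ≠ 0) (hb : b ≠ 0) : a + b = 0 := by
  revert a b; decide

theorem z2add' {a b : ZMod 2} (ha : a = 0) (hb : b ≠ 0) : a + b ≠ 0 := by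
  revert a b; decide

theorem zero_mem_PL (l : ℕ) : (0 : Polynomial (ZMod 2)) ∈ PL l := by
  show (0 : Polynomial (ZMod 2)).degree < (l : WithBot ℕ)
  rw [Polynomial.degree_zero]
  exact WithBot.bot_lt_coe l

theorem add_mem_PL {l : ℕ} {p q : Polynomial (ZMod 2)} (hp : p ∈ PL l) (hq : q ∈ PL l) :
    p + q ∈ PL l :=
  lt_of_le_of_lt (Polynomial.degree_add_le p q) (max_lt hp hq)

/-- The values of `densSum` are bounded by each term. -/
theorem densSum_le (A B : Set (Polynomial (ZMod 2))) (l : ℕ) :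
    densSum A B ≤ (((A ∩ PL l) + (B ∩ PL l)).ncard : ℝ) / 2 ^ l := by
  refine ciInf_le ⟨0, ?_⟩ l
  rintro _ ⟨l, rfl⟩
  positivity

theorem dens_le (A : Set (Polynomial (ZMod 2))) (l : ℕ) :
    dens A ≤ ((A ∩ PL l).ncard : ℝ) / 2 ^ l := by
  refine ciInf_le ⟨0, ?_⟩ l
  rintro _ ⟨l, rfl⟩
  positivity

end EGNM

open EGNM in
theorem specEGN (hTRF : SpecTRF) : SpecEGN := by
  classical
  intro B hB0 hess n B' hB' x₀
  by_contra hx₀
  -- the subgroup generated by `B'`
  let S : Submodule (ZMod 2) (G n) :=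
    { carrier := {x | ∃ k, x ∈ ks B' k}
      add_mem' := by
        rintro a b ⟨j, hj⟩ ⟨k, hk⟩
        exact ⟨j + k, GENM.ks_add B' j hj k hk⟩
      zero_mem' := ⟨0, by rw [ks]; exact mem_singleton_self _⟩
      smul_mem' := by
        rintro c a ⟨j, hj⟩
        rcases z2 c with rfl | rfl
        · exact ⟨0, by rw [ks, zero_smul]; exact mem_singleton_self _⟩
        · exact ⟨j, by rw [one_smul]; exact hj⟩ }
  have hS : x₀ ∉ S := hx₀
  obtain ⟨φ, hφ0, hφS⟩ := Submodule.exists_le_ker_of_notMem hS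
  obtain ⟨hadd, hinj, hsurj, hmem, hsub, hfin⟩ := hTRF n
  -- an element of `PL n` on which `φ` does not vanish
  obtain ⟨p₀, hp₀, hp₀x⟩ := hsurj n le_rfl x₀ (by
    simp only [Vset, mem_filter, mem_univ, true_and]
    intro i hi
    exact absurd i.2 (by omega))
  let A : Set (Polynomial (ZMod 2)) := {p | p ∉ PL n ∨ φ (co n p) = 0}
  have hco0 : co n 0 = 0 := by
    funext i
    simp [co]
  have hA0 : (0 : Polynomial (ZMod 2)) ∈ A := Or.inr (by rw [hco0, map_zero])
  have hφadd : ∀ p q, φ (co n (p + q)) = φ (co n p) + φ (co n q) := by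
    intro p q
    rw [hadd, map_add]
  -- lower bound
  have hlow : ∀ j : ℕ, 2 ^ j ≤ 2 * (A ∩ PL j).ncard := by
    intro j
    have hfj := (hfin j).1
    have hfA : (A ∩ PL j).Finite := hfj.subset Set.inter_subset_right
    have hsplit : (PL j \ A).ncard + (A ∩ PL j).ncard = 2 ^ j := by
      rw [← (hfin j).2, Set.inter_comm A (PL j)]
      have h := Set.ncard_inter_add_ncard_sdiff_eq_ncard (PL j) A hfj
      omega
    have hle : (PL j \ A).ncard ≤ (A ∩ PL j).ncard := by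
      rcases Set.eq_empty_or_nonempty (PL j \ A) with h | ⟨x1, hx1, hx1A⟩
      · rw [h, Set.ncard_empty]
        exact Nat.zero_le _
      · have hx1n : x1 ∈ PL n := by
          by_contra h
          exact hx1A (Or.inl h)
        have hx1φ : φ (co n x1) ≠ 0 := fun h => hx1A (Or.inr h)
        refine Set.ncard_le_ncard_of_injOn (fun p => p + x1) ?_ ?_ hfA
        · rintro p ⟨hp, hpA⟩
          have hpφ : φ (co n p) ≠ 0 := fun h => hpA (Or.inr h)
          refine ⟨Or.inr ?_, add_mem_PL hp hx1⟩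
          rw [hφadd]
          exact z2add hpφ hx1φ
        · intro p _ q _ h
          exact add_right_cancel h
    omega
  -- upper bound at `n`
  have hup : 2 * (A ∩ PL n).ncard ≤ 2 ^ n := by
    have hfn := (hfin n).1
    have hsplit : (PL n \ A).ncard + (A ∩ PL n).ncard = 2 ^ n := by
      rw [← (hfin n).2, Set.inter_comm A (PL n)]
      have h := Set.ncard_inter_add_ncard_sdiff_eq_ncard (PL n) A hfn
      omega
    have hle : (A ∩ PL n).ncard ≤ (PL n \ A).ncard := by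
      have hfd : (PL n \ A).Finite := hfn.subset Set.sdiff_subset
      refine Set.ncard_le_ncard_of_injOn (fun p => p + p₀) ?_ ?_ hfd
      · rintro p ⟨hpA, hp⟩
        have hpφ : φ (co n p) = 0 := by
          rcases hpA with h | h
          · exact absurd hp h
          · exact h
        refine ⟨add_mem_PL hp hp₀, ?_⟩
        have hne : φ (co n (p + p₀)) ≠ 0 := by
          rw [hφadd, hp₀x]
          exact z2add' hpφ hφ0
        rintro (h | h)
        · exact h (add_mem_PL hp hp₀)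
        · exact hne h
      · intro p _ q _ h
        exact add_right_cancel h
    omega
  have hsubs : (A ∩ PL n) + (B ∩ PL n) ⊆ A ∩ PL n := by
    rintro _ ⟨a, ⟨haA, ha⟩, b, ⟨hbB, hb⟩, rfl⟩
    refine ⟨Or.inr ?_, add_mem_PL ha hb⟩
    show φ (co n (a + b)) = 0
    have h1 : φ (co n a) = 0 := by
      rcases haA with h | h
      · exact absurd ha h
      · exact h
    have h2 : co n b ∈ S := by
      refine ⟨1, ?_⟩
      have hb' : co n b ∈ B' := (hB' _).2 ⟨b, hbB, hb, rfl⟩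
      have h : (0 : G n) + co n b ∈ ks B' 0 + B' := by
        refine add_mem_add ?_ hb'
        rw [ks]; exact mem_singleton_self _
      rwa [zero_add] at h
    have h3 : φ (co n b) = 0 := hφS h2
    rw [hφadd, h1, h3, add_zero]
  have hd1 : (1 / 2 : ℝ) ≤ dens A := by
    refine le_ciInf fun j => ?_
    rw [div_le_div_iff₀ (by norm_num) (by positivity)]
    have := hlow j
    have h : ((2 ^ j : ℕ) : ℝ) ≤ ((2 * (A ∩ PL j).ncard : ℕ) : ℝ) := by exact_mod_cast this
    push_cast at h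
    linarith
  have hhalf : ((A ∩ PL n).ncard : ℝ) / 2 ^ n ≤ 1 / 2 := by
    rw [div_le_div_iff₀ (by positivity) (by norm_num)]
    have h : ((2 * (A ∩ PL n).ncard : ℕ) : ℝ) ≤ ((2 ^ n : ℕ) : ℝ) := by exact_mod_cast hup
    push_cast at h
    linarith
  have hd2 : dens A ≤ 1 / 2 := (dens_le A n).trans hhalf
  have hd3 : densSum A B ≤ 1 / 2 := by
    refine (densSum_le A B n).trans (le_trans ?_ hhalf)
    have hfA : (A ∩ PL n).Finite := (hfin n).1.subset Set.inter_subset_right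
    have h := Set.ncard_le_ncard hsubs hfA
    have h' : (((A ∩ PL n) + (B ∩ PL n)).ncard : ℝ) ≤ ((A ∩ PL n).ncard : ℝ) := by
      exact_mod_cast h
    gcongr
  have := hess A hA0 (by linarith) (by linarith)
  linarith

end Pool.Agent.Lib.MPb75bf2.FL
end

section
/-!
# Module FLE (MP_b75bf2_nt, folder FL): every essential component expands strongly
-/
namespace Pool.Agent.Lib.MPb75bf2.FL

open Finset
open scoped Pointwise

namespace FLEM

theorem zero_mem_PL (l : ℕ) : (0 : Polynomial (ZMod 2)) ∈ PL l := by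
  show (0 : Polynomial (ZMod 2)).degree < (l : WithBot ℕ)
  rw [Polynomial.degree_zero]
  exact WithBot.bot_lt_coe l

theorem add_mem_PL {l : ℕ} {p q : Polynomial (ZMod 2)} (hp : p ∈ PL l) (hq : q ∈ PL l) :
    p + q ∈ PL l :=
  lt_of_le_of_lt (Polynomial.degree_add_le p q) (max_lt hp hq)

theorem co_zero (n : ℕ) : co n 0 = 0 := by
  funext i
  simp [co]

/-- The coefficient vector as an additive function. -/
noncomputable def coH (n : ℕ) : Polynomial (ZMod 2) →+ G n where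
  toFun := co n
  map_zero' := co_zero n
  map_add' := by
    intro p q
    funext i
    simp [co]

theorem coH_apply (n : ℕ) (p : Polynomial (ZMod 2)) : coH n p = co n p := rfl

end FLEM

open FLEM in
theorem specFLE (hTRI : SpecTRI) (hGLU : SpecGLU) (hTRF : SpecTRF) (hEGN : SpecEGN) :
    SpecFLE := by
  classical
  intro B hB0 hess M c hc
  by_contra hcon
  push Not at hcon
  obtain ⟨Λ, hΛ⟩ := hTRI (max M 1) (min c (1 / 2)) (le_max_right _ _)
    (lt_min hc (by norm_num)) (min_le_right _ _)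
  refine hGLU B Λ hB0 ?_ hess
  intro r L
  obtain ⟨n0, hn0⟩ := hΛ r L
  obtain ⟨n, hn, A, hAn, hAne, hAc, hAB⟩ := hcon n0
  obtain ⟨hadd, hinj, hsurj, hmem, hsub, hfin⟩ := hTRF n
  have hfn : (PL n).Finite := (hfin n).1
  have hAf : A.Finite := hfn.subset hAn
  have hBf : (B ∩ PL n).Finite := hfn.subset Set.inter_subset_right
  let A' : Finset (G n) := hAf.toFinset.image (co n)
  let B' : Finset (G n) := hBf.toFinset.image (co n)
  have hB'mem : ∀ x, x ∈ B' ↔ ∃ p ∈ B, p ∈ PL n ∧ co n p = x := by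
    intro x
    simp only [B', mem_image, Set.Finite.mem_toFinset, Set.mem_inter_iff]
    constructor
    · rintro ⟨p, ⟨h1, h2⟩, h3⟩
      exact ⟨p, h1, h2, h3⟩
    · rintro ⟨p, h1, h2, h3⟩
      exact ⟨p, ⟨h1, h2⟩, h3⟩
  have h0B' : (0 : G n) ∈ B' := (hB'mem 0).2 ⟨0, hB0, zero_mem_PL n, co_zero n⟩
  have hgen : ∀ x, ∃ k, x ∈ ks B' k := hEGN B hB0 hess n B' hB'mem
  have hA'ne : A'.Nonempty := by
    obtain ⟨a, ha⟩ := hAne
    exact ⟨co n a, mem_image.2 ⟨a, hAf.mem_toFinset.2 ha, rfl⟩⟩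
  have hA'card : A'.card = A.ncard := by
    rw [Set.ncard_eq_toFinset_card A hAf]
    refine card_image_of_injOn ?_
    intro a ha b hb h
    rw [Set.Finite.coe_toFinset] at ha hb
    exact hinj (hAn ha) (hAn hb) h
  have hsumsub : A + (B ∩ PL n) ⊆ PL n := by
    rintro _ ⟨a, ha, b, hb, rfl⟩
    exact add_mem_PL (hAn ha) hb.2
  have hsumf : (A + (B ∩ PL n)).Finite := hfn.subset hsumsub
  have hABcard : (A' + B').card = (A + (B ∩ PL n)).ncard := by
    rw [Set.ncard_eq_toFinset_card _ hsumf]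
    have hEq : A' + B' = hsumf.toFinset.image (co n) := by
      ext x
      simp only [mem_add, A', B', mem_image, Set.Finite.mem_toFinset]
      constructor
      · rintro ⟨_, ⟨a, ha, rfl⟩, _, ⟨b, hb, rfl⟩, rfl⟩
        exact ⟨a + b, Set.add_mem_add ha hb, hadd a b⟩
      · rintro ⟨_, ⟨a, ha, b, hb, rfl⟩, rfl⟩
        exact ⟨_, ⟨a, ha, rfl⟩, _, ⟨b, hb, rfl⟩, (hadd a b).symm⟩
    rw [hEq]
    refine card_image_of_injOn ?_
    intro a ha b hb h
    rw [Set.Finite.coe_toFinset] at ha hb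
    exact hinj (hsumsub ha) (hsumsub hb) h
  have hpow : (A'.card : ℝ) ≤ (2 : ℝ) ^ ((1 - min c (1 / 2)) * (n : ℝ)) := by
    rw [hA'card]
    refine hAc.trans ?_
    refine Real.rpow_le_rpow_of_exponent_le (by norm_num) ?_
    have h1 : min c (1 / 2) ≤ c := min_le_left _ _
    have h2 : (0 : ℝ) ≤ (n : ℝ) := Nat.cast_nonneg n
    exact mul_le_mul_of_nonneg_right (by linarith) h2
  have hsmall : ((A' + B').card : ℝ) ≤ max M 1 * A'.card := by
    rw [hABcard, hA'card]
    refine hAB.trans ?_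
    exact mul_le_mul_of_nonneg_right (le_max_left _ _) (Nat.cast_nonneg _)
  obtain ⟨l, s, θ, hln, hs0, hsr, hmono, hzero, hnz, hbd⟩ :=
    hn0 n hn B' h0B' hgen A' hA'ne hpow hsmall
  have hs : ∀ i : ℕ, i ≤ r → s i ≤ n := by
    intro i
    induction i with
    | zero => intro _; exact hs0.trans hln
    | succ i ih =>
      intro hi
      have h := hmono ⟨i, by omega⟩
      exact h.trans (ih (by omega))
  refine ⟨l, s, fun i => (θ i).toAddMonoidHom.comp (coH n), ?_⟩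
  refine ⟨hs0, hsr, hmono, ?_, ?_, ?_⟩
  · intro i x hx
    show θ i (co n x) = 0
    exact hzero i _ (hmem _ (hs (i + 1) i.2) x hx)
  · intro i
    obtain ⟨x, hx, hxθ⟩ := hnz i
    obtain ⟨p, hp, hpx⟩ := hsurj (s i) (hs i i.2.le) x hx
    refine ⟨p, hp, ?_⟩
    show θ i (co n p) ≠ 0
    rw [hpx]
    exact hxθ
  · intro b hb hbl
    have hbn : b ∈ PL n := hsub l hln hbl
    have h1 : co n b ∈ B' ∩ Vset n l :=
      mem_inter.2 ⟨(hB'mem _).2 ⟨b, hb, hbn, rfl⟩, hmem l hln b hbl⟩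
    have h2 := hbd _ h1
    refine le_trans (le_of_eq ?_) h2
    rfl

end Pool.Agent.Lib.MPb75bf2.FL
end

section
/-!
# TRF: transfer between `PL n` and `G n`
-/
namespace Pool.Agent.Lib.MPb75bf2.FL

open Finset
open scoped Pointwise

namespace TRFM

theorem co_add (n : ℕ) (p q : Polynomial (ZMod 2)) : co n (p + q) = co n p + co n q := by
  funext i
  simp [co]

theorem mem_PL {l : ℕ} {p : Polynomial (ZMod 2)} :
    p ∈ PL l ↔ ∀ i, l ≤ i → p.coeff i = 0 := by
  unfold PL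
  rw [Set.mem_setOf_eq, Polynomial.degree_lt_iff_coeff_zero]

theorem co_injOn (n : ℕ) : Set.InjOn (co n) (PL n) := by
  intro p hp q hq h
  rw [mem_PL] at hp hq
  ext i
  by_cases hi : i < n
  · have := congrFun h ⟨i, hi⟩
    simpa [co] using this
  · rw [hp i (by omega), hq i (by omega)]

/-- the polynomial of a vector -/
noncomputable def mk {n : ℕ} (x : G n) : Polynomial (ZMod 2) :=
  ∑ i : Fin n, Polynomial.monomial (i : ℕ) (x i)

theorem coeff_mk {n : ℕ} (x : G n) (j : ℕ) :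
    (mk x).coeff j = if h : j < n then x ⟨j, h⟩ else 0 := by
  unfold mk
  rw [Polynomial.finset_sum_coeff]
  simp only [Polynomial.coeff_monomial]
  split_ifs with h
  · rw [Finset.sum_eq_single (⟨j, h⟩ : Fin n)]
    · simp
    · intro b _ hb
      rw [if_neg]
      intro h2
      exact hb (Fin.ext h2)
    · intro h2
      exact absurd (Finset.mem_univ _) h2
  · refine Finset.sum_eq_zero fun b _ => ?_
    rw [if_neg]
    intro h2
    have := b.2
    omega

theorem co_mk {n : ℕ} (x : G n) : co n (mk x) = x := by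
  funext i
  simp [co, coeff_mk]

theorem mem_Vset {n l : ℕ} {x : G n} : x ∈ Vset n l ↔ ∀ i : Fin n, l ≤ (i : ℕ) → x i = 0 := by
  simp [Vset]

theorem mk_mem {n l : ℕ} (x : G n) (hx : x ∈ Vset n l) : mk x ∈ PL l := by
  rw [mem_PL]
  intro i hi
  rw [coeff_mk]
  split_ifs with h
  · exact mem_Vset.1 hx ⟨i, h⟩ hi
  · rfl

theorem PL_eq (l : ℕ) : PL l = Set.range (mk : G l → Polynomial (ZMod 2)) := by
  ext p
  constructor
  · intro hp
    refine ⟨co l p, co_injOn l (mk_mem _ ?_) hp (co_mk _)⟩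
    rw [mem_Vset]
    intro i hi
    have := i.2
    omega
  · rintro ⟨x, rfl⟩
    refine mk_mem x ?_
    rw [mem_Vset]
    intro i hi
    have := i.2
    omega

theorem mk_inj (l : ℕ) : Function.Injective (mk : G l → Polynomial (ZMod 2)) := by
  intro x y h
  rw [← co_mk x, ← co_mk y, h]

end TRFM

open TRFM in
theorem specTRF : SpecTRF := by
  intro n
  refine ⟨co_add n, co_injOn n, ?_, ?_, ?_, ?_⟩
  · intro l _ x hx
    exact ⟨mk x, mk_mem x hx, co_mk x⟩
  · intro l _ p hp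
    rw [mem_Vset]
    intro i hi
    exact mem_PL.1 hp i hi
  · intro l hl p hp
    rw [mem_PL] at hp ⊢
    intro i hi
    exact hp i (hl.trans hi)
  · intro l
    rw [PL_eq]
    refine ⟨Set.finite_range _, ?_⟩
    rw [← Set.image_univ, Set.ncard_image_of_injective _ (mk_inj l), Set.ncard_univ]
    simp [G]

end Pool.Agent.Lib.MPb75bf2.FL
end

section
/-!
# The flag theorem (MP_b75bf2_nt, folder FL): TRI
-/
namespace Pool.Agent.Lib.MPb75bf2.FL

open Finset
open scoped Pointwise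

namespace TRIM

/-- The number of the linear forms which do not vanish at `b`. -/
theorem count_le {n r l ρ Λ : ℕ} (Q : G n → ℝ) (b : G n) (β ε : ℝ) (hε : 0 < ε) (hρ : 1 ≤ ρ)
    (hΛ : β / ε ≤ Λ)
    (hK1 : ∀ W, K Q W b ≤ β) (hK2 : ∀ W L, W ≤ L → K Q L b ≤ K Q W b) (hK3 : ∀ W, 0 ≤ K Q W b)
    (hV : ∀ l l', l ≤ l' → Vs n l ≤ Vs n l') (θ : Fin r → (G n →ₗ[ZMod 2] ZMod 2))
    (hθ : ∀ i : Fin r, K Q (Vs n (l - ρ ^ ((i : ℕ) + 1))) b - K Q (Vs n (l - ρ ^ (i : ℕ))) b ≤ ε →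
      θ i b = 0) :
    (univ.filter (fun i => θ i b ≠ 0)).card ≤ Λ := by
  have hterm : ∀ i : Fin r, (if θ i b ≠ 0 then (1 : ℝ) else 0) ≤
      1 / ε * (K Q (Vs n (l - ρ ^ ((i : ℕ) + 1))) b - K Q (Vs n (l - ρ ^ (i : ℕ))) b) := by
    intro i
    have hd : 0 ≤ K Q (Vs n (l - ρ ^ ((i : ℕ) + 1))) b - K Q (Vs n (l - ρ ^ (i : ℕ))) b := by
      have h1 : ρ ^ (i : ℕ) ≤ ρ ^ ((i : ℕ) + 1) := Nat.pow_le_pow_right hρ (Nat.le_succ _)
      have h2 := hK2 _ _ (hV (l - ρ ^ ((i : ℕ) + 1)) (l - ρ ^ (i : ℕ)) (by omega))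
      linarith
    by_cases h : θ i b = 0
    · rw [if_neg (not_not.mpr h)]
      positivity
    · rw [if_pos h, div_mul_eq_mul_div, one_mul, le_div_iff₀ hε, one_mul]
      by_contra hc
      exact h (hθ i (not_le.mp hc).le)
  have hsum : ∑ i : Fin r,
      (K Q (Vs n (l - ρ ^ ((i : ℕ) + 1))) b - K Q (Vs n (l - ρ ^ (i : ℕ))) b) ≤ β := by
    rw [Fin.sum_univ_eq_sum_range (fun i =>
      K Q (Vs n (l - ρ ^ (i + 1))) b - K Q (Vs n (l - ρ ^ i)) b) r,
      Finset.sum_range_sub (fun i => K Q (Vs n (l - ρ ^ i)) b)]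
    have h1 := hK1 (Vs n (l - ρ ^ r))
    have h2 := hK3 (Vs n (l - ρ ^ 0))
    linarith
  have hfin : (((univ.filter (fun i => θ i b ≠ 0)).card : ℕ) : ℝ) ≤ (Λ : ℝ) := by
    calc (((univ.filter (fun i => θ i b ≠ 0)).card : ℕ) : ℝ)
        = ∑ i : Fin r, (if θ i b ≠ 0 then (1 : ℝ) else 0) := by
          rw [Finset.sum_boole]
      _ ≤ ∑ i : Fin r, 1 / ε *
            (K Q (Vs n (l - ρ ^ ((i : ℕ) + 1))) b - K Q (Vs n (l - ρ ^ (i : ℕ))) b) :=
          Finset.sum_le_sum fun i _ => hterm i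
      _ = 1 / ε * ∑ i : Fin r,
            (K Q (Vs n (l - ρ ^ ((i : ℕ) + 1))) b - K Q (Vs n (l - ρ ^ (i : ℕ))) b) := by
          rw [Finset.mul_sum]
      _ ≤ 1 / ε * β := mul_le_mul_of_nonneg_left hsum (by positivity)
      _ = β / ε := by ring
      _ ≤ Λ := hΛ
  exact_mod_cast hfin

end TRIM

open TRIM

theorem specTRI (hQEX : SpecQEX) (hLEV : SpecLEV) (hWIN : SpecWIN) (hENT : SpecENT)
    (hKLB : SpecKLB) (hFRK : SpecFRK) : SpecTRI := by
  intro M c hM1 hc0 hc1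
  obtain ⟨κ, hκ⟩ : ∃ κ, κ = c / 2 := ⟨_, rfl⟩
  have hκ0 : 0 < κ := by rw [hκ]; positivity
  obtain ⟨β, hβ⟩ : ∃ β, β = 4 / c * Real.log (2 * M) := ⟨_, rfl⟩
  have hlog2 : 0 < Real.log 2 := Real.log_pos (by norm_num)
  have hβ0 : 0 < β := by
    rw [hβ]
    have : 0 < Real.log (2 * M) := Real.log_pos (by linarith)
    positivity
  obtain ⟨s, hs⟩ : ∃ s, s = κ * Real.log 2 / 16 := ⟨_, rfl⟩
  have hs0 : 0 < s := by rw [hs]; positivity
  obtain ⟨ε, hε⟩ : ∃ ε, ε = s ^ 2 := ⟨_, rfl⟩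
  have hε0 : 0 < ε := by rw [hε]; positivity
  have hsq : Real.sqrt ε = s := by rw [hε]; exact Real.sqrt_sq hs0.le
  obtain ⟨ρ, hρ⟩ := exists_nat_gt (4 * (1 + 4 * Real.exp β) / κ)
  have hρ0 : 4 * (1 + 4 * Real.exp β) < κ * ρ := by
    rw [div_lt_iff₀ hκ0] at hρ
    linarith
  have hρ1 : 1 ≤ ρ := by
    rcases Nat.eq_zero_or_pos ρ with h | h
    · exfalso
      rw [h] at hρ0
      have := Real.exp_pos β
      simp at hρ0
      linarith
    · exact h
  obtain ⟨Λ, hΛ⟩ := exists_nat_ge (β / ε)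
  refine ⟨Λ, fun r L => ⟨⌈4 / c⌉₊ + ⌈2 * ((ρ : ℝ) ^ r + L) / κ⌉₊, ?_⟩⟩
  intro n hn B hB0 hgen A hA hAc hAB
  have hn1 : 4 / c ≤ n := by
    have h1 : 4 / c ≤ (⌈4 / c⌉₊ : ℝ) := Nat.le_ceil _
    have h2 : (⌈4 / c⌉₊ : ℝ) ≤ n := by
      exact_mod_cast (Nat.le_add_right _ _).trans hn
    linarith
  have hn2 : 2 * ((ρ : ℝ) ^ r + L) / κ ≤ n := by
    have h1 : 2 * ((ρ : ℝ) ^ r + L) / κ ≤ (⌈2 * ((ρ : ℝ) ^ r + L) / κ⌉₊ : ℝ) := Nat.le_ceil _
    have h2 : (⌈2 * ((ρ : ℝ) ^ r + L) / κ⌉₊ : ℝ) ≤ n := by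
      exact_mod_cast (Nat.le_add_left _ _).trans hn
    linarith
  obtain ⟨Q, hQ, hQb, hQe⟩ := hQEX c M n A B hc0 hc1 hM1 hn1 hB0 hgen hA hAc hAB
  rw [← hβ] at hQb
  obtain ⟨hE1, hE2, hE3, hE4⟩ := hENT n Q hQ
  obtain ⟨hF1, hF2, hF3, hF4⟩ := hFRK n
  obtain ⟨l, hln, hl1, hl2⟩ := hLEV n
    (fun l => (l : ℝ) * Real.log 2 - (e Q ⊥ - e Q (Vs n l))) κ (Real.log 2) hlog2 hκ0.le
    (by simp [hF4])
    (by
      intro l _
      have h1 := hE1 _ _ (hF2 l (l + 1) (Nat.le_succ _))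
      push_cast
      linarith)
    (by
      show κ * n * Real.log 2 ≤ (n : ℝ) * Real.log 2 - (e Q ⊥ - e Q (Vs n n))
      rw [hF3, hE3, hE4]
      have h1 : (1 - c / 2) * n * Real.log 2 = n * Real.log 2 - κ * n * Real.log 2 := by
        rw [hκ]; ring
      rw [h1] at hQe
      linarith)
  have hl3 : ρ ^ r + L ≤ l := by
    have h1 : (ρ : ℝ) ^ r + L ≤ κ / 2 * n := by
      rw [div_le_iff₀ hκ0] at hn2
      linarith
    have h2 : (ρ : ℝ) ^ r + L ≤ l := h1.trans hl1
    exact_mod_cast h2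
  have hwin : ∀ i : Fin r, ∃ θ : G n →ₗ[ZMod 2] ZMod 2,
      (∀ x ∈ Vset n (l - ρ ^ ((i : ℕ) + 1)), θ x = 0) ∧
      (∃ x ∈ Vset n (l - ρ ^ (i : ℕ)), θ x ≠ 0) ∧
      ∀ b ∈ B ∩ Vset n l,
        K Q (Vs n (l - ρ ^ ((i : ℕ) + 1))) b - K Q (Vs n (l - ρ ^ (i : ℕ))) b ≤ ε → θ b = 0 := by
    intro i
    have ht : ρ ^ (i : ℕ) ≤ ρ ^ ((i : ℕ) + 1) := Nat.pow_le_pow_right hρ1 (Nat.le_succ _)
    have ht' : ρ ^ ((i : ℕ) + 1) ≤ l :=
      (Nat.pow_le_pow_right hρ1 i.2).trans ((Nat.le_add_right _ _).trans hl3)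
    refine hWIN n l (ρ ^ (i : ℕ)) (ρ ^ ((i : ℕ) + 1)) B Q β ε κ hQ hQb hln ht ht' hε0.le ?_ ?_
    · have h1 := hl2 _ ht'
      have h2 : ((l - ρ ^ ((i : ℕ) + 1) : ℕ) : ℝ) = (l : ℝ) - ((ρ ^ ((i : ℕ) + 1) : ℕ) : ℝ) :=
        Nat.cast_sub ht'
      rw [h2] at h1
      linarith
    · rw [hsq]
      have hp : (0 : ℝ) < ((ρ ^ (i : ℕ) : ℕ) : ℝ) := by
        exact_mod_cast Nat.pow_pos hρ1
      have h3 : ((ρ ^ ((i : ℕ) + 1) : ℕ) : ℝ) = ((ρ ^ (i : ℕ) : ℕ) : ℝ) * ρ := by
        rw [pow_succ]; push_cast; ring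
      rw [h3, hs]
      have h4 : 0 < ((ρ ^ (i : ℕ) : ℕ) : ℝ) * Real.log 2 *
          (κ * ρ / 4 - (1 + 4 * Real.exp β)) := by
        have : 0 < κ * ρ / 4 - (1 + 4 * Real.exp β) := by linarith
        positivity
      nlinarith [h4]
  choose θ hθ1 hθ2 hθ3 using hwin
  refine ⟨l, fun i => l - ρ ^ i, θ, hln, Nat.sub_le _ _, ?_, ?_, hθ1, hθ2, ?_⟩
  · show L ≤ l - ρ ^ r
    omega
  · intro i
    have ht : ρ ^ (i : ℕ) ≤ ρ ^ ((i : ℕ) + 1) := Nat.pow_le_pow_right hρ1 (Nat.le_succ _)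
    show l - ρ ^ ((i : ℕ) + 1) ≤ l - ρ ^ (i : ℕ)
    omega
  · intro b hb
    obtain ⟨hK1, hK2, hK3⟩ := hKLB n Q b β hQ (hQb b (Finset.mem_inter.mp hb).1)
    exact count_le Q b β ε hε0 hρ1 hΛ hK1 hK2 hK3 hF2 θ (fun i => hθ3 i b hb)

end Pool.Agent.Lib.MPb75bf2.FL
end

section
/-!
# The flag theorem for essential components of `F_2[t]` (MP_b75bf2_nt, folder FL): assembly
-/
namespace Pool.Agent.Lib.MPb75bf2.FL

theorem fle : SpecFLE :=
  specFLE
    (specTRI specQEX specLEV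
      (specWIN specENT specKLB
        (specDEF (specSUB specSTA specSTB specSTC specSTD specTAU specSMO) specENT) specFRK)
      specENT specKLB specFRK)
    (specGLU specCNT specBIN) specTRF (specEGN specTRF)

end Pool.Agent.Lib.MPb75bf2.FL
end
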