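import Pool.Agent.Lib.MP_b75bf2_nt.FL.Defs

/-!
# The flag theorem (MP_b75bf2_nt, folder FL): specification of the modules

THEOREM FL. For all `η, c > 0`, `M` there is an `n0` such that for all `n ≥ n0`, `B ⊆ F_2^n`, `0 ∈ B`,
which expands by the factor `1 + η` on every member of the flag, and all nonempty `A` with
`|A| ≤ 2^((1-c) n)`: `|A + B| > M |A|`.

PROOF. Suppose `|A + B| ≤ M |A|`. By the inequality of Pluennecke and Ruzsa the `k`-fold sums of `B` are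
at most `M^k |A|`; so (QEX) the law `Q(x) = exp(-β N(x)) / Z`, `N` the word length, has the entropy
`≤ (1 - c/2) n log 2` and `Q(x + b) ≤ e^β Q(x)` for all `b ∈ B`, `β = (4/c) log (2M)`. For a subspace `W`
let `e(W)` be the entropy of the coset `x + W`, `x` distributed by `Q`. The deficit
`Def(l) = l log 2 - (e(0) - e(V_l))` has `Def(n) ≥ κ n log 2`, `κ = c/2`; so (LEV) there is a level `l` such
that `Def(l) - Def(l-t) ≥ (κ/2) t log 2` for all `t ≤ l`. Let `t_1 = 1`, `t_(i+1) = ρ t_i`, `i ≤ r`; the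
windows are `W_i = V_(l - t_(i+1)) < L_i = V_(l - t_i)`. For `b ∈ B ∩ V_l` let `D_i(b) ≥ 0` be the relative
entropy `K(W_i, b) - K(L_i, b)` of the laws of `x + W_i` and `x + b + W_i`, given `x + L_i`; the sum of
the `D_i(b)` is `≤ β` (KLB), so `b` is broken (`D_i(b) > ε`) for at most `β / ε` windows `i`. The unbroken
`b` of the window `i` do not generate `L_i` modulo `W_i` (DEF: otherwise the deficit of the window is at
most `4 e^β t_i log 2 + 4 sqrt(ε) t_(i+1)`): so there is a linear form `θ_i` which vanishes on `W_i` and on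
the unbroken elements, but not on `L_i`. The function `f = ∑ i, (-1)^(θ_i)` has the mean square `r` on
`V_l` (CHV) and `|f(x+b) - f(x)| ≤ 2 β / ε` for `b ∈ B ∩ V_l`, so `r ≤ K0 (2 β / ε)^2` by the expansion
(CON): a contradiction for large `r`.

THE HEART is DEF, one step is STP (= STA, STB, STC, STD): let `f = ±1` be flipped and `S` be preserved by
the involution `T` (translation by `b`), `U = E[f | S, X]`, `Ū = E[f | S]`. As `U(Tω) ≈ -U(ω)` one has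
`E Ū² ≤ (e^β / 2) E (U - Ū)² + error`, and `E (U - Ū)² ≤ 8 I(f; X | S)`: if a bit is flipped by a cheap
translation, then the bit is nearly uniform given `S`, or `X` has information on it. The sum of the
informations is at most the entropy of the coarse part (the `t_i` levels above the window).

FORM OF A MODULE: file `FL/XXX.lean`, imports this file, namespace `Pool.Agent.Lib.MPb75bf2.FL`,
`theorem specXXX (hYYY : SpecYYY) ... : SpecXXX`; auxiliary lemmas in the namespace `XXXM`.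
All the inequalities for entropies follow from `Real.log x ≤ x - 1` (`Real.log_le_sub_one_of_pos`).
-/

namespace Pool.Agent.Lib.MPb75bf2.FL

open Finset
open scoped Pointwise

/-! ### Part 1: finite probability spaces -/

section Abstract

variable {Ω τ : Type} [Fintype Ω]

open Classical in
/-- The mass of the cell `{ω' : C ω' = C ω}` of `ω`. -/
noncomputable def cell (Q : Ω → ℝ) (C : Ω → τ) (ω : Ω) : ℝ :=
  ∑ ω' ∈ univ.filter (fun ω' => C ω' = C ω), Q ω'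

/-- The entropy of the random variable `C`. -/
noncomputable def ent (Q : Ω → ℝ) (C : Ω → τ) : ℝ := -∑ ω, Q ω * Real.log (cell Q C ω)

/-- The sign `(-1)^f`. -/
def sgb (b : Bool) : ℝ := if b then -1 else 1

open Classical in
/-- The conditional mean of the sign of `f`, given `C`. -/
noncomputable def cm (Q : Ω → ℝ) (f : Ω → Bool) (C : Ω → τ) (ω : Ω) : ℝ :=
  (∑ ω' ∈ univ.filter (fun ω' => C ω' = C ω), Q ω' * sgb (f ω')) / cell Q C ω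

/-- The `L^1` distance of the conditional laws of `ω` and of `T ω` (`T` an involution), given `X`. -/
noncomputable def tau (Q : Ω → ℝ) (T : Ω → Ω) (X : Ω → τ) : ℝ :=
  ∑ ω, |Q ω - Q (T ω) * (cell Q X ω / cell Q X (T ω))|

end Abstract

/-- **STA** (size 60).

PROOF. For `ω`: the cell of `(S, f)` has the mass `cell_S (1 + χ Ū) / 2`, `χ = sgb (f ω)`, `Ū = cm Q f S ω`
(the masses of the two halves of the cell of `S` have the sum `cell_S` and the difference `cell_S Ū`).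
So `ent (S, f) - ent S = -∑ Q log ((1 + χ Ū)/2) = log 2 - ∑ Q log (1 + χ Ū) ≥ log 2 - ∑ Q χ Ū`
(`log (1 + x) ≤ x`), and `∑ Q χ Ū = ∑ Q Ū²` (sum over the cells of `S`: `Ū` is constant on a cell, and
`∑_(cell) Q χ = cell_S Ū = ∑_(cell) Q Ū`). -/
def SpecSTA : Prop :=
  ∀ (Ω σ : Type) [Fintype Ω] (Q : Ω → ℝ) (S : Ω → σ) (f : Ω → Bool), (∀ ω, 0 < Q ω) →
    ∑ ω, Q ω = 1 →
    Real.log 2 - (ent Q (fun ω => (S ω, f ω)) - ent Q S) ≤ ∑ ω, Q ω * (cm Q f S ω) ^ 2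

/-- **STB** (size 150).

PROOF. `X' = (S, X)`. `p = cell_(S,X,f) / cell_(S,X) = (1 + χ U)/2`, `p' = cell_(S,f) / cell_S =
(1 + χ Ū)/2`, `U = cm Q f X'`, `Ū = cm Q f S` (as in STA). The information (right side without the factor
`8`) is `∑ Q log (p / p')`, and `log (p / p') = -2 log sqrt (p'/p) ≥ 2 (1 - sqrt (p'/p))`. Sum over a cell of
`(S, X)` of mass `m`, `a = (1 + U)/2`, `a' = (1 + Ū)/2` (the values `f = false`, mass `m a`, and
`f = true`, mass `m (1 - a)`; `Ū` is constant on the cell): `∑ Q 2 (1 - sqrt (p'/p)) = 2 m (1 - sqrt (a a')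
- sqrt ((1-a)(1-a'))) = m ((√a - √a')² + (√(1-a) - √(1-a'))²) ≥ m ((a-a')²/4 + (a-a')²/4) = m (U - Ū)²/8`
(`(√a - √a')² ≥ (a - a')²/4` as `√a + √a' ≤ 2`; if one half of the cell is empty then `a = 0` or `1` and the
formula is still true). -/
def SpecSTB : Prop :=
  ∀ (Ω σ τ : Type) [Fintype Ω] (Q : Ω → ℝ) (S : Ω → σ) (X : Ω → τ) (f : Ω → Bool),
    (∀ ω, 0 < Q ω) → ∑ ω, Q ω = 1 →
    ∑ ω, Q ω * (cm Q f (fun ω => (S ω, X ω)) ω - cm Q f S ω) ^ 2 ≤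
      8 * ((ent Q (fun ω => (S ω, f ω)) - ent Q S) -
        (ent Q (fun ω => (S ω, X ω, f ω)) - ent Q (fun ω => (S ω, X ω))))

/-- **STC** (size 150).

PROOF. `U = cm Q f (S, X)`, `Ū = cm Q f S`, `|U|, |Ū| ≤ 1`. On every cell of `S`, of mass `m`,
`∑ Q U = m Ū`, `∑ Q Ū = m Ū` (tower property). Let `R = (1/m) ∑_(cell) Q(ω) U(T ω)`,
`v = (1/m) ∑_(cell) Q (U - Ū)²`, `e = (1/m) ∑_(cell) Q(ω) |U(T ω) + U(ω)|`. `T` maps the cell onto itself, so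
`|R - Ū|² ≤ (1/m) ∑ Q(ω) (U(T ω) - Ū)² ≤ (e^β/m) ∑ Q(T ω) (U(T ω) - Ū)² = e^β v` (Cauchy-Schwarz;
`Q ω = Q (T (T ω)) ≤ e^β Q (T ω)`; substitution `ω ↦ T ω`). `|R + Ū| ≤ e`. So `2 |Ū| ≤ sqrt (e^β v) + e`,
`4 Ū² ≤ 2 e^β v + 2 e² ≤ 2 e^β v + 4 e` (`e ≤ 2`). Sum over the cells with the weights `m`. -/
def SpecSTC : Prop :=
  ∀ (Ω σ τ : Type) [Fintype Ω] (Q : Ω → ℝ) (S : Ω → σ) (X : Ω → τ) (f : Ω → Bool) (T : Ω → Ω)
    (β : ℝ), (∀ ω, 0 < Q ω) → ∑ ω, Q ω = 1 → (∀ ω, T (T ω) = ω) → (∀ ω, S (T ω) = S ω) →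
    (∀ ω, Q (T ω) ≤ Real.exp β * Q ω) →
    ∑ ω, Q ω * (cm Q f S ω) ^ 2 ≤
      Real.exp β / 2 * ∑ ω, Q ω * (cm Q f (fun ω => (S ω, X ω)) ω - cm Q f S ω) ^ 2 +
      ∑ ω, Q ω * |cm Q f (fun ω => (S ω, X ω)) ω + cm Q f (fun ω => (S ω, X ω)) (T ω)|

/-- **STD** (size 150).

PROOF. `C = (S, X)`, `c = cell Q C`, `P = cell Q X`. `T` maps the cell of `ω` (for `C`, and for `X`) onto the
cell of `T ω`. `U(T ω) = (1 / c(T ω)) ∑_(ω' in the cell of ω) Q (T ω') sgb (f (T ω'))` and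
`sgb (f (T ω')) = - sgb (f ω')`; so `|U(ω) + U(T ω)| ≤ ∑_(ω' in the cell of ω) |Q ω' / c(ω) - Q (T ω') / c(T ω)|`.
Multiply by `Q ω` and sum: `∑ ω, Q ω |U(ω) + U(T ω)| ≤ ∑ ω', |Q ω' - Q (T ω') c(ω') / c(T ω')|`
(`c(ω) = c(ω')`, `c(T ω) = c(T ω')` on the cell, `∑_(cell) Q ω = c`). By the triangle inequality this is
`≤ tau + ∑ ω', Q (T ω') |P(ω')/P(T ω') - c(ω')/c(T ω')|`, and the second sum is, cell of `C` by cell of `C`,
`c(T ω) |P(ω)/P(T ω) - c(ω)/c(T ω)| = |∑_(ω' in the cell) (Q (T ω') P(ω')/P(T ω') - Q ω')|`, at most the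
part of `tau` on the cell (`P` is constant on the cells of `C`). So everything is `≤ 2 tau`. -/
def SpecSTD : Prop :=
  ∀ (Ω σ τ : Type) [Fintype Ω] (Q : Ω → ℝ) (S : Ω → σ) (X : Ω → τ) (f : Ω → Bool) (T : Ω → Ω),
    (∀ ω, 0 < Q ω) → (∀ ω, T (T ω) = ω) → (∀ ω, S (T ω) = S ω) → (∀ ω, f (T ω) = !(f ω)) →
    (∀ ω ω', X ω = X ω' → X (T ω) = X (T ω')) →
    ∑ ω, Q ω * |cm Q f (fun ω => (S ω, X ω)) ω + cm Q f (fun ω => (S ω, X ω)) (T ω)| ≤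
      2 * tau Q T X

/-- **TAU** (size 120): a Pinsker inequality.

PROOF. `c = cell Q X`, `p ω = Q ω / c ω`, `p' ω = Q (T ω) / c (T ω)`: `tau = ∑ c |p - p'|` and the right
side under the root is `D = ∑ Q log (p / p') = ∑ c p log (p/p')`. `∑ c p = 1` and `∑ c p' = 1` (on a cell of
`X`, which `T` maps onto a cell, `∑ p' = 1`, `c` is constant). `log (p/p') ≥ 2 (1 - sqrt (p'/p))`, so
`D ≥ ∑ c (2 p - 2 sqrt (p p')) = ∑ c (√p - √p')²`. Cauchy-Schwarz: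
`(∑ c |p - p'|)² ≤ ∑ c (√p - √p')² * ∑ c (√p + √p')² ≤ D * ∑ c (2 p + 2 p') = 4 D`. -/
def SpecTAU : Prop :=
  ∀ (Ω τ : Type) [Fintype Ω] (Q : Ω → ℝ) (X : Ω → τ) (T : Ω → Ω), (∀ ω, 0 < Q ω) →
    ∑ ω, Q ω = 1 → (∀ ω, T (T ω) = ω) → (∀ ω ω', X ω = X ω' → X (T ω) = X (T ω')) →
    tau Q T X ≤ 2 * Real.sqrt (∑ ω, Q ω * (Real.log (Q ω) - Real.log (Q (T ω)) -
      (Real.log (cell Q X ω) - Real.log (cell Q X (T ω)))))

/-! ### Part 2: cosets in `F_2^n` -/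

section Cosets

variable {n : ℕ}

/-- The coset of `g` modulo `W`. -/
def cl (W : Submodule (ZMod 2) (G n)) (g : G n) : G n ⧸ W := Submodule.Quotient.mk g

/-- The entropy of the coset. -/
noncomputable def e (Q : G n → ℝ) (W : Submodule (ZMod 2) (G n)) : ℝ := ent Q (cl W)

/-- The relative entropy of the cosets of `x` and of `x + b` modulo `W`. -/
noncomputable def K (Q : G n → ℝ) (W : Submodule (ZMod 2) (G n)) (b : G n) : ℝ :=
  ∑ g, Q g * (Real.log (cell Q (cl W) g) - Real.log (cell Q (cl W) (g + b)))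

/-- The subspace `V_l`. -/
def Vs (n l : ℕ) : Submodule (ZMod 2) (G n) where
  carrier := {x | ∀ i : Fin n, l ≤ (i : ℕ) → x i = 0}
  zero_mem' := fun _ _ => rfl
  add_mem' := by
    intro x y hx hy i hi
    rw [Pi.add_apply, hx i hi, hy i hi, add_zero]
  smul_mem' := by
    intro a x hx i hi
    rw [Pi.smul_apply, hx i hi, smul_zero]

theorem mem_Vset_iff (l : ℕ) (x : G n) : x ∈ Vset n l ↔ x ∈ Vs n l := by
  simp [Vset, Vs]

end Cosets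

/-- A positive law on `F_2^n`. -/
structure Law {n : ℕ} (Q : G n → ℝ) : Prop where
  pos : ∀ g, 0 < Q g
  sum : ∑ g, Q g = 1

/-- The average of `Q` over the cosets of `W₀`. -/
noncomputable def sm {n : ℕ} (Q : G n → ℝ) (W₀ : Submodule (ZMod 2) (G n)) (g : G n) : ℝ :=
  cell Q (cl W₀) g / (Nat.card W₀ : ℝ)

/-- **SMO** (size 150): the averaged law.

PROOF. `cl W g' = cl W g ↔ g' - g ∈ W` (`Submodule.Quotient.eq`), so
`cell Q (cl W) g = ∑ h ∈ W, Q (g + h)`. Everything is an exchange of two finite sums: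
`∑_(h ∈ W) ∑_(v ∈ W₀) Q (g + h + v) = |W₀| ∑_(h ∈ W) Q (g + h)` for `W₀ ≤ W`. For `Q'=sm Q W₀` and a function
`F` which is constant on the cosets of `W₀`: `∑ Q' F = ∑ Q F`. -/
def SpecSMO : Prop :=
  ∀ (n : ℕ) (Q : G n → ℝ) (W₀ : Submodule (ZMod 2) (G n)), Law Q →
    Law (sm Q W₀) ∧
    (∀ W, W₀ ≤ W → ∀ g, cell (sm Q W₀) (cl W) g = cell Q (cl W) g) ∧
    (∀ W, W₀ ≤ W → e (sm Q W₀) W = e Q W) ∧
    (∀ (b : G n) (β : ℝ), (∀ g, Q (g + b) ≤ Real.exp β * Q g) →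
      ∀ g, sm Q W₀ (g + b) ≤ Real.exp β * sm Q W₀ g) ∧
    (∀ (L : Submodule (ZMod 2) (G n)) (b : G n), W₀ ≤ L →
      ∑ g, sm Q W₀ g * (Real.log (sm Q W₀ g) - Real.log (sm Q W₀ (g + b)) -
        (Real.log (cell (sm Q W₀) (cl L) g) - Real.log (cell (sm Q W₀) (cl L) (g + b)))) =
      K Q W₀ b - K Q L b)

/-- **SUB** (size 200, from STA, STB, STC, STD, TAU, SMO): one step in `F_2^n`.

PROOF. `Q' = sm Q W₀`, `T g = g + b` (`b + b = 0`), `W' = W ⊔ span {b}`. As `b ∉ W` there is a linear form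
`φ : G n → ZMod 2` with `φ = 0` on `W` and `φ b = 1` (`Submodule.exists_le_ker_of_notMem` or similar).
Apply STA - STD and TAU to `Q'`, `S = cl W'`, `X = cl L`, `f g = decide (φ g = 1)`. The cells:
`(S, f)` has the cells of `cl W` (`g' - g ∈ W'` and `φ (g' - g) = 0` iff `g' - g ∈ W`, as
`W' = W ∪ (b + W)`), `(S, X)` those of `cl (W' ⊓ L)`, `(S, X, f)` those of `cl (W ⊓ L)`; `cell` and `ent` only
depend on the relation `C ω' = C ω`. All of these subspaces contain `W₀`, so SMO gives the values for `Q`. -/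
def SpecSUB : Prop :=
  ∀ (n : ℕ) (Q : G n → ℝ) (W₀ W L : Submodule (ZMod 2) (G n)) (b : G n) (β : ℝ), Law Q →
    W₀ ≤ W → W₀ ≤ L → b ∉ W → (∀ g, Q (g + b) ≤ Real.exp β * Q g) →
    Real.log 2 - (e Q W - e Q (W ⊔ Submodule.span (ZMod 2) {b})) ≤
      4 * Real.exp β * ((e Q W - e Q (W ⊔ Submodule.span (ZMod 2) {b})) -
        (e Q (W ⊓ L) - e Q ((W ⊔ Submodule.span (ZMod 2) {b}) ⊓ L))) +
      4 * Real.sqrt (K Q W₀ b - K Q L b)

/-- **ENT** (size 150): entropies of cosets.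

PROOF. (1) `W ≤ W'`: the cell of `W` is contained in the cell of `W'` (`Real.log_le_log`). (2) Gibbs:
`e(W) - e(W') = ∑ Q log (cell_W' / cell_W)`. With `N = |W'| / |W| = 2^(dim W' - dim W)`:
`log (cell_W' / (N cell_W)) ≤ cell_W' / (N cell_W) - 1`, and `∑ g, Q g cell_W'(g) / cell_W(g) =
(1/|W|) ∑ g, cell_W'(g) = |W'| / |W|` (the function `cell_W' / cell_W` is constant on the cosets of `W`, and
the mean of `Q` over a coset of `W` is `cell_W / |W|`; `∑ g, cell_W' g = |W'| ∑ Q`). (3), (4): the cells of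
`⊤` and `⊥`. (5) `Q ≤ 1`, or (1). -/
def SpecENT : Prop :=
  ∀ (n : ℕ) (Q : G n → ℝ), Law Q →
    (∀ W W', W ≤ W' → e Q W' ≤ e Q W) ∧
    (∀ W W', W ≤ W' → e Q W ≤ e Q W' +
      ((Module.finrank (ZMod 2) W' : ℝ) - Module.finrank (ZMod 2) W) * Real.log 2) ∧
    e Q ⊤ = 0 ∧ e Q ⊥ = -∑ g, Q g * Real.log (Q g)

/-- **KLB** (size 150): relative entropies.

PROOF. (1) `cell_W g = ∑_(h ∈ W) Q (g + h) ≤ e^β cell_W (g + b)` (as `Q (g + h) = Q ((g + b + h) + b)`), so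
every summand of `K` is `≤ Q g * β`. (2) Gibbs: `K(W,b) - K(L,b) = ∑ Q log (p / p')`,
`p = cell_W g / cell_L g`, `p' = cell_W (g + b) / cell_L (g + b)`, `log (p'/p) ≤ p'/p - 1` and
`∑ Q p'/p = ∑ g, (Q g / cell_W g) cell_L g p'(g) = (1/|W|) ∑ g, cell_L(g) cell_W(g + b) / cell_L(g + b)`
(mean over the cosets of `W`) `= (1/|L|) ∑ g, cell_L(g) = 1` (mean over the cosets of `L` of
`cell_W(g + b)` is `(|W| / |L|) cell_L(g + b)`). (3) from (2) with `L = ⊤`, `K(⊤, b) = 0`. -/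
def SpecKLB : Prop :=
  ∀ (n : ℕ) (Q : G n → ℝ) (b : G n) (β : ℝ), Law Q → (∀ g, Q (g + b) ≤ Real.exp β * Q g) →
    (∀ W, K Q W b ≤ β) ∧ (∀ W L, W ≤ L → K Q L b ≤ K Q W b) ∧ ∀ W, 0 ≤ K Q W b

/-- **DEF** (size 150, from SUB, ENT): the deficit of a window which is generated by cheap elements.

PROOF. Claim, for every finite set `U'` of elements of `U` and `W = W₀ ⊔ span U'`:
`(dim W - dim W₀) log 2 - (e(W₀) - e(W)) ≤ 4 e^β ((e(W₀) - e(W)) - (e(W₀) - e(W ⊓ L))) +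
(dim W - dim W₀) 4 √ε`. Induction on `U'`: `U' = ∅` clear; for a new `b`: if `b ∈ W` nothing changes,
otherwise SUB for `W` and `b`, `dim (W ⊔ span {b}) = dim W + 1`, `√(K Q W₀ b - K Q L b) ≤ √ε`. For `U' = U`:
`W = H ≥ L`, `W ⊓ L = L`: the first bracket is `e(L) - e(H) ≤ (dim H - dim L) log 2` (ENT), and the left side is
`≥ (dim L - dim W₀) log 2 - (e(W₀) - e(L))` because `e(L) - e(H) ≤ (dim H - dim L) log 2`. -/
def SpecDEF : Prop :=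
  ∀ (n : ℕ) (Q : G n → ℝ) (W₀ L : Submodule (ZMod 2) (G n)) (U : Finset (G n)) (β ε : ℝ), Law Q →
    W₀ ≤ L → (∀ b ∈ U, ∀ g, Q (g + b) ≤ Real.exp β * Q g) →
    (∀ b ∈ U, K Q W₀ b - K Q L b ≤ ε) →
    L ≤ W₀ ⊔ Submodule.span (ZMod 2) (U : Set (G n)) →
    ((Module.finrank (ZMod 2) L : ℝ) - Module.finrank (ZMod 2) W₀) * Real.log 2 -
        (e Q W₀ - e Q L) ≤
      4 * Real.exp β * (((Module.finrank (ZMod 2)
        ↥(W₀ ⊔ Submodule.span (ZMod 2) (U : Set (G n))) : ℝ) - Module.finrank (ZMod 2) L) *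
          Real.log 2) +
      ((Module.finrank (ZMod 2) ↥(W₀ ⊔ Submodule.span (ZMod 2) (U : Set (G n))) : ℝ) -
        Module.finrank (ZMod 2) W₀) * (4 * Real.sqrt ε)

/-- **FRK** (size 80): the flag.

PROOF. `Vs n l` is the space of the functions supported in the coordinates `< l`;
`x ↦ (x i)_(i < l)` is a linear equivalence with `Fin l → ZMod 2` for `l ≤ n`. -/
def SpecFRK : Prop :=
  ∀ n : ℕ, (∀ l ≤ n, Module.finrank (ZMod 2) (Vs n l) = l ∧ (Vset n l).card = 2 ^ l) ∧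
    (∀ l l', l ≤ l' → Vs n l ≤ Vs n l') ∧ Vs n n = ⊤ ∧ Vs n 0 = ⊥

/-! ### Part 3: expansion, the law, the level -/

/-- **CON** (size 200): concentration.

PROOF. `V = Vset n l`. Let `m` be a median of `f` on `V`: `|{x ∈ V : f x < m}| ≤ |V|/2`,
`|{x ∈ V : m < f x}| ≤ |V|/2`. For `k : ℕ` let `S_k = {x ∈ V : f x < m - k Λ}`. For `x ∈ S_(k+1)`,
`b ∈ B ∩ V`: `x + b ∈ V`, `f (x + b) ≤ f x + Λ < m - k Λ`; so `S_(k+1) + B ∩ V ⊆ S_k` and by `Expands`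
`(1 + η) |S_(k+1)| ≤ |S_k|`, `|S_k| ≤ (1 + η)^(-k) |V|/2`. The same for `-f`. So
`∑_(x ∈ V) (f x - m)² ≤ Λ² ∑_k (k+1)² #{x ∈ V : k Λ < |f x - m| ≤ (k+1) Λ} ≤
Λ² |V| ∑_k (k+1)² (1 + η)^(-k) = K0 Λ² |V|`, and `∑ f² ≤ ∑ (f - m)²` if `∑ f = 0`. -/
def SpecCON : Prop :=
  ∀ η : ℝ, 0 < η → ∃ K0 : ℝ, 0 < K0 ∧ ∀ (n : ℕ) (B : Finset (G n)), Expands η n B →
    ∀ l ≤ n, ∀ (Λ : ℝ) (f : G n → ℝ), 0 < Λ →
      (∀ x ∈ Vset n l, ∀ b ∈ B ∩ Vset n l, |f (x + b) - f x| ≤ Λ) →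
      ∑ x ∈ Vset n l, f x = 0 → ∑ x ∈ Vset n l, (f x) ^ 2 ≤ K0 * Λ ^ 2 * (Vset n l).card

/-- The sign `(-1)^z`. -/
def sg (z : ZMod 2) : ℝ := if z = 0 then 1 else -1

/-- **CHV** (size 120): orthogonality of characters.

PROOF. `sg (z + w) = sg z * sg w`. For a linear form `θ` with `θ x₀ ≠ 0`, `x₀ ∈ V`:
`∑_(x ∈ V) sg (θ x) = ∑_(x ∈ V) sg (θ (x + x₀)) = -∑_(x ∈ V) sg (θ x)`, so it is `0`. Apply this to
`θ i` and to `θ i - θ j`. -/
def SpecCHV : Prop :=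
  ∀ (n l r : ℕ) (θ : Fin r → (G n →ₗ[ZMod 2] ZMod 2)),
    (∀ i, ∃ x ∈ Vset n l, θ i x ≠ 0) → (∀ i j, i ≠ j → ∃ x ∈ Vset n l, θ i x ≠ θ j x) →
    ∑ x ∈ Vset n l, ∑ i, sg (θ i x) = 0 ∧
    ∑ x ∈ Vset n l, (∑ i, sg (θ i x)) ^ 2 = r * (Vset n l).card

/-- The `k`-fold sumset. -/
def ks {n : ℕ} (B : Finset (G n)) : ℕ → Finset (G n)
  | 0 => {0}
  | k + 1 => ks B k + B

/-- **GEN** (size 80): `B` generates.

PROOF. `S` = the set of all `x` in some `ks B k`; `ks B j + ks B k = ks B (j + k)`, so `S` is a subgroup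
(`-x = x`), `0 ∈ S`. If `S` is not everything, `2 |S| ≤ 2^n = |Vset n n|`, and `S + B ∩ Vset n n ⊆ S`
contradicts `Expands` for `l = n`. -/
def SpecGEN : Prop :=
  ∀ (η : ℝ) (n : ℕ) (B : Finset (G n)), 0 < η → 0 ∈ B → Expands η n B → ∀ x, ∃ k, x ∈ ks B k

/-- **QEX** (size 250): the law `Q`.

PROOF. `|ks B k| ≤ M^k |A|` (`Finset.pluennecke_ruzsa_inequality_nsmul_sub_nsmul_add` or the version
for `n • B` with `A.Nonempty`). `N x` = the least `k` with `x ∈ ks B k`; `N 0 = 0`, `N (x + b) ≤ N x + 1`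
for `b ∈ B`, so `N x ≤ N (x + b) + 1`. `β' = log (2 M)`, `β = (4/c) β'`, `Q = exp (-β N) / Z`, `Z ≥ 1`.
`Z' = ∑ x, exp (-β' N x) ≤ ∑_(k ≤ K) |ks B k| exp (-β' k) ≤ |A| ∑_k 2^(-k) ≤ 2 |A|` (`K` the maximum of `N`).
`h = -∑ Q log Q = β E + log Z ≥ β E`, `E = ∑ Q N`. Gibbs with `R = exp (-β' N) / Z'`:
`h ≤ -∑ Q log R = β' E + log Z'`; Gibbs with the uniform law: `h ≤ n log 2`. So `E ≤ n log 2 / β` (if
`β > 0`; `β' ≥ log 2 > 0`), `h ≤ (c/4) n log 2 + log 2 + (1-c) n log 2 ≤ (1 - c/2) n log 2` as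
`log 2 ≤ (c/4) n log 2`. -/
def SpecQEX : Prop :=
  ∀ (c M : ℝ) (n : ℕ) (A B : Finset (G n)), 0 < c → c ≤ 1 / 2 → 1 ≤ M → 4 / c ≤ n → 0 ∈ B →
    (∀ x, ∃ k, x ∈ ks B k) → A.Nonempty → (A.card : ℝ) ≤ (2 : ℝ) ^ ((1 - c) * (n : ℝ)) →
    ((A + B).card : ℝ) ≤ M * A.card →
    ∃ Q : G n → ℝ, Law Q ∧
      (∀ b ∈ B, ∀ g, Q (g + b) ≤ Real.exp (4 / c * Real.log (2 * M)) * Q g) ∧
      -∑ g, Q g * Real.log (Q g) ≤ (1 - c / 2) * n * Real.log 2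

/-- **LEV** (size 60): the level.

PROOF. Choose `l ≤ n` with the maximal value of `Φ(l) = D l - (κ/2) l u`. Then `Φ(l - t) ≤ Φ(l)`, and
`l u ≥ D l ≥ Φ(l) ≥ Φ(n) ≥ (κ/2) n u`. -/
def SpecLEV : Prop :=
  ∀ (n : ℕ) (D : ℕ → ℝ) (κ u : ℝ), 0 < u → 0 ≤ κ → D 0 = 0 → (∀ l < n, D (l + 1) ≤ D l + u) →
    κ * n * u ≤ D n →
    ∃ l ≤ n, κ / 2 * n ≤ l ∧ ∀ t ≤ l, κ / 2 * t * u ≤ D l - D (l - t)

/-- **WIN** (size 150, from ENT, KLB, DEF, FRK): the linear form of one window.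

PROOF. `W₀ = Vs n (l - t')`, `L = Vs n (l - t)`, `U` = the `b ∈ B ∩ Vset n l` with
`K Q W₀ b - K Q L b ≤ ε`, `H = W₀ ⊔ span U ≤ Vs n l`. If `L ≤ H`: by DEF, FRK
`(t' - t) log 2 - (e(W₀) - e(L)) ≤ 4 e^β t log 2 + t' (4 √ε)` (`dim H ≤ l`, `dim L = l - t`,
`dim W₀ = l - t'`), and the left side is `≥ (κ/2) t' log 2 - t log 2` by `hdef` and ENT
(`e(L) - e(Vs n l) ≥ 0`): contradiction to `hsz`. So there is an `x ∈ L` which is not in `H`, and a linear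
form `θ` with `θ = 0` on `H`, `θ x ≠ 0`. -/
def SpecWIN : Prop :=
  ∀ (n l t t' : ℕ) (B : Finset (G n)) (Q : G n → ℝ) (β ε κ : ℝ), Law Q →
    (∀ b ∈ B, ∀ g, Q (g + b) ≤ Real.exp β * Q g) → l ≤ n → t ≤ t' → t' ≤ l → 0 ≤ ε →
    κ / 2 * t' * Real.log 2 ≤ t' * Real.log 2 - (e Q (Vs n (l - t')) - e Q (Vs n l)) →
    4 * Real.exp β * (t * Real.log 2) + t' * (4 * Real.sqrt ε) <
      κ / 2 * t' * Real.log 2 - t * Real.log 2 →
    ∃ θ : G n →ₗ[ZMod 2] ZMod 2, (∀ x ∈ Vset n (l - t'), θ x = 0) ∧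
      (∃ x ∈ Vset n (l - t), θ x ≠ 0) ∧
      ∀ b ∈ B ∩ Vset n l, K Q (Vs n (l - t')) b - K Q (Vs n (l - t)) b ≤ ε → θ b = 0

/-- **MAIN** (size 250, from CON, CHV, GEN, QEX, LEV, WIN, ENT, KLB, FRK): the theorem.

PROOF. Replace `c` by `min c (1/2)` and `M` by `max M 1`. `κ = c/2`, `β = (4/c) log (2M)`,
`ε = (κ log 2 / 16)²`, `ρ` a natural number `> 4 (1 + 4 e^β) / κ`, `K0` from CON, `r` a natural number
`> K0 (2 β / ε)²`, `n0 ≥ 4/c` and `≥ 2 ρ^r / κ`. Suppose `|A + B| ≤ M |A|`. GEN, QEX: `Q`. ENT, FRK, LEV for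
`D l = l log 2 - (e Q ⊥ - e Q (Vs n l))`, `u = log 2`: a level `l ≥ (κ/2) n ≥ ρ^r`. `t_i = ρ^i`,
`i = 0, .., r`; for `i < r` WIN with `t = ρ^i`, `t' = ρ^(i+1)`: the size condition is
`4 e^β log 2 + ρ κ log 2 / 4 < κ/2 ρ log 2 - log 2` (times `t`). The forms `θ_i`, `i < r`, are distinct on
`Vset n l`: for `i < j`, `θ_i` vanishes on `Vs n (l - ρ^(i+1)) ⊇ Vs n (l - ρ^j)`, where `θ_j` does not. For
`b ∈ B ∩ Vset n l`: `|f (x + b) - f x| ≤ 2 #{i : θ_i b ≠ 0} ≤ 2 #{i : K(W_i, b) - K(L_i, b) > ε} ≤ 2 β / ε`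
by KLB (the sum over `i` telescopes: `∑ i < r, (K Q (Vs n (l - ρ^(i+1))) b - K Q (Vs n (l - ρ^i)) b) ≤ β`,
all summands are `≥ 0`). CHV, CON with `Λ = 2 β / ε`: `r ≤ K0 (2 β / ε)²`. Contradiction. -/
def SpecMAIN : Prop :=
  ∀ η M c : ℝ, 0 < η → 0 < c → ∃ n0 : ℕ, ∀ n ≥ n0, ∀ B : Finset (G n), 0 ∈ B → Expands η n B →
    ∀ A : Finset (G n), A.Nonempty → (A.card : ℝ) ≤ (2 : ℝ) ^ ((1 - c) * (n : ℝ)) →
      M * (A.card : ℝ) < ((A + B).card : ℝ)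

end Pool.Agent.Lib.MPb75bf2.FL
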